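import Pool.Agent.Lib.MP_eea824_ag.Hom

/-! The Vamos quartic and a point on a line and a plane have no common hyperbolic extension. -/

namespace Pool.Agent.Lib.MP_eea824_ag.Gar

open MvPolynomial

variable {σ τ : Type*}

lemma eval_aeval (x : τ → ℝ) (g : σ → MvPolynomial τ ℝ) (F : MvPolynomial σ ℝ) :
    eval x (aeval g F) = eval (fun i => eval x (g i)) F := by
  induction F using MvPolynomial.induction_on <;> simp_all

lemma aeval_aeval (x : τ → ℂ) (g : σ → MvPolynomial τ ℝ) (F : MvPolynomial σ ℝ) :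
    aeval x (aeval g F) = aeval (fun i => aeval x (g i)) F := by
  induction F using MvPolynomial.induction_on <;> simp_all

lemma v4 (x : Fin 4 → ℝ) : x = ![x 0, x 1, x 2, x 3] := by
  ext i
  fin_cases i <;> rfl

lemma v3 (x : Fin 3 → ℝ) : x = ![x 0, x 1, x 2] := by
  ext i
  fin_cases i <;> rfl

lemma tri (P : MvPolynomial (Fin 4) ℝ) (hd : P.totalDegree ≤ 4)
    (h0 : ∀ b c z : ℝ, 0 < b → 0 < c → 0 < z → eval ![0, b, c, z] P = 0)
    (h1 : ∀ a c z : ℝ, 0 < a → 0 < c → 0 < z → eval ![a, 0, c, z] P = 0)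
    (h2 : ∀ a b z : ℝ, 0 < a → 0 < b → 0 < z → eval ![a, b, 0, z] P = 0)
    (hz : ∀ a b c : ℝ, eval ![a, b, c, 0] P = 4 * (a + b + c) * (a * b * c)) :
    ∃ k : ℝ, ∀ a b c z : ℝ, eval ![a, b, c, z] P = a * b * c * (4 * (a + b + c) + k * z) := by
  obtain ⟨P1, e1⟩ := face P 0 fun x hx h => by
    rw [v4 x, hx]
    exact h0 _ _ _ (h 1 (by decide)) (h 2 (by decide)) (h 3 (by decide))
  obtain ⟨P2, e2⟩ := face P1 1 fun x hx h => by
    have := h1 _ _ _ (h 0 (by decide)) (h 2 (by decide)) (h 3 (by decide))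
    rw [← hx, ← v4 x, e1, map_mul, eval_X] at this
    exact (mul_eq_zero.mp (this.trans hx)).resolve_left (h 0 (by decide)).ne'
  obtain ⟨P3, e3⟩ := face P2 2 fun x hx h => by
    have := h2 _ _ _ (h 0 (by decide)) (h 1 (by decide)) (h 3 (by decide))
    rw [← hx, ← v4 x, e1, e2, map_mul, map_mul, eval_X, eval_X] at this
    exact (mul_eq_zero.mp ((mul_eq_zero.mp (this.trans hx)).resolve_left
      (h 0 (by decide)).ne')).resolve_left (h 1 (by decide)).ne'
  have d3 : P3.totalDegree ≤ 1 := deg_quot e3 (deg_quot e2 (deg_quot e1 hd))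
  obtain ⟨P4, e4⟩ := face (P3 - C 4 * (X 0 + X 1 + X 2)) 3 fun x hx h => by
    have := hz (x 0) (x 1) (x 2)
    rw [← hx, ← v4 x, e1, e2, e3, map_mul, map_mul, map_mul, eval_X, eval_X, eval_X] at this
    have a := h 0 (by decide)
    have b := h 1 (by decide)
    have c := h 2 (by decide)
    have : x 0 * x 1 * x 2 * (eval x P3 - 4 * (x 0 + x 1 + x 2)) = 0 := by linarith
    simpa using (mul_eq_zero.mp this).resolve_left (by positivity)
  have d4 : P4.totalDegree ≤ 0 := by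
    refine deg_quot e4 ((totalDegree_sub _ _).trans (max_le d3 ?_))
    exact ((((isHomogeneous_X ℝ 0).add (isHomogeneous_X ℝ 1)).add
      (isHomogeneous_X ℝ 2)).C_mul 4).totalDegree_le
  have e5 := totalDegree_eq_zero_iff_eq_C.mp (Nat.le_zero.mp d4)
  refine ⟨coeff 0 P4, fun a b c z => ?_⟩
  have e6 : P3 = C 4 * (X 0 + X 1 + X 2) + X 3 * C (coeff 0 P4) := by
    rw [← e5, ← e4]
    ring
  rw [e1, e2, e3, e6]
  simp
  ring

lemma face2 (P : MvPolynomial (Fin 3) ℝ) (i : Fin 3) (B : (Fin 3 → ℝ) → ℝ) (hB : Continuous B)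
    (h : ∀ x : Fin 3 → ℝ, (∀ j, 0 < x j) → |eval x P| ≤ x i ^ 2 * B x) : X i ^ 2 ∣ P := by
  have key : ∀ (Q : MvPolynomial (Fin 3) ℝ) (B : (Fin 3 → ℝ) → ℝ), Continuous B →
      (∀ x : Fin 3 → ℝ, (∀ j, 0 < x j) → |eval x Q| ≤ x i * B x) → X i ∣ Q := by
    intro Q B hB h
    refine face Q i fun x hx hp => ?_
    have hc := continuous_eval Q
    have hu : Continuous fun t : ℝ => Function.update x i t := by fun_prop
    have cl : IsClosed {t : ℝ | |eval (Function.update x i t) Q| ≤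
        t * B (Function.update x i t)} :=
      isClosed_le (hc.comp hu).abs (continuous_id.mul (hB.comp hu))
    have sub : Set.Ioi (0 : ℝ) ⊆ {t : ℝ | |eval (Function.update x i t) Q| ≤
        t * B (Function.update x i t)} := by
      intro t (ht : 0 < t)
      have := h (Function.update x i t) (fun j => by
        by_cases hj : j = i
        · subst hj
          simpa using ht
        · rw [Function.update_of_ne hj]
          exact hp j hj)
      simpa using this
    have := cl.closure_subset_iff.mpr sub (show (0 : ℝ) ∈ closure (Set.Ioi 0) by simp)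
    simp only [Set.mem_ofPred_eq, zero_mul, abs_nonpos_iff] at this
    rw [← hx, Function.update_eq_self] at this
    exact this.trans hx
  obtain ⟨Q, e⟩ := key P (fun x => x i * B x) (by fun_prop) (fun x hx => by
    have := h x hx
    linarith)
  obtain ⟨R, e'⟩ := key Q B hB (fun x hx => by
    have := h x hx
    rw [e, map_mul, eval_X, abs_mul, abs_of_pos (hx i), pow_two, mul_assoc] at this
    exact le_of_mul_le_mul_left this (hx i))
  exact ⟨R, by rw [e, e']; ring⟩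

lemma bi (P : MvPolynomial (Fin 3) ℝ) (hd : P.totalDegree ≤ 4) (h0 : X 0 ^ 2 ∣ P)
    (h1 : X 1 ^ 2 ∣ P) : ∃ k : ℝ, ∀ a e z : ℝ, eval ![a, e, z] P = a ^ 2 * e ^ 2 * k := by
  obtain ⟨Q, e⟩ := h1
  rw [e] at h0
  obtain ⟨R, e'⟩ := (X_prime (i := (0 : Fin 3)) (R := ℝ)).pow_dvd_of_dvd_mul_left 2
    (fun h => by
      have := (X_prime (i := (0 : Fin 3)) (R := ℝ)).dvd_of_dvd_pow h
      rw [X_dvd_X] at this
      exact absurd this (by decide)) h0
  have e2 : P = X 1 * (X 1 * (X 0 * (X 0 * R))) := by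
    rw [e, e']
    ring
  have d : R.totalDegree ≤ 0 := deg_quot rfl (deg_quot rfl (deg_quot rfl (deg_quot e2 hd)))
  have e5 := totalDegree_eq_zero_iff_eq_C.mp (Nat.le_zero.mp d)
  refine ⟨coeff 0 R, fun a e z => ?_⟩
  rw [e2, e5]
  simp
  ring

/-- the specialised Vamos quartic -/
def hv (a c d e : ℝ) : ℝ :=
  a ^ 2 * e ^ 2 + 4 * (a + c + d + e) * (a * c * d + (a * c + a * d + c * d) * e)

theorem core (F : MvPolynomial (Fin 5) ℝ) (hF : F.IsHomogeneous 4)
    (hy : Hy (fun x => aeval x F) ![1, 1, 1, 0, 0])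
    (hA : ∀ a c d e : ℝ, eval ![a, c, d, e, 0] F = hv a c d e)
    (hB : ∀ u v z : ℝ, eval ![u, v, v, 0, z] F = 4 * u * v ^ 2 * (u + 2 * v + z)) : False := by
  have H := hp_of_hom F hF
  set Φ : (Fin 5 → ℂ) → ℂ := fun x => aeval x F with hΦ
  have ne : ∀ x : Fin 5 → ℝ, Φ (cx x) ≠ 0 ↔ eval x F ≠ 0 := by
    intro x
    simp [hΦ, aeval_cx]
  have inG : ∀ a c d e z a' c' d' e' z' : ℝ, (∀ t : ℝ, 0 ≤ t →
      eval ![a + t * a', c + t * c', d + t * d', e + t * e', z + t * z'] F ≠ 0) →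
      ![a, c, d, e, z] ∈ G Φ ![a', c', d', e', z'] := by
    intro a c d e z a' c' d' e' z' h t ht
    rw [ne]
    convert h t ht using 3
    ext i
    fin_cases i <;> simp
  have inC : ∀ a c d e z a' c' d' e' z' : ℝ, (∀ t : ℝ, 0 < t →
      eval ![a + t * a', c + t * c', d + t * d', e + t * e', z + t * z'] F ≠ 0) →
      ![a, c, d, e, z] ∈ Cl Φ ![a', c', d', e', z'] := by
    intro a c d e z a' c' d' e' z' h t ht
    rw [ne]
    convert h t ht using 3
    ext i
    fin_cases i <;> simp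
  have cz : ![0, 0, 0, 0, 1] ∈ Cl Φ ![1, 1, 1, 0, 0] := inC _ _ _ _ _ _ _ _ _ _ fun t ht => by
    simp only [mul_one, mul_zero, add_zero, zero_add, hB]
    positivity
  have orth : ∀ a c d e z : ℝ, 0 ≤ a → 0 ≤ c → 0 ≤ d → 0 ≤ e → 0 ≤ z →
      ![a, c, d, e, z] ∈ Cl Φ ![1, 1, 1, 0, 0] := by
    intro a c d e z ha hc hd he hz
    have h1 : ![a, c, d, e, 0] ∈ Cl Φ ![1, 1, 1, 0, 0] := inC _ _ _ _ _ _ _ _ _ _ fun t ht => by
      simp only [mul_one, mul_zero, add_zero, hA, hv]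
      positivity
    convert cl_add H hy h1 (smul_cl H hy cz hz) using 1
    ext i
    fin_cases i <;> simp
  have bd : ∀ a c d e z a' c' d' e' : ℝ, 0 ≤ a → 0 ≤ c → 0 ≤ d → 0 ≤ e → 0 ≤ z →
      ![a', c', d', e', -1] ∈ Cl Φ ![1, 1, 1, 0, 0] →
      |eval ![a, c, d, e, z] F| ≤ 16 * |hv (a + z * a') (c + z * c') (d + z * d') (e + z * e')| := by
    intro a c d e z a' c' d' e' ha hc hd he hz h
    have := mono' H hy (orth a c d e z ha hc hd he hz) (smul_cl H hy h hz)
    have e1 : ![a, c, d, e, z] + z • ![a', c', d', e', -1] =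
        ![a + z * a', c + z * c', d + z * d', e + z * e', 0] := by
      ext i
      fin_cases i <;> simp
    rw [e1] at this
    simp only [hΦ, aeval_cx, Complex.norm_real, Real.norm_eq_abs, hA] at this
    linarith
  have van : ∀ a c d e z a' c' d' e' : ℝ, 0 ≤ a → 0 ≤ c → 0 ≤ d → 0 ≤ e → 0 ≤ z →
      ![a', c', d', e', -1] ∈ Cl Φ ![1, 1, 1, 0, 0] →
      hv (a + z * a') (c + z * c') (d + z * d') (e + z * e') = 0 →
      eval ![a, c, d, e, z] F = 0 := by
    intro a c d e z a' c' d' e' ha hc hd he hz h h0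
    have := bd a c d e z a' c' d' e' ha hc hd he hz h
    rw [h0, abs_zero, mul_zero] at this
    exact abs_nonpos_iff.mp this
  have ca : ![1, 0, 0, 0, -1] ∈ Cl Φ ![1, 1, 1, 0, 0] := inC _ _ _ _ _ _ _ _ _ _ fun t ht => by
    simp only [mul_one, mul_zero, add_zero, zero_add, hB]
    rw [show 1 + t + 2 * t + -1 = 3 * t by ring]
    positivity
  have ccd : ![0, 1, 1, 0, -1] ∈ Cl Φ ![1, 1, 1, 0, 0] := inC _ _ _ _ _ _ _ _ _ _ fun t ht => by
    simp only [mul_one, mul_zero, add_zero, zero_add, hB]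
    rw [show t + 2 * (1 + t) + -1 = 3 * t + 1 by ring]
    positivity
  have hX : ∀ {n : ℕ} (i : Fin n), (X i : MvPolynomial (Fin n) ℝ).IsHomogeneous 1 :=
    fun i => isHomogeneous_X ℝ i
  have hO : ∀ {n : ℕ}, (0 : MvPolynomial (Fin n) ℝ).IsHomogeneous 1 :=
    fun {n} => isHomogeneous_zero (Fin n) ℝ 1
  -- step 1
  have ev1 : ∀ a c d z : ℝ, eval ![a, c, d, z]
      (aeval (![X 0, X 1, X 2, 0, X 3] : Fin 5 → MvPolynomial (Fin 4) ℝ) F) =
      eval ![a, c, d, 0, z] F := by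
    intro a c d z
    rw [eval_aeval]
    congr 2
    ext i
    fin_cases i <;> simp
  obtain ⟨k1, s1⟩ := tri (aeval (![X 0, X 1, X 2, 0, X 3] : Fin 5 → MvPolynomial (Fin 4) ℝ) F)
    (hF.aeval _ (n := 1) (fun i => by fin_cases i <;> first | exact hX _ | exact hO)).totalDegree_le
    (fun b c z hb hc hz => by
      rw [ev1]
      exact van _ _ _ _ _ _ _ _ _ le_rfl hb.le hc.le le_rfl hz.le ccd (by simp [hv]))
    (fun b c z hb hc hz => by
      rw [ev1]
      exact van _ _ _ _ _ _ _ _ _ hb.le le_rfl hc.le le_rfl hz.le ca (by simp [hv]))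
    (fun b c z hb hc hz => by
      rw [ev1]
      exact van _ _ _ _ _ _ _ _ _ hb.le hc.le le_rfl le_rfl hz.le ca (by simp [hv]))
    (fun a b c => by
      rw [ev1, hA]
      simp [hv])
  simp only [ev1] at s1
  have hk1 : k1 = 4 := by
    have := s1 1 1 1 1
    rw [hB] at this
    linarith
  subst hk1
  have cc : ![0, 1, 0, 0, -1] ∈ Cl Φ ![1, 1, 1, 0, 0] := inC _ _ _ _ _ _ _ _ _ _ fun t ht => by
    simp only [mul_one, mul_zero, add_zero, zero_add, s1]
    rw [show 4 * (t + (1 + t) + t) + 4 * -1 = 12 * t by ring]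
    positivity
  have cd : ![0, 0, 1, 0, -1] ∈ Cl Φ ![1, 1, 1, 0, 0] := inC _ _ _ _ _ _ _ _ _ _ fun t ht => by
    simp only [mul_one, mul_zero, add_zero, zero_add, s1]
    rw [show 4 * (t + t + (1 + t)) + 4 * -1 = 12 * t by ring]
    positivity
  -- step 2
  have ev2 : ∀ c d e z : ℝ, eval ![c, d, e, z]
      (aeval (![0, X 0, X 1, X 2, X 3] : Fin 5 → MvPolynomial (Fin 4) ℝ) F) =
      eval ![0, c, d, e, z] F := by
    intro a c d z
    rw [eval_aeval]
    congr 2
    ext i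
    fin_cases i <;> simp
  obtain ⟨k2, s2⟩ := tri (aeval (![0, X 0, X 1, X 2, X 3] : Fin 5 → MvPolynomial (Fin 4) ℝ) F)
    (hF.aeval _ (n := 1) (fun i => by fin_cases i <;> first | exact hX _ | exact hO)).totalDegree_le
    (fun b c z hb hc hz => by
      rw [ev2]
      exact van _ _ _ _ _ _ _ _ _ le_rfl le_rfl hb.le hc.le hz.le cd (by simp [hv]))
    (fun b c z hb hc hz => by
      rw [ev2]
      exact van _ _ _ _ _ _ _ _ _ le_rfl hb.le le_rfl hc.le hz.le cc (by simp [hv]))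
    (fun b c z hb hc hz => by
      rw [ev2, s1]
      simp)
    (fun a b c => by
      rw [ev2, hA]
      simp [hv])
  simp only [ev2] at s2
  have gb : ![0, 1, 1, 1, 0] ∈ G Φ ![1, 1, 1, 0, 0] := inG _ _ _ _ _ _ _ _ _ _ fun t ht => by
    simp only [mul_one, mul_zero, add_zero, zero_add, hA, hv]
    positivity
  have ce : ![0, 0, 0, |k2| + 1, -1] ∈ Cl Φ ![1, 1, 1, 0, 0] :=
    cl_base H hy gb (inC _ _ _ _ _ _ _ _ _ _ fun t ht => by
      simp only [mul_one, mul_zero, add_zero, zero_add, s2]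
      have := le_abs_self k2
      have := abs_nonneg k2
      have : 0 < 4 * (t + t + (|k2| + 1 + t)) + k2 * -1 := by linarith
      positivity)
  -- step 3
  have ev3 : ∀ x : Fin 3 → ℝ, eval x
      (aeval (![X 0, 0, 0, X 1, X 2] : Fin 5 → MvPolynomial (Fin 3) ℝ) F) =
      eval ![x 0, 0, 0, x 1, x 2] F := by
    intro x
    rw [eval_aeval]
    congr 2
    ext i
    fin_cases i <;> simp
  obtain ⟨k3, s3⟩ := bi (aeval (![X 0, 0, 0, X 1, X 2] : Fin 5 → MvPolynomial (Fin 3) ℝ) F)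
    (hF.aeval _ (n := 1) (fun i => by fin_cases i <;> first | exact hX _ | exact hO)).totalDegree_le
    (face2 _ 0 (fun x => 16 * (x 1 + x 2 * (|k2| + 1)) ^ 2) (by fun_prop) fun x hx => by
      rw [ev3]
      refine (bd _ _ _ _ _ _ _ _ _ (hx 0).le le_rfl le_rfl (hx 1).le (hx 2).le ce).trans (le_of_eq ?_)
      simp only [hv, mul_zero, add_zero, zero_mul]
      rw [abs_of_nonneg (by positivity)]
      ring)
    (face2 _ 1 (fun x => 16 * (x 0 + x 2) ^ 2) (by fun_prop) fun x hx => by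
      rw [ev3]
      refine (bd _ _ _ _ _ _ _ _ _ (hx 0).le le_rfl le_rfl (hx 1).le (hx 2).le ca).trans (le_of_eq ?_)
      simp only [hv, mul_zero, add_zero, zero_mul, mul_one]
      rw [abs_of_nonneg (by positivity)]
      ring)
  simp only [ev3, Matrix.cons_val_zero, Matrix.cons_val_one, Matrix.cons_val] at s3
  have hk3 : k3 = 1 := by
    have := s3 1 1 0
    rw [hA] at this
    simp [hv] at this
    linarith
  subst hk3
  have g1 : ![1, 0, 0, 1, 0] ∈ G Φ ![1, 1, 1, 0, 0] := inG _ _ _ _ _ _ _ _ _ _ fun t ht => by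
    simp only [mul_one, mul_zero, add_zero, zero_add, hA, hv]
    positivity
  have g2 : ![1, 0, 0, 1, -12] ∈ G Φ ![1, 1, 1, 0, 0] :=
    sub_base H hy g1 (inG _ _ _ _ _ _ _ _ _ _ fun t ht => by
      simp only [mul_one, mul_zero, add_zero, s3]
      positivity)
  have g3 : ![3, 4, 4, -1, 0] ∈ G Φ ![1, 1, 1, 0, 0] := inG _ _ _ _ _ _ _ _ _ _ fun t ht => by
    simp only [mul_one, mul_zero, add_zero, hA]
    rw [show hv (3 + t) (4 + t) (4 + t) (-1) =
      (3 + t) ^ 2 + 4 * (3 * t + 10) * (4 + t) * (t ^ 2 + 4 * t + 2) by unfold hv; ring]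
    positivity
  have g4 := G.ne (add_mem H hy g2 g3)
  rw [ne] at g4
  apply g4
  have e : ![1, 0, 0, 1, -12] + ![3, 4, 4, -1, 0] = (![4, 4, 4, 0, -12] : Fin 5 → ℝ) := by
    ext i
    fin_cases i <;> norm_num
  rw [e, hB]
  norm_num

end Pool.Agent.Lib.MP_eea824_ag.Gar
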