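import Pool.Agent.Lib.MP_eea824_ag.Hom

/-! The interlacing inequality for a derivative in a direction of the closed cone. -/

namespace Pool.Agent.Lib.MP_eea824_ag.Cu

open MvPolynomial Complex Gar

variable {σ : Type*}

theorem logder_im (p : Polynomial ℂ) (h : ∀ ρ : ℂ, 0 < ρ.im → p.eval ρ ≠ 0) :
    (p.derivative.eval 0 / p.eval 0).im ≤ 0 := by
  by_cases h0 : p.eval 0 = 0
  · simp [h0]
  rw [(IsAlgClosed.splits p).eval_derivative_div_eval_of_ne_zero h0]
  have key : ∀ s : Multiset ℂ, (∀ ρ ∈ s, ρ.im ≤ 0) →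
      ((s.map fun z ↦ 1 / ((0 : ℂ) - z)).sum).im ≤ 0 := by
    intro s
    induction s using Multiset.induction_on with
    | empty => simp
    | cons x s ih =>
      intro hs
      have h1 := hs x (Multiset.mem_cons_self _ _)
      have h2 := ih (fun ρ hρ => hs ρ (Multiset.mem_cons_of_mem hρ))
      simp only [Multiset.map_cons, Multiset.sum_cons, Complex.add_im]
      have h3 : (1 / ((0 : ℂ) - x)).im ≤ 0 := by
        rw [one_div, Complex.inv_im]
        apply div_nonpos_of_nonpos_of_nonneg _ (Complex.normSq_nonneg _)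
        simp only [Complex.sub_im, Complex.zero_im]
        linarith
      linarith
  apply key
  intro ρ hρ
  by_contra hc
  exact h ρ (not_le.mp hc) (Polynomial.isRoot_of_mem_roots hρ)

theorem hasD [DecidableEq σ] (F : MvPolynomial σ ℝ) (w : σ → ℂ) (j : σ) :
    HasDerivAt (fun s : ℂ => aeval (w + s • cx (Pi.single j 1)) F) (aeval w (pderiv j F)) 0 := by
  induction F using MvPolynomial.induction_on with
  | C a => simpa using hasDerivAt_const (0 : ℂ) _
  | add p q hp hq =>
    simp only [map_add]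
    exact hp.add hq
  | mul_X p i hp =>
    have h1 : HasDerivAt (fun s : ℂ => w i + s * cx (Pi.single j 1) i) (cx (Pi.single j 1) i) 0 := by
      simpa using ((hasDerivAt_id (0 : ℂ)).mul_const (cx (Pi.single j 1) i)).const_add (w i)
    have h2 := hp.mul h1
    have e : aeval w (pderiv j (p * X i)) = aeval w (pderiv j p) * (w i + 0 * cx (Pi.single j 1) i) +
        aeval (w + (0 : ℂ) • cx (Pi.single j 1)) p * cx (Pi.single j 1) i := by
      by_cases h : i = j
      · subst h
        simp [cx]
        ring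
      · simp [cx, h, pderiv_X_of_ne h]
        ring
    rw [e]
    simp only [map_mul, aeval_X, Pi.add_apply, Pi.smul_apply, smul_eq_mul]
    exact h2

/-- interlacing: the derivative in a direction of the closed cone -/
theorem interl [Fintype σ] [DecidableEq σ] (F : MvPolynomial σ ℝ) (D : ℕ) (hF : F.IsHomogeneous D)
    (e : σ → ℝ) (hw : Hy (fun z : σ → ℂ => aeval z F) e) (j : σ)
    (hj : Pi.single j 1 ∈ Cl (fun z : σ → ℂ => aeval z F) e) (x : σ → ℝ) (ε : ℝ) (hε : 0 < ε) :
    (aeval (cx x + I • cx (ε • e)) (pderiv j F) / aeval (cx x + I • cx (ε • e)) F).im ≤ 0 := by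
  have H := hp_of_hom F hF
  obtain ⟨f, -, hf⟩ := H.line (cx x + I • cx (ε • e)) (cx (Pi.single j 1))
  have h1 := logder_im f (fun ρ hρ => by
    rw [← hf]
    have hv := add_cl H hw (smul_mem H (self_mem H hw) hε) (smul_cl H hw hj hρ.le)
    have := hy_of_mem H hw hv (x + ρ.re • Pi.single j 1) I (by simp)
    have e1 : cx x + I • cx (ε • e) + ρ • cx (Pi.single j 1) =
        I • cx (ε • e + ρ.im • Pi.single j 1) + cx (x + ρ.re • Pi.single j 1) := by
      funext i
      apply Complex.ext <;> simp [cx]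
    rw [e1]
    exact this)
  have h2 := hasD F (cx x + I • cx (ε • e)) j
  rw [show (fun s : ℂ => aeval (cx x + I • cx (ε • e) + s • cx (Pi.single j 1)) F) =
    fun s => f.eval s from funext hf] at h2
  have h3 := hf 0
  rw [zero_smul, add_zero] at h3
  rw [h3, h2.unique (f.hasDerivAt 0)]
  exact h1

theorem quad [Fintype σ] (F : MvPolynomial σ ℝ) (hF : F.IsHomogeneous 2) :
    ∃ M : σ → σ → ℝ, ∀ v : σ → ℂ, aeval v F = ∑ i, ∑ j, (M i j : ℂ) * v i * v j := by
  have h0 : ∀ i j, ∃ c : ℝ, pderiv j (pderiv i F) = C c := by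
    intro i j
    have := (hF.pderiv (i := i)).pderiv (i := j)
    rw [← totalDegree_zero_iff_isHomogeneous, totalDegree_eq_zero_iff_eq_C] at this
    exact ⟨_, this⟩
  choose c hc using h0
  refine ⟨fun i j => c i j / 2, fun v => ?_⟩
  have h1 := congrArg (aeval v) hF.sum_X_mul_pderiv
  have h2 : ∀ i, aeval v (pderiv i F) = ∑ j, v j * (c i j : ℂ) := by
    intro i
    have := congrArg (aeval v) (hF.pderiv (i := i)).sum_X_mul_pderiv
    simp only [hc, map_sum, map_mul, aeval_X, aeval_C] at this
    simpa using this.symm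
  simp only [map_sum, map_mul, aeval_X, h2, Finset.mul_sum] at h1
  have h3 : aeval v F = (1 / 2 : ℂ) * aeval v ((2 : ℕ) • F) := by
    simp
  rw [h3, ← h1, Finset.mul_sum]
  refine Finset.sum_congr rfl fun i _ => ?_
  rw [Finset.mul_sum]
  refine Finset.sum_congr rfl fun j _ => ?_
  push_cast
  ring

end Pool.Agent.Lib.MP_eea824_ag.Cu
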