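import Pool.Agent.Lib.MP_eea824_ag.Cu1

/-! A hyperbolic cubic in six variables with a symmetry of order five. -/

namespace Pool.Agent.Lib.MP_eea824_ag.Cu

open MvPolynomial Complex Gar

/-- the invariant cubic Re (w1 ^ 2 * conj w2 + w1 * w2 ^ 2), w1 = a + i b, w2 = c + i d -/
def cc {R : Type*} [CommRing R] (a b c d : R) : R :=
  (a * a - b * b) * c + 2 * (a * b * d) + a * (c * c - d * d) - 2 * (b * c * d)

/-- the cubic form -/
def hh {R : Type*} [CommRing R] (t x a b c d : R) : R :=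
  (t + x) * (t + 2 * x) * (t + 3 * x) - (t + x) * ((a * a + b * b) + 25 * (c * c + d * d))
    - (t + 3 * x) * (25 * (a * a + b * b) + (c * c + d * d)) + 50 * cc a b c d

theorem quad_nonneg {A B C x : ℝ} (hA : 0 ≤ A) (hB : 0 ≤ B) (h : C ^ 2 ≤ 4 * (A * B)) :
    0 ≤ A * x ^ 2 - C * x + B := by
  rcases hA.eq_or_lt with h0 | h0
  · subst h0
    have : C = 0 := by nlinarith [sq_nonneg C]
    subst this
    simpa using hB
  · by_contra hh
    push Not at hh
    nlinarith [sq_nonneg (2 * A * x - C), mul_pos h0 (neg_pos.mpr hh)]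

theorem stab3 (D1 D2 D3 : ℂ) (h1 : 0 < D1.im) (h2 : 0 < D2.im) (h3 : 0 < D3.im) (Q1 Q2 Q3 C : ℝ)
    (q1 : 0 ≤ Q1) (q2 : 0 ≤ Q2) (q3 : 0 ≤ Q3) (h : C ^ 2 ≤ 4 * (Q1 * Q2 * Q3)) :
    D1 * D2 * D3 - Q1 * D1 - Q2 * D2 - Q3 * D3 + C ≠ 0 := by
  intro he
  have e : D3 * ((D1 * D2 - Q3) * (starRingEnd ℂ) (D1 * D2 - Q3)) =
      (Q1 * D1 + Q2 * D2 - C) * (starRingEnd ℂ) (D1 * D2 - Q3) := by
    linear_combination (starRingEnd ℂ) (D1 * D2 - Q3) * he
  rw [mul_conj] at e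
  have e2 := congrArg Complex.im e
  have n1 := quad_nonneg (x := D1.re) q1 (mul_nonneg q2 q3) (C := C) (by linarith)
  have n2 := quad_nonneg (x := D2.re) q2 (mul_nonneg q1 q3) (C := C) (by linarith)
  have e3 : D3.im * normSq (D1 * D2 - Q3) = -(D2.im * (Q1 * D1.re ^ 2 - C * D1.re + Q2 * Q3)) -
      D1.im * (Q2 * D2.re ^ 2 - C * D2.re + Q1 * Q3) - Q1 * D1.im ^ 2 * D2.im -
        Q2 * D2.im ^ 2 * D1.im := by
    simp only [mul_im, ofReal_re, ofReal_im, sub_re, sub_im, add_re, add_im, mul_re, conj_re,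
      conj_im] at e2
    linear_combination e2
  have n3 : 0 ≤ Q1 * D1.im ^ 2 * D2.im := by positivity
  have n4 : 0 ≤ Q2 * D2.im ^ 2 * D1.im := by positivity
  have n5 : D3.im * normSq (D1 * D2 - Q3) ≤ 0 := by
    rw [e3]
    nlinarith [mul_nonneg h2.le n1, mul_nonneg h1.le n2]
  have n6 : normSq (D1 * D2 - Q3) = 0 := by
    have := normSq_nonneg (D1 * D2 - Q3)
    nlinarith
  have n7 := normSq_eq_zero.mp n6
  have r1 := congrArg Complex.re n7
  have r2 := congrArg Complex.im n7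
  simp only [sub_re, mul_re, ofReal_re, zero_re, sub_im, mul_im, ofReal_im, zero_im] at r1 r2
  have k : D2.im * (D1.re * D2.re) = -(D1.im * D2.re ^ 2) := by linear_combination D2.re * r2
  nlinarith [mul_pos h1 h2, mul_pos h2 (mul_pos h1 h2), mul_nonneg h1.le (sq_nonneg D2.re),
    mul_nonneg h2.le q3]

theorem key_ineq {a b C : ℝ} (hb : 0 ≤ b) (hab : b ≤ a) (h : |C| ≤ a ^ 2 * b + a * b ^ 2) :
    (50 * C) ^ 2 ≤ (a ^ 2 + 25 * b ^ 2) ^ 2 * (49 * a ^ 2 - 23 * b ^ 2) := by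
  have ha : 0 ≤ a := hb.trans hab
  have h1 : 50 * (a ^ 2 * b + a * b ^ 2) ≤ (a ^ 2 + 25 * b ^ 2) * (7 * a - 2 * b) := by
    nlinarith [mul_nonneg (sub_nonneg.mpr hab) (sq_nonneg (a - 4 * b)),
      mul_nonneg ha (sq_nonneg (a - 4 * b)), mul_nonneg ha (mul_nonneg ha ha),
      mul_nonneg ha (mul_nonneg ha hb), mul_nonneg ha (mul_nonneg hb hb)]
  have h2 : (50 * C) ^ 2 ≤ ((a ^ 2 + 25 * b ^ 2) * (7 * a - 2 * b)) ^ 2 := by
    apply sq_le_sq'
    · linarith [neg_abs_le C]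
    · linarith [le_abs_self C]
  have h3 : (7 * a - 2 * b) ^ 2 ≤ 49 * a ^ 2 - 23 * b ^ 2 := by
    nlinarith [mul_nonneg hb (sub_nonneg.mpr hab), mul_nonneg hb hb]
  calc _ ≤ _ := h2
    _ = (a ^ 2 + 25 * b ^ 2) ^ 2 * (7 * a - 2 * b) ^ 2 := by ring
    _ ≤ _ := mul_le_mul_of_nonneg_left h3 (by positivity)

theorem point (a b c d : ℝ) : ∃ s : ℝ, 0 ≤ s ∧ s ≤ (a * a + b * b) + 25 * (c * c + d * d) ∧
    s ≤ 25 * (a * a + b * b) + (c * c + d * d) ∧
    (50 * cc a b c d) ^ 2 ≤ 4 * (((a * a + b * b) + 25 * (c * c + d * d) - s) * (2 * s) *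
      (25 * (a * a + b * b) + (c * c + d * d) - s)) := by
  obtain ⟨x, hx0, hx⟩ : ∃ x : ℝ, 0 ≤ x ∧ x ^ 2 = a * a + b * b :=
    ⟨√(a * a + b * b), Real.sqrt_nonneg _, Real.sq_sqrt (by nlinarith)⟩
  obtain ⟨y, hy0, hy⟩ : ∃ y : ℝ, 0 ≤ y ∧ y ^ 2 = c * c + d * d :=
    ⟨√(c * c + d * d), Real.sqrt_nonneg _, Real.sq_sqrt (by nlinarith)⟩
  have t1 : |(a * a - b * b) * c + 2 * (a * b * d)| ≤ x ^ 2 * y := by
    apply abs_le_of_sq_le_sq _ (by positivity)
    rw [mul_pow, hx, hy]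
    nlinarith [sq_nonneg (2 * (a * b * c) - (a * a - b * b) * d)]
  have t2 : |a * (c * c - d * d) - 2 * (b * c * d)| ≤ x * y ^ 2 := by
    apply abs_le_of_sq_le_sq _ (by positivity)
    rw [mul_pow, hx, hy]
    nlinarith [sq_nonneg (b * (c * c - d * d) + 2 * (a * c * d))]
  have t3 : |cc a b c d| ≤ x ^ 2 * y + x * y ^ 2 := by
    have := abs_add_le ((a * a - b * b) * c + 2 * (a * b * d)) (a * (c * c - d * d) - 2 * (b * c * d))
    have e : cc a b c d = ((a * a - b * b) * c + 2 * (a * b * d)) +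
      (a * (c * c - d * d) - 2 * (b * c * d)) := by
      unfold cc
      ring
    rw [e]
    linarith
  rw [← hx, ← hy]
  rcases le_total y x with h | h
  · have k := key_ineq hy0 h t3
    have : y ^ 2 ≤ x ^ 2 := by gcongr
    refine ⟨(x ^ 2 + 25 * y ^ 2) / 2, by positivity, by nlinarith, by nlinarith, ?_⟩
    calc _ ≤ _ := k
      _ = _ := by ring
  · have k := key_ineq hx0 h (C := cc a b c d) (by linarith)
    have : x ^ 2 ≤ y ^ 2 := by gcongr
    refine ⟨(y ^ 2 + 25 * x ^ 2) / 2, by positivity, by nlinarith, by nlinarith, ?_⟩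
    calc _ ≤ _ := k
      _ = _ := by ring

theorem hh_ne (t : ℂ) (ht : t.im ≠ 0) (x a b c d : ℝ) : hh t x a b c d ≠ 0 := by
  obtain ⟨s, s0, s1, s3, h⟩ := point a b c d
  rcases lt_or_gt_of_ne ht with h' | h'
  · have := stab3 (-(t + x)) (-(t + 2 * x)) (-(t + 3 * x)) (by simpa using h') (by simpa using h')
      (by simpa using h') _ (2 * s) _ (-(50 * cc a b c d)) (sub_nonneg.mpr s1) (by positivity)
      (sub_nonneg.mpr s3) (by rw [neg_sq]; exact h)
    intro he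
    apply this
    simp only [hh, cc] at he ⊢
    push_cast
    linear_combination -he
  · have := stab3 (t + x) (t + 2 * x) (t + 3 * x) (by simpa using h') (by simpa using h')
      (by simpa using h') _ (2 * s) _ (50 * cc a b c d) (sub_nonneg.mpr s1) (by positivity)
      (sub_nonneg.mpr s3) h
    intro he
    apply this
    simp only [hh, cc] at he ⊢
    push_cast
    linear_combination he

end Pool.Agent.Lib.MP_eea824_ag.Cu
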