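import Pool.Agent.Lib.MP_eea824_ag.Cu2

/-! No real zero polynomial in six variables has the two prescribed restrictions. -/

namespace Pool.Agent.Lib.MP_eea824_ag.Cu

open MvPolynomial Complex Gar

theorem im_div {g h : ℂ} (H : (g / h).im ≤ 0) : g.im * h.re - g.re * h.im ≤ 0 := by
  rcases (normSq_nonneg h).eq_or_lt with h0 | h0
  · have := normSq_eq_zero.mp h0.symm
    subst this
    simp
  · rw [Complex.div_im, ← sub_div, div_nonpos_iff] at H
    rcases H with H | H
    · exact absurd H.2 (not_le.mpr h0)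
    · exact H.1

theorem five : ∃ a b c d : ℝ, c = -a - 1 / 2 ∧ a * c = -1 / 4 ∧ a * a + b * b = 1 ∧
    c * c + d * d = 1 ∧ b * b + d * d = 5 / 4 ∧ cc a b c d = 2 ∧ cc c d a (-b) = 2 ∧
    cc c (-d) a b = 2 ∧ cc a (-b) c (-d) = 2 := by
  obtain ⟨s, hs0, hs⟩ : ∃ s : ℝ, 0 ≤ s ∧ s ^ 2 = 5 := ⟨√5, Real.sqrt_nonneg _, Real.sq_sqrt (by norm_num)⟩
  obtain ⟨a, ha, ha1⟩ : ∃ a : ℝ, 4 * a ^ 2 + 2 * a - 1 = 0 ∧ 0 ≤ 1 - a ^ 2 :=
    ⟨(s - 1) / 4, by nlinarith, by nlinarith⟩
  obtain ⟨b, hb⟩ : ∃ b : ℝ, b ^ 2 = 1 - a ^ 2 := ⟨√(1 - a ^ 2), Real.sq_sqrt ha1⟩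
  refine ⟨a, b, -a - 1 / 2, 2 * a * b, rfl, ?_, ?_, ?_, ?_, ?_, ?_, ?_, ?_⟩ <;> (try unfold cc) <;> grind

theorem last (l1 l2 l3 l4 m1 m2 m3 m4 q1 q2 q3 q4 q12 q13 q14 q23 q24 q34 : ℝ)
    (h : ∀ t x a b c d : ℝ, ((((t + I / 10) + x) * ((t + I / 10) + 3 * x) +
      (t + I / 10) * ((l1 * a + l2 * b + l3 * c + l4 * d : ℝ) : ℂ) +
      ((x * (m1 * a + m2 * b + m3 * c + m4 * d) + (q1 * (a * a) + q2 * (b * b) + q3 * (c * c) +
        q4 * (d * d) + q12 * (a * b) + q13 * (a * c) + q14 * (a * d) + q23 * (b * c) +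
        q24 * (b * d) + q34 * (c * d)) : ℝ) : ℂ)) / hh (t + I / 10) x a b c d).im ≤ 0) : False := by
  obtain ⟨a, b, c, d, e1, e2, e3, e4, e5, c1, c2, c3, c4⟩ := five
  have hv : ∀ a b c d : ℝ, a * a + b * b = 1 → c * c + d * d = 1 → cc a b c d = 2 →
      hh (((2 : ℝ) : ℂ) + I / 10) ((0 : ℝ) : ℂ) a b c d = (2 + I / 10) ^ 3 - 52 * (2 + I / 10) + 100 := by
    intro a b c d h1 h2 h3
    have h1' : (a : ℂ) * a + b * b = 1 := by exact_mod_cast h1
    have h2' : (c : ℂ) * c + d * d = 1 := by exact_mod_cast h2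
    have h3' : cc (a : ℂ) b c d = 2 := by
      unfold cc at h3 ⊢
      exact_mod_cast h3
    unfold hh
    rw [h1', h2', h3']
    push_cast
    ring
  have k0 := h 2 0 1 0 1 0
  have k1 := h 2 0 a b c d
  have k2 := h 2 0 c d a (-b)
  have k3 := h 2 0 c (-d) a b
  have k4 := h 2 0 a (-b) c (-d)
  rw [hv _ _ _ _ (by norm_num) (by norm_num) (by norm_num [cc])] at k0
  rw [hv _ _ _ _ e3 e4 c1] at k1
  rw [hv _ _ _ _ e4 (by linarith) c2] at k2
  rw [hv _ _ _ _ (by linarith) e3 c3] at k3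
  rw [hv _ _ _ _ (by linarith) (by linarith) c4] at k4
  have a1 := im_div (h 60 (-20) 1 0 0 0)
  have a2 := im_div (h 60 (-20) (-1) 0 0 0)
  have a3 := im_div (h 60 (-20) 0 1 0 0)
  have a4 := im_div (h 60 (-20) 0 (-1) 0 0)
  have b1 := im_div (h (-20) 20 0 0 1 0)
  have b2 := im_div (h (-20) 20 0 0 (-1) 0)
  have b3 := im_div (h (-20) 20 0 0 0 1)
  have b4 := im_div (h (-20) 20 0 0 0 (-1))
  replace k0 := im_div k0
  replace k1 := im_div k1
  replace k2 := im_div k2
  replace k3 := im_div k3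
  replace k4 := im_div k4
  simp [hh, cc, pow_succ] at a1 a2 a3 a4 b1 b2 b3 b4 k0 k1 k2 k3 k4
  have e6 : a * a + c * c = 3 / 4 := by linarith
  have e7 : a + c = -1 / 2 := by linarith
  have f1 := congrArg (l1 * ·) e7
  have f2 := congrArg (l3 * ·) e7
  have f3 := congrArg (q1 * ·) e6
  have f4 := congrArg (q3 * ·) e6
  have f5 := congrArg (q2 * ·) e5
  have f6 := congrArg (q4 * ·) e5
  have f7 := congrArg (q13 * ·) e2
  linarith

/-- the point (t, x, a, b, c, d, z) -/
def pt {R : Type*} (t x a b c d z : R) : Option (Fin 6) → R := fun o => o.elim t ![x, a, b, c, d, z]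

theorem core (r : MvPolynomial (Fin 6) ℝ) (hr : RZ r)
    (hp : ∀ v : Fin 6 → ℂ, v 5 = 0 → aeval v r = hh 1 (v 0) (v 1) (v 2) (v 3) (v 4))
    (hq : ∀ v : Fin 6 → ℂ, v 1 = 0 → v 2 = 0 → v 3 = 0 → v 4 = 0 →
      aeval v r = (1 + v 0) * (1 + 2 * v 0 + v 5) * (1 + 3 * v 0)) : False := by
  have hp' : ∀ v : Fin 6 → ℝ, v 5 = 0 → eval v r = hh 1 (v 0) (v 1) (v 2) (v 3) (v 4) := by
    intro v hv
    have := hp (cx v) (by simp [cx, hv])
    rw [aeval_cx] at this
    simp only [cx, hh, cc] at this ⊢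
    exact_mod_cast this
  have hq' : ∀ v : Fin 6 → ℝ, v 1 = 0 → v 2 = 0 → v 3 = 0 → v 4 = 0 →
      eval v r = (1 + v 0) * (1 + 2 * v 0 + v 5) * (1 + 3 * v 0) := by
    intro v h1 h2 h3 h4
    have := hq (cx v) (by simp [cx, h1]) (by simp [cx, h2]) (by simp [cx, h3]) (by simp [cx, h4])
    rw [aeval_cx] at this
    simp only [cx] at this
    exact_mod_cast this
  have pos : ∀ (i : Fin 6) (s t : ℝ), s * s = 1 → 0 < t →
      eval (t • ((Pi.single 0 5 : Fin 6 → ℝ) + s • Pi.single i 1)) r ≠ 0 := by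
    intro i s t hs ht
    have hs1 : -1 ≤ s := by nlinarith
    have t2 := mul_pos ht ht
    have t3 := mul_pos ht t2
    have s2 : t * s * (t * s) = t * t := by linear_combination t * t * hs
    have s3 : 0 ≤ t * (s + 1) := mul_nonneg ht.le (by linarith)
    apply ne_of_gt
    fin_cases i
    · rw [hq' _ (by simp) (by simp) (by simp) (by simp)]
      simp only [Fin.isValue, Fin.zero_eta, Pi.smul_apply, Pi.add_apply, Pi.single_eq_same]
      simp
      have : 0 < t * (5 + s) := by nlinarith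
      positivity
    · rw [hp' _ (by simp)]
      simp [hh, cc]
      rw [s2]
      nlinarith
    · rw [hp' _ (by simp)]
      simp [hh, cc]
      rw [s2]
      nlinarith
    · rw [hp' _ (by simp)]
      simp [hh, cc]
      rw [s2]
      nlinarith
    · rw [hp' _ (by simp)]
      simp [hh, cc]
      rw [s2]
      nlinarith
    · rw [hq' _ (by simp) (by simp) (by simp) (by simp)]
      simp
      have : 0 < 1 + 2 * (t * 5) + t * s := by nlinarith
      positivity
  have hD : r.totalDegree ≤ 3 := by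
    refine collapse r hr (Pi.single 0 5) 3 (fun i t ht => ?_) (fun i t ht => ?_) 1056
      (fun t ht => ?_)
    · simpa using pos i 1 t (by norm_num) ht
    · simpa [sub_eq_add_neg] using pos i (-1) t (by norm_num) ht
    · rw [hq' _ (by simp) (by simp) (by simp) (by simp)]
      simp only [Pi.smul_apply, Pi.single_eq_same, smul_eq_mul]
      rw [Pi.single_eq_of_ne (by decide), abs_of_pos (by positivity)]
      have t2 : t ≤ t * t := by nlinarith
      have t3 : t * t ≤ t * (t * t) := by nlinarith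
      nlinarith
  have F1 : ∀ t x a b c d : ℂ, t ≠ 0 → aeval (pt t x a b c d 0) (hg r 3) = hh t x a b c d := by
    intro t x a b c d ht
    rw [hg_div r hD _ (by simpa [pt] using ht), hp _ (by simp [pt])]
    simp [pt, hh, cc]
    field_simp
  have F2 : ∀ t x z : ℂ, t ≠ 0 →
      aeval (pt t x 0 0 0 0 z) (hg r 3) = (t + x) * (t + 2 * x + z) * (t + 3 * x) := by
    intro t x z ht
    rw [hg_div r hD _ (by simpa [pt] using ht),
      hq _ (by simp [pt]) (by simp [pt]) (by simp [pt]) (by simp [pt])]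
    simp [pt]
    field_simp
  have hw := hy_hg r hr hD
  have hE : Pi.single (some 5) 1 ∈ Cl (fun z : Option (Fin 6) → ℂ => aeval z (hg r 3)) o1 := by
    intro t ht
    have e : cx (Pi.single (some 5) 1 + t • o1 : Option (Fin 6) → ℝ) = pt (t : ℂ) 0 0 0 0 0 1 := by
      funext o
      rcases o with _ | i
      · simp [cx, pt, o1]
      · fin_cases i <;> simp [cx, pt, o1]
    have h0 : (t : ℂ) ≠ 0 := by exact_mod_cast ht.ne'
    have h1 : (t : ℂ) + 1 ≠ 0 := by exact_mod_cast (by positivity : t + 1 ≠ 0)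
    simp only
    rw [e, F2 _ _ _ h0]
    simp [h0, h1]
  obtain ⟨M, hM⟩ := quad _ ((hg_hom r 3).pderiv (i := some 5))
  have g0 : ∀ t x : ℂ, t ≠ 0 →
      aeval (pt t x 0 0 0 0 0) (pderiv (some 5) (hg r 3)) = (t + x) * (t + 3 * x) := by
    intro t x ht
    have h1 := hasD (hg r 3) (pt t x 0 0 0 0 0) (some 5)
    have e : (fun s : ℂ => aeval (pt t x 0 0 0 0 0 + s • cx (Pi.single (some 5) 1)) (hg r 3)) =
        fun s => (t + x) * (t + 2 * x + s) * (t + 3 * x) := by
      funext s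
      rw [← F2 t x s ht]
      congr 2
      funext o
      rcases o with _ | i
      · simp [cx, pt]
      · fin_cases i <;> simp [cx, pt]
    rw [e] at h1
    have h2 : HasDerivAt (fun s : ℂ => (t + x) * (t + 2 * x + s) * (t + 3 * x))
        ((t + x) * 1 * (t + 3 * x)) 0 :=
      (((hasDerivAt_id' (0 : ℂ)).const_add (t + 2 * x)).const_mul (t + x)).mul_const (t + 3 * x)
    rw [h1.unique h2, mul_one]
  let S : Option (Fin 6) → Option (Fin 6) → ℝ := fun i j => M i j + M j i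
  refine last (S none (some 1)) (S none (some 2)) (S none (some 3)) (S none (some 4))
    (S (some 0) (some 1)) (S (some 0) (some 2)) (S (some 0) (some 3)) (S (some 0) (some 4))
    (M (some 1) (some 1)) (M (some 2) (some 2)) (M (some 3) (some 3)) (M (some 4) (some 4))
    (S (some 1) (some 2)) (S (some 1) (some 3)) (S (some 1) (some 4)) (S (some 2) (some 3))
    (S (some 2) (some 4)) (S (some 3) (some 4)) fun t x a b c d => ?_
  have ht : (t : ℂ) + I / 10 ≠ 0 := by
    intro h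
    have := congrArg Complex.im h
    simp at this
  have k := interl _ 3 (hg_hom r 3) o1 hw (some 5) hE (pt t x a b c d 0) (1 / 10) (by norm_num)
  have e : cx (pt t x a b c d 0) + I • cx ((1 / 10 : ℝ) • o1) =
      pt ((t : ℂ) + I / 10) x a b c d 0 := by
    funext o
    rcases o with _ | i
    · simp [cx, pt, o1]
      ring
    · fin_cases i <;> simp [cx, pt, o1]
  rw [e, F1 _ _ _ _ _ _ ht] at k
  rw [← g0 _ _ ht]
  convert k using 3
  simp only [hM, Fintype.sum_option, Fin.sum_univ_six, pt, S]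
  simp
  ring

end Pool.Agent.Lib.MP_eea824_ag.Cu
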