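import Pool.Agent.Lib.MP_eea824_ag.Defs

/-! A hyperbolic cubic in six variables with nine nodes and no cubic amalgam over a pencil. -/

namespace Pool.Agent.Lib.MP_eea824_ag.Cub91

open MvPolynomial

/-- the cubic form -/
def P8 {R : Type*} [CommRing R] (m a b A B c : R) : R :=
  8 * (m * A * B + 2 * a * b * c - m * c ^ 2 - A * b ^ 2 - B * a ^ 2) +
    8 * (A ^ 2 - a ^ 2) * (m - A) + (B ^ 2 - b ^ 2) * (m - B)

/-- a real cubic with all complex roots real splits over the reals -/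
lemma split3 (d3 d2 d1 d0 : ℝ) (h3 : d3 ≠ 0)
    (h : ∀ z : ℂ, (d3 : ℂ) * z ^ 3 + d2 * z ^ 2 + d1 * z + d0 = 0 → z.im = 0) :
    d0 * d2 * 3 ≤ d1 ^ 2 := by
  let Q : Cubic ℂ := ⟨d3, d2, d1, d0⟩
  have ha : Q.a ≠ 0 := by simpa [Q] using h3
  have hs : (Q.toPoly.map (RingHom.id ℂ)).Splits := IsAlgClosed.splits _
  obtain ⟨x, y, z, hr⟩ := (Cubic.splits_iff_roots_eq_three ha).1 hs
  have hb := Cubic.b_eq_three_roots ha hr
  have hc := Cubic.c_eq_three_roots ha hr
  have hd := Cubic.d_eq_three_roots ha hr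
  simp only [Q, RingHom.id_apply] at hb hc hd
  have hx : x.im = 0 := h x (by rw [hb, hc, hd]; ring)
  have hy : y.im = 0 := h y (by rw [hb, hc, hd]; ring)
  have hz : z.im = 0 := h z (by rw [hb, hc, hd]; ring)
  obtain ⟨x, rfl⟩ : ∃ t : ℝ, x = t := ⟨x.re, Complex.ext rfl (by simpa using hx)⟩
  obtain ⟨y, rfl⟩ : ∃ t : ℝ, y = t := ⟨y.re, Complex.ext rfl (by simpa using hy)⟩
  obtain ⟨z, rfl⟩ : ∃ t : ℝ, z = t := ⟨z.re, Complex.ext rfl (by simpa using hz)⟩
  have hb' : d2 = d3 * -(x + y + z) := by exact_mod_cast hb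
  have hc' : d1 = d3 * (x * y + x * z + y * z) := by exact_mod_cast hc
  have hd' : d0 = d3 * -(x * y * z) := by exact_mod_cast hd
  rw [hb', hc', hd']
  nlinarith [sq_nonneg (d3 * (x * y - x * z)), sq_nonneg (d3 * (x * y - y * z)),
    sq_nonneg (d3 * (x * z - y * z))]

/-- a sign change in the wrong direction forces three real roots -/
lemma real3 (d3 d2 d1 d0 s t : ℝ) (h3 : 0 < d3) (hst : s < t)
    (hs : 0 ≤ d3 * s ^ 3 + d2 * s ^ 2 + d1 * s + d0)
    (ht : d3 * t ^ 3 + d2 * t ^ 2 + d1 * t + d0 ≤ 0)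
    (z : ℂ) (hz : (d3 : ℂ) * z ^ 3 + d2 * z ^ 2 + d1 * z + d0 = 0) : z.im = 0 := by
  by_contra hi
  have hre := congrArg Complex.re hz
  have him := congrArg Complex.im hz
  simp [pow_succ] at hre him
  set x := z.re
  set y := z.im
  have h1 : d1 = -(d3 * (3 * x ^ 2 - y ^ 2) + 2 * d2 * x) := by
    have : y * (d1 + (d3 * (3 * x ^ 2 - y ^ 2) + 2 * d2 * x)) = 0 := by linear_combination him
    rcases mul_eq_zero.1 this with h | h
    · exact absurd h hi
    · linarith
  have key : ∀ u : ℝ, d3 * u ^ 3 + d2 * u ^ 2 + d1 * u + d0 =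
      (d3 * u + (d2 + 2 * d3 * x)) * ((u - x) ^ 2 + y ^ 2) := by
    intro u
    have h0 : d0 = -(d3 * (x ^ 3 - 3 * x * y ^ 2) + d2 * (x ^ 2 - y ^ 2) + d1 * x) := by
      linear_combination hre
    rw [h0, h1]; ring
  have hy : 0 < y ^ 2 := by positivity
  rw [key] at hs ht
  have a1 : 0 ≤ d3 * s + (d2 + 2 * d3 * x) :=
    nonneg_of_mul_nonneg_left hs (by positivity)
  have a2 : d3 * t + (d2 + 2 * d3 * x) ≤ 0 := by
    by_contra hh
    have : 0 < (d3 * t + (d2 + 2 * d3 * x)) * ((t - x) ^ 2 + y ^ 2) :=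
      mul_pos (not_le.1 hh) (by positivity)
    linarith
  nlinarith

/-- eight times the derivative at the node -/
noncomputable def g8 (m a b A B c : ℝ) : ℝ :=
  16 * (A - a + B / 2) * (m - A + B) - 7 * B ^ 2 - b ^ 2 - 8 * (b - c) ^ 2

lemma sgn (m a b A B c : ℝ) (hg : g8 m a b A B c = 0) : P8 m a b A B c * (m - A + B) ≤ 0 := by
  obtain ⟨D, rfl⟩ : ∃ D, m = D + A := ⟨m - A, by ring⟩
  obtain ⟨K, hK⟩ : ∃ K, K = (B ^ 2 - b ^ 2) / 8 := ⟨_, rfl⟩
  obtain ⟨y, hy⟩ : ∃ y, y = B ^ 2 - 7 * K - c ^ 2 := ⟨_, rfl⟩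
  obtain ⟨al, hal⟩ : ∃ al, al = B ^ 2 / 2 + b ^ 2 / 2 + 4 * c ^ 2 := ⟨_, rfl⟩
  have e1 : g8 (D + A) a b A B c * g8 (D + A) (-a) b A B (-c) -
      32 * (P8 (D + A) a b A B c * (D + A - A + B)) =
      64 * (al * D ^ 2 + 2 * B * D * (2 * K - y) + y ^ 2 + 32 * K ^ 2) := by
    rw [hal, hy, hK]; unfold g8 P8; ring
  have e2 : al * (al * D ^ 2 + 2 * B * D * (2 * K - y) + y ^ 2 + 32 * K ^ 2) =
      (al * D + B * (2 * K - y)) ^ 2 + K ^ 2 * (31 * B ^ 2 + 81 * b ^ 2) / 2 +
        99 * c ^ 2 * K ^ 2 + c ^ 2 * (2 * y + K) ^ 2 := by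
    rw [hal, hy, hK]; ring
  have e3 : 0 ≤ al * D ^ 2 + 2 * B * D * (2 * K - y) + y ^ 2 + 32 * K ^ 2 := by
    have h0 : 0 ≤ al := by rw [hal]; positivity
    rcases h0.eq_or_lt with h | h
    · have hB : B = 0 := by nlinarith [sq_nonneg B, sq_nonneg b, sq_nonneg c]
      have : 0 ≤ y ^ 2 + 32 * K ^ 2 := by positivity
      rw [← h, hB]; linarith
    · refine nonneg_of_mul_nonneg_right ?_ h
      rw [e2]; positivity
  rw [hg] at e1
  linarith

/-- hyperbolicity in direction (1,0,0,1,2,0) -/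
lemma hyp (m a b A B c : ℝ) (z : ℂ)
    (hz : P8 (z + m) (a : ℂ) b (z + A) (2 * z + B) c = 0) : z.im = 0 := by
  obtain ⟨d2, d1, hd⟩ : ∃ d2 d1 : ℝ, (∀ u : ℝ, P8 (u + m) a b (u + A) (2 * u + B) c =
      12 * u ^ 3 + d2 * u ^ 2 + d1 * u + P8 m a b A B c) ∧
      P8 (z + m) (a : ℂ) b (z + A) (2 * z + B) c =
        ((12 : ℝ) : ℂ) * z ^ 3 + d2 * z ^ 2 + d1 * z + (P8 m a b A B c : ℝ) := by
    refine ⟨28 * m + 8 * A, 32 * m * A + 12 * m * B + 8 * A * B - 16 * A ^ 2 - 5 * B ^ 2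
      - 16 * a ^ 2 - 7 * b ^ 2 - 8 * c ^ 2, fun u => ?_, ?_⟩
    · unfold P8; ring
    · unfold P8; push_cast; ring
  obtain ⟨hd, hd'⟩ := hd
  rw [hd'] at hz
  obtain ⟨u, hu⟩ : ∃ u : ℝ, m - A + B + 2 * u = 0 := ⟨-(m - A + B) / 2, by ring⟩
  obtain ⟨l, hl⟩ : ∃ l : ℝ, l = 32 * (u + A - a + (2 * u + B) / 2) - 28 * (2 * u + B) :=
    ⟨_, rfl⟩
  obtain ⟨k, hk⟩ : ∃ k : ℝ, k = 7 * (2 * u + B) ^ 2 + b ^ 2 + 8 * (b - c) ^ 2 := ⟨_, rfl⟩
  have hg : ∀ s : ℝ, g8 (u + s + m) a b (u + s + A) (2 * (u + s) + B) c =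
      36 * s ^ 2 + l * s - k := by
    intro s
    have : m = A - B - 2 * u := by linarith
    rw [hl, hk, this]; unfold g8; ring
  have hk0 : 0 ≤ k := by rw [hk]; positivity
  rcases hk0.eq_or_lt with h | h
  · have hB : 2 * u + B = 0 := by
      nlinarith [sq_nonneg (2 * u + B), sq_nonneg b, sq_nonneg (b - c)]
    have hb : b = 0 := by nlinarith [sq_nonneg (2 * u + B), sq_nonneg b, sq_nonneg (b - c)]
    have hc : c = 0 := by nlinarith [sq_nonneg (2 * u + B), sq_nonneg b, sq_nonneg (b - c)]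
    have hm : m = A := by linarith
    have hB' : B = -2 * u := by linarith
    rw [← hd', hb, hc, hm, hB'] at hz
    by_contra hi
    have h2 : (z - u) * (12 * (z - u) ^ 2 + 36 * (u + A) * (z - u) +
        16 * (u + A) ^ 2 - 16 * a ^ 2) = 0 := by
      rw [← hz]; unfold P8; push_cast; ring
    rcases mul_eq_zero.1 h2 with h3 | h3
    · have := congrArg Complex.im h3
      simp at this
      exact hi this
    · have hre := congrArg Complex.re h3
      have him := congrArg Complex.im h3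
      simp [pow_succ] at hre him
      have h4 : z.im * (24 * (z.re - u) + 36 * (u + A)) = 0 := by linear_combination him
      have h5 : z.re - u = -(3 / 2) * (u + A) := by
        rcases mul_eq_zero.1 h4 with h | h
        · exact absurd h hi
        · linarith
      rw [h5] at hre
      have : 0 < z.im ^ 2 := by positivity
      nlinarith [sq_nonneg (u + A), sq_nonneg a]
  · obtain ⟨w, hw⟩ : ∃ w : ℝ, w = Real.sqrt (l ^ 2 + 144 * k) := ⟨_, rfl⟩
    have hw2 : w ^ 2 = l ^ 2 + 144 * k := by rw [hw]; exact Real.sq_sqrt (by positivity)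
    have hw0 : 0 ≤ w := by rw [hw]; exact Real.sqrt_nonneg _
    have hl1 : l < w := by nlinarith
    have hl2 : -l < w := by nlinarith
    have s1 := sgn _ _ _ _ _ _ ((hg ((-l - w) / 72)).trans (by linear_combination hw2 / 144))
    have s2 := sgn _ _ _ _ _ _ ((hg ((-l + w) / 72)).trans (by linear_combination hw2 / 144))
    rw [hd] at s1 s2
    refine real3 12 d2 d1 _ (u + (-l - w) / 72) (u + (-l + w) / 72) (by norm_num)
      (by linarith) ?_ ?_ z hz
    · by_contra hh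
      have := mul_pos_of_neg_of_neg (not_le.1 hh)
        (show u + (-l - w) / 72 + m - (u + (-l - w) / 72 + A) + (2 * (u + (-l - w) / 72) + B) < 0
          by linarith)
      linarith
    · by_contra hh
      have := mul_pos (not_le.1 hh)
        (show 0 < u + (-l + w) / 72 + m - (u + (-l + w) / 72 + A) + (2 * (u + (-l + w) / 72) + B)
          by linarith)
      linarith

/-- symmetric trilinear functions -/
structure Tri {W : Type*} [AddCommGroup W] [Module ℝ W] (S : W → W → W → ℝ) : Prop where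
  add : ∀ x x' y z, S (x + x') y z = S x y z + S x' y z
  smul : ∀ (c : ℝ) x y z, S (c • x) y z = c * S x y z
  s12 : ∀ x y z, S x y z = S y x z
  s23 : ∀ x y z, S x y z = S x z y

section core
variable {W : Type*} [AddCommGroup W] [Module ℝ W] {S : W → W → W → ℝ}

lemma Tri.add2 (h : Tri S) (x y y' z : W) : S x (y + y') z = S x y z + S x y' z := by
  rw [h.s12, h.add, h.s12 y, h.s12 y']

lemma Tri.smul2 (h : Tri S) (c : ℝ) (x y z : W) : S x (c • y) z = c * S x y z := by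
  rw [h.s12, h.smul, h.s12 y]

lemma Tri.add3 (h : Tri S) (x y z z' : W) : S x y (z + z') = S x y z + S x y z' := by
  rw [h.s23, h.add2, h.s23 x z, h.s23 x z']

lemma Tri.smul3 (h : Tri S) (c : ℝ) (x y z : W) : S x y (c • z) = c * S x y z := by
  rw [h.s23, h.smul2, h.s23 x z]

lemma Tri.sq (h : Tri S) (t : ℝ) (x y z : W) :
    S (x + t • y) (x + t • y) z = S x x z + 2 * t * S x y z + t ^ 2 * S y y z := by
  simp only [h.add, h.add2, h.smul, h.smul2]
  rw [h.s12 y x z]; ring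

lemma Tri.cube (h : Tri S) (t : ℝ) (x y : W) :
    S (x + t • y) (x + t • y) (x + t • y) =
      S x x x + 3 * t * S x x y + 3 * t ^ 2 * S x y y + t ^ 3 * S y y y := by
  rw [h.add3, h.smul3, h.sq, h.sq, h.s23 x y x, h.s23 y y x, h.s12 y x y]; ring

lemma lin0 (k1 k2 k3 k4 : ℝ) (h : ∀ t : ℝ, 0 ≤ t * k1 + t ^ 2 * k2 + t ^ 3 * k3 + t ^ 4 * k4) :
    k1 = 0 := by
  have hm : IsLocalMin (fun t : ℝ => t * k1 + t ^ 2 * k2 + t ^ 3 * k3 + t ^ 4 * k4) 0 :=
    Filter.Eventually.of_forall fun t => by simpa using h t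
  have hd : HasDerivAt (fun t : ℝ => t * k1 + t ^ 2 * k2 + t ^ 3 * k3 + t ^ 4 * k4) k1 0 := by
    have := ((((hasDerivAt_id (0 : ℝ)).mul_const k1).add ((hasDerivAt_pow 2 (0 : ℝ)).mul_const
      k2)).add ((hasDerivAt_pow 3 (0 : ℝ)).mul_const k3)).add
      ((hasDerivAt_pow 4 (0 : ℝ)).mul_const k4)
    exact HasDerivAt.congr_deriv this (by simp)
  exact hm.hasDerivAt_eq_zero hd

/-- a double root at zero is a singular point -/
lemma Tri.sing (h : Tri S) {e : W} (hN : ∀ x, S x x x * S x e e ≤ S x x e ^ 2) (v : W)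
    (k l : ℝ) (hk : k ≠ 0)
    (hv : ∀ s : ℝ, S (v + s • e) (v + s • e) (v + s • e) = k * s ^ 2 + l * s ^ 3) (w : W) :
    S v v w = 0 := by
  have h0 := hv 0
  have h1 := hv 1
  have h2 := hv (-1)
  have h3 := hv 2
  rw [h.cube] at h0 h1 h2 h3
  have a0 : S v v v = 0 := by linarith
  have a1 : S v v e = 0 := by linarith
  have a2 : S v e e = k / 3 := by linarith
  have := lin0 (-(3 * S v v w * (k / 3)))
    (4 * S v w e ^ 2 - 3 * S v v w * S w e e - 3 * S v w w * (k / 3))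
    (4 * S v w e * S w w e - 3 * S v w w * S w e e - S w w w * (k / 3))
    (S w w e ^ 2 - S w w w * S w e e) fun t => by
      have := hN (v + t • w)
      rw [h.cube, h.sq, h.add, h.smul, a0, a1, a2] at this
      linarith
  have h4 : S v v w * k = 0 := by linarith
  exact (mul_eq_zero.1 h4).resolve_right hk

/-- coordinates -/
def vec (g : Fin 7 → W) (m a b A B c z : ℝ) : W :=
  m • g 0 + a • g 1 + b • g 2 + A • g 3 + B • g 4 + c • g 5 + z • g 6

lemma vec_add (g : Fin 7 → W) (m a b A B c z m' a' b' A' B' c' z' t : ℝ) :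
    vec g m a b A B c z + t • vec g m' a' b' A' B' c' z' =
      vec g (m + t * m') (a + t * a') (b + t * b') (A + t * A') (B + t * B') (c + t * c')
        (z + t * z') := by
  unfold vec; module

theorem core (h : Tri S) (g : Fin 7 → W)
    (hN : ∀ x, S x x x * S x (vec g 1 0 0 1 2 0 0) (vec g 1 0 0 1 2 0 0) ≤
      S x x (vec g 1 0 0 1 2 0 0) ^ 2)
    (hP : ∀ m a b A B c, S (vec g m a b A B c 0) (vec g m a b A B c 0) (vec g m a b A B c 0) =
      P8 m a b A B c)
    (hQ : ∀ s x z, S (vec g (s + x) 0 0 (s + 2 * x) (2 * s) (-2 * x) z)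
      (vec g (s + x) 0 0 (s + 2 * x) (2 * s) (-2 * x) z)
      (vec g (s + x) 0 0 (s + 2 * x) (2 * s) (-2 * x) z) =
        4 * (s + x + z) * (s + 4 * x) * (3 * s - 4 * x)) : False := by
  have hz : ∀ (s x z k : ℝ), k ≠ 0 → (∀ t : ℝ, 4 * (s + t + x + z) * (s + t + 4 * x) *
      (3 * (s + t) - 4 * x) = k * t ^ 2 + 12 * t ^ 3) → ∀ w,
      S (vec g (s + x) 0 0 (s + 2 * x) (2 * s) (-2 * x) z)
        (vec g (s + x) 0 0 (s + 2 * x) (2 * s) (-2 * x) z) w = 0 := by
    intro s x z k hk hh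
    refine h.sing hN _ k 12 hk fun t => ?_
    have e : vec g (s + x + t * 1) (0 + t * 0) (0 + t * 0) (s + 2 * x + t * 1) (2 * s + t * 2)
        (-2 * x + t * 0) (z + t * 0) =
        vec g (s + t + x) 0 0 (s + t + 2 * x) (2 * (s + t)) (-2 * x) z := by
      congr 1 <;> ring
    rw [vec_add, ← hh, ← hQ, e]
  have hn : ∀ (i j k : ℝ), k ≠ 0 → (∀ t : ℝ, P8 (1 + t) i j (i ^ 2 + t) (j ^ 2 + 2 * t) (i * j) =
      k * t ^ 2 + 12 * t ^ 3) → S (vec g 1 i j (i ^ 2) (j ^ 2) (i * j) 0)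
        (vec g 1 i j (i ^ 2) (j ^ 2) (i * j) 0) (g 6) = 0 := by
    intro i j k hk hh
    refine h.sing hN _ k 12 hk (fun t => ?_) _
    have e : vec g (1 + t * 1) (i + t * 0) (j + t * 0) (i ^ 2 + t * 1) (j ^ 2 + t * 2)
        (i * j + t * 0) (0 + t * 0) = vec g (1 + t) i j (i ^ 2 + t) (j ^ 2 + 2 * t) (i * j) 0 := by
      congr 1 <;> ring
    rw [vec_add, ← hh, ← hP, e]
  have z2 := hz 0 0 1 12 (by norm_num) fun t => by ring
  have z1 := hz 4 (-1) (-3) 64 (by norm_num) fun t => by ring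
  have z3 := hz 4 3 (-7) 192 (by norm_num) fun t => by ring
  have n1 := hn 0 0 28 (by norm_num) fun t => by unfold P8; ring
  have n2 := hn 1 0 36 (by norm_num) fun t => by unfold P8; ring
  have n3 := hn (-1) 0 36 (by norm_num) fun t => by unfold P8; ring
  have n4 := hn 0 1 28 (by norm_num) fun t => by unfold P8; ring
  have n5 := hn 0 (-1) 28 (by norm_num) fun t => by unfold P8; ring
  have n6 := hn 1 1 36 (by norm_num) fun t => by unfold P8; ring
  have n7 := hn 1 (-1) 36 (by norm_num) fun t => by unfold P8; ring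
  have n8 := hn (-1) 1 36 (by norm_num) fun t => by unfold P8; ring
  have n9 := hn (-1) (-1) 36 (by norm_num) fun t => by unfold P8; ring
  have e6 : vec g (0 + 0) 0 0 (0 + 2 * 0) (2 * 0) (-2 * 0) 1 = g 6 := by unfold vec; module
  rw [e6] at z2
  have pol : ∀ m A B c m' A' c' : ℝ, 6 * S (vec g m 0 0 A B c 0) (vec g m 0 0 A B c 0)
      (vec g m' 0 0 A' 0 c' 0) = P8 (m + m') 0 0 (A + A') B (c + c') -
        P8 (m - m') 0 0 (A - A') B (c - c') - 2 * P8 m' 0 0 A' 0 c' := by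
    intro m A B c m' A' c'
    have a1 := h.cube 1 (vec g m 0 0 A B c 0) (vec g m' 0 0 A' 0 c' 0)
    have a2 := h.cube (-1) (vec g m 0 0 A B c 0) (vec g m' 0 0 A' 0 c' 0)
    rw [vec_add] at a1 a2
    simp only [mul_zero, add_zero, one_mul, neg_mul, ← sub_eq_add_neg] at a1 a2
    rw [hP, hP, hP] at a1 a2
    linarith
  have cut : ∀ m A B c z : ℝ, ∀ w, S (vec g m 0 0 A B c z) (vec g m 0 0 A B c z) w =
      S (vec g m 0 0 A B c 0) (vec g m 0 0 A B c 0) w +
        2 * z * S (vec g m 0 0 A B c 0) w (g 6) := by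
    intro m A B c z w
    have : vec g m 0 0 A B c z = vec g m 0 0 A B c 0 + z • g 6 := by unfold vec; module
    rw [this, h.sq, z2, h.s23 _ (g 6) w]; ring
  have u1 := z1 (vec g (-1) 0 0 0 0 (-2) 0)
  have u2 := z1 (vec g 0 0 0 1 0 0 0)
  have u3 := z3 (vec g (-1) 0 0 0 0 (-2) 0)
  have u4 := z3 (vec g 0 0 0 1 0 0 0)
  rw [cut] at u1 u2 u3 u4
  have p1 := pol (4 + -1) (4 + 2 * -1) (2 * 4) (-2 * -1) (-1) 0 (-2)
  have p2 := pol (4 + -1) (4 + 2 * -1) (2 * 4) (-2 * -1) 0 1 0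
  have p3 := pol (4 + 3) (4 + 2 * 3) (2 * 4) (-2 * 3) (-1) 0 (-2)
  have p4 := pol (4 + 3) (4 + 2 * 3) (2 * 4) (-2 * 3) 0 1 0
  generalize S (vec g (4 + -1) 0 0 (4 + 2 * -1) (2 * 4) (-2 * -1) 0)
    (vec g (4 + -1) 0 0 (4 + 2 * -1) (2 * 4) (-2 * -1) 0) = T1 at u1 u2 p1 p2
  generalize S (vec g (4 + 3) 0 0 (4 + 2 * 3) (2 * 4) (-2 * 3) 0)
    (vec g (4 + 3) 0 0 (4 + 2 * 3) (2 * 4) (-2 * 3) 0) = T3 at u3 u4 p3 p4
  generalize T1 (vec g (-1) 0 0 0 0 (-2) 0) = t1 at u1 p1
  generalize T1 (vec g 0 0 0 1 0 0 0) = t2 at u2 p2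
  generalize T3 (vec g (-1) 0 0 0 0 (-2) 0) = t3 at u3 p3
  generalize T3 (vec g 0 0 0 1 0 0 0) = t4 at u4 p4
  simp only [vec, h.add, h.add2, h.smul, h.smul2] at n1 n2 n3 n4 n5 n6 n7 n8 n9 u1 u2 u3 u4
  unfold P8 at p1 p2 p3 p4
  have s := fun i j : Fin 7 => h.s12 (g i) (g j) (g 6)
  linarith [s 0 1, s 0 2, s 0 3, s 0 4, s 0 5, s 1 2, s 1 3, s 1 4, s 1 5, s 2 3, s 2 4, s 2 5,
    s 3 4, s 3 5, s 4 5]

end core

/-- homogeneous coordinates -/
def hat {σ : Type*} (w : σ → ℝ) : Option σ → ℝ := fun o => o.elim 1 w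

lemma mono_list {σ : Type*} (n : ℕ) : ∀ m : σ →₀ ℕ, (m.sum fun _ e => e) ≤ n →
    ∃ l : Fin n → Option σ, ∀ w : σ → ℝ, (m.prod fun i e => w i ^ e) = ∏ k, hat w (l k) := by
  induction n with
  | zero =>
    intro m hm
    have : m = 0 := by
      ext i
      have h1 : m i ≤ m.sum fun _ e => e := by
        by_cases hi : i ∈ m.support
        · exact Finset.single_le_sum (f := fun j => m j) (fun _ _ => Nat.zero_le _) hi
        · simp [Finsupp.notMem_support_iff.1 hi]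
      simp only [Finsupp.coe_zero, Pi.zero_apply]; omega
    exact ⟨fun k => k.elim0, fun w => by simp [this]⟩
  | succ n ih =>
    intro m hm
    by_cases h0 : m = 0
    · exact ⟨fun _ => none, fun w => by simp [h0, hat]⟩
    · obtain ⟨i, hi⟩ : ∃ i, m i ≠ 0 := by
        by_contra hh
        exact h0 (Finsupp.ext fun i => by simpa using not_exists.1 hh i)
      obtain ⟨m', rfl⟩ : ∃ m', m = Finsupp.single i 1 + m' :=
        exists_add_of_le (Finsupp.single_le_iff.2 (Nat.one_le_iff_ne_zero.2 hi))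
      rw [Finsupp.sum_add_index' (by simp) (by simp), Finsupp.sum_single_index rfl] at hm
      obtain ⟨l, hl⟩ := ih m' (by omega)
      refine ⟨Fin.cons (some i) l, fun w => ?_⟩
      rw [Finsupp.prod_add_index' (by simp) (by simp [pow_add]), Fin.prod_univ_succ, hl]
      simp [hat]

lemma exTri {σ : Type*} (r : MvPolynomial σ ℝ) (hr : r.totalDegree ≤ 3) :
    ∃ S : (Option σ → ℝ) → (Option σ → ℝ) → (Option σ → ℝ) → ℝ, Tri S ∧
      ∀ w, S (hat w) (hat w) (hat w) = eval w r := by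
  have key : ∀ s : Finset (σ →₀ ℕ), s ⊆ r.support →
      ∃ S : (Option σ → ℝ) → (Option σ → ℝ) → (Option σ → ℝ) → ℝ, Tri S ∧
      ∀ w, S (hat w) (hat w) (hat w) = ∑ m ∈ s, coeff m r * m.prod fun i e => w i ^ e := by
    classical
    intro s
    induction s using Finset.induction_on with
    | empty => exact fun _ => ⟨fun _ _ _ => 0, ⟨by simp, by simp, by simp, by simp⟩, by simp⟩
    | insert m s hm ih =>
      intro hs
      obtain ⟨S, hS, hS'⟩ := ih fun x hx => hs (Finset.mem_insert_of_mem hx)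
      obtain ⟨l, hl⟩ := mono_list 3 m
        ((le_totalDegree (hs (Finset.mem_insert_self m s))).trans hr)
      refine ⟨fun x y z => coeff m r / 6 * (x (l 0) * y (l 1) * z (l 2) + x (l 0) * y (l 2) * z (l 1)
        + x (l 1) * y (l 0) * z (l 2) + x (l 1) * y (l 2) * z (l 0) + x (l 2) * y (l 0) * z (l 1)
        + x (l 2) * y (l 1) * z (l 0)) + S x y z, ⟨?_, ?_, ?_, ?_⟩, fun w => ?_⟩
      · intro x x' y z; simp only [hS.add, Pi.add_apply]; ring
      · intro c x y z; simp only [hS.smul, Pi.smul_apply, smul_eq_mul]; ring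
      · intro x y z; rw [hS.s12 x y z]; ring
      · intro x y z; rw [hS.s23 x y z]; ring
      · rw [Finset.sum_insert hm, hl, ← hS', Fin.prod_univ_three]; ring
  obtain ⟨S, hS, hS'⟩ := key _ subset_rfl
  exact ⟨S, hS, fun w => by rw [hS', eval_eq]; rfl⟩

lemma hat_smul {σ : Type*} (x : Option σ → ℝ) (t : ℝ) :
    hat (fun i => t * x (some i)) = hat 0 + t • (x + (-x none) • hat 0) := by
  funext o; cases o <;> simp [hat]

lemma line {σ A : Type*} [CommRing A] [Algebra ℝ A] (r : MvPolynomial σ ℝ) (a : σ → ℝ) (z : A) :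
    Polynomial.aeval z (aeval (fun i => Polynomial.C (a i) * Polynomial.X) r : Polynomial ℝ) =
      aeval (fun i => z * algebraMap ℝ A (a i)) r := by
  rw [← AlgHom.comp_apply, comp_aeval]
  have : (fun i => Polynomial.aeval z (Polynomial.C (a i) * Polynomial.X : Polynomial ℝ)) =
      fun i => z * algebraMap ℝ A (a i) := by
    funext i
    rw [map_mul, Polynomial.aeval_C, Polynomial.aeval_X, mul_comm]
  rw [this]

lemma newton {σ : Type*} (r : MvPolynomial σ ℝ) (hr : RZ r)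
    {S : (Option σ → ℝ) → (Option σ → ℝ) → (Option σ → ℝ) → ℝ} (h : Tri S)
    (hS : ∀ w, S (hat w) (hat w) (hat w) = eval w r) (x : Option σ → ℝ) :
    S x x x * S x (hat 0) (hat 0) ≤ S x x (hat 0) ^ 2 := by
  obtain ⟨w, hw⟩ : ∃ w, w = x + (-x none) • hat 0 := ⟨_, rfl⟩
  have hx : x = w + x none • hat 0 := by rw [hw]; module
  have hc : ∀ z : ℂ, aeval (fun i => z * (x (some i) : ℂ)) r =
      (S (hat 0) (hat 0) (hat 0) : ℝ) + 3 * z * (S w (hat 0) (hat 0) : ℝ) +
        3 * z ^ 2 * (S w w (hat 0) : ℝ) + z ^ 3 * (S w w w : ℝ) := by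
    intro z
    have e1 : (aeval (fun i => Polynomial.C (x (some i)) * Polynomial.X) r : Polynomial ℝ) =
        Polynomial.C (S (hat 0) (hat 0) (hat 0)) +
          3 * Polynomial.X * Polynomial.C (S w (hat 0) (hat 0)) +
          3 * Polynomial.X ^ 2 * Polynomial.C (S w w (hat 0)) +
          Polynomial.X ^ 3 * Polynomial.C (S w w w) := by
      apply Polynomial.funext
      intro t
      have a1 := hS fun i => t * x (some i)
      rw [hat_smul, ← hw, h.cube, h.s23 _ (hat 0) w, h.s12 (hat 0) w (hat 0), h.s12 (hat 0) w w,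
        h.s23 w (hat 0) w] at a1
      have a2 : Polynomial.aeval t (aeval (fun i => Polynomial.C (x (some i)) * Polynomial.X) r :
          Polynomial ℝ) = eval (fun i => t * x (some i)) r := by
        exact line r (fun i => x (some i)) t
      rw [← Polynomial.coe_aeval_eq_eval, a2, ← a1]
      simp
      ring
    have a3 : Polynomial.aeval z (aeval (fun i => Polynomial.C (x (some i)) * Polynomial.X) r :
        Polynomial ℝ) = aeval (fun i => z * (x (some i) : ℂ)) r := by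
      exact line r (fun i => x (some i)) z
    rw [← a3, e1]
    simp [map_ofNat]
    ring
  have h3 : S (hat 0) (hat 0) (hat 0) ≠ 0 := by
    intro h0
    have := hr 0 Complex.I (by
      have a := hS 0
      rw [h0] at a
      have b : aeval (fun i : σ => Complex.I * (((0 : σ → ℝ) i : ℝ) : ℂ)) r =
          algebraMap ℝ ℂ (eval 0 r) := by
        rw [← coe_aeval_eq_eval]
        simp [aeval_zero']
      rw [b, ← a]; simp)
    simp at this
  have b0 := h.cube (x none) w (hat 0)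
  have b1 := h.sq (x none) w (hat 0) (hat 0)
  have b2 : S (w + x none • hat 0) (hat 0) (hat 0) =
      S w (hat 0) (hat 0) + x none * S (hat 0) (hat 0) (hat 0) := by rw [h.add, h.smul]
  rw [← hx] at b0 b1 b2
  have := split3 _ (3 * S x (hat 0) (hat 0)) (3 * S x x (hat 0)) (S x x x) h3 fun z hz => by
    by_cases hm : z + (x none : ℝ) = 0
    · simpa using congrArg Complex.im hm
    · have a := hr (fun i => x (some i)) (z + (x none : ℝ))⁻¹ (by
        rw [hc]
        rw [b0, b1, b2] at hz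
        push_cast at hz
        field_simp
        linear_combination hz)
      rw [Complex.inv_im, div_eq_zero_iff] at a
      rcases a with a | a
      · simpa using a
      · exact absurd (Complex.normSq_eq_zero.1 a) hm
  linarith

lemma deg3 {σ : Type*} {f g k : MvPolynomial σ ℝ} (hf : f.totalDegree ≤ 1)
    (hg : g.totalDegree ≤ 1) (hk : k.totalDegree ≤ 1) :
    f * g * k ∈ restrictTotalDegree σ ℝ 3 := by
  rw [mem_restrictTotalDegree]
  have := totalDegree_mul (f * g) k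
  have := totalDegree_mul f g
  omega

lemma deg1 {σ : Type*} (c a b : ℝ) (i j : σ) :
    (C c + C a * X i + C b * X j : MvPolynomial σ ℝ).totalDegree ≤ 1 := by
  have h : ∀ (a : ℝ) (i : σ), (C a * X i : MvPolynomial σ ℝ).totalDegree ≤ 1 := fun a i =>
    (totalDegree_mul _ _).trans (by simp)
  refine (totalDegree_add _ _).trans (max_le ((totalDegree_add _ _).trans (max_le ?_ ?_)) ?_)
  · simp
  · exact h _ _
  · exact h _ _

lemma degP {σ : Type*} {m a b A B c : MvPolynomial σ ℝ} (hm : m.totalDegree ≤ 1)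
    (ha : a.totalDegree ≤ 1) (hb : b.totalDegree ≤ 1) (hA : A.totalDegree ≤ 1)
    (hB : B.totalDegree ≤ 1) (hc : c.totalDegree ≤ 1) : (P8 m a b A B c).totalDegree ≤ 3 := by
  have e : P8 m a b A B c = (8 : ℝ) • (m * A * B + a * b * c + a * b * c - m * c * c - A * b * b
      - B * a * a + A * A * m - A * A * A - a * a * m + a * a * A) +
      (B * B * m - B * B * B - b * b * m + b * b * B) := by
    simp only [smul_eq_C_mul, map_ofNat]; unfold P8; ring
  rw [← mem_restrictTotalDegree, e]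
  refine add_mem (Submodule.smul_mem _ _ ?_) ?_ <;>
    apply_rules (maxDepth := 60) [add_mem, sub_mem, deg3]

/-- the first polynomial, variables x and y0..y3 -/
noncomputable def pp : MvPolynomial (Fin 1 ⊕ Fin 4) ℝ :=
  P8 (1 + X (.inl 0) + X (.inr 2)) (X (.inr 0)) (X (.inr 1)) (1 + 2 * X (.inl 0))
    (2 + X (.inr 3)) (-2 * X (.inl 0))

/-- the second polynomial, variables x and z -/
noncomputable def qq : MvPolynomial (Fin 1 ⊕ Fin 1) ℝ :=
  4 * (1 + X (.inl 0) + X (.inr 0)) * (1 + 4 * X (.inl 0)) * (3 - 4 * X (.inl 0))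

lemma map_P8 {R T F : Type*} [CommRing R] [CommRing T] [FunLike F R T] [RingHomClass F R T]
    (f : F) (m a b A B c : R) :
    f (P8 m a b A B c) = P8 (f m) (f a) (f b) (f A) (f B) (f c) := by
  simp [P8, map_ofNat]

lemma rz_pp : RZ pp := by
  intro a lam h
  by_cases h0 : lam = 0
  · simp [h0]
  simp only [pp, map_P8, map_add, map_mul, map_one, map_ofNat, map_neg, aeval_X] at h
  have := hyp (a (.inl 0) + a (.inr 2)) (a (.inr 0)) (a (.inr 1)) (2 * a (.inl 0)) (a (.inr 3))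
    (-2 * a (.inl 0)) lam⁻¹ (by
      unfold P8 at h ⊢
      push_cast
      field_simp
      linear_combination h)
  rw [Complex.inv_im, div_eq_zero_iff] at this
  rcases this with a | a
  · simpa using a
  · exact absurd (Complex.normSq_eq_zero.1 a) h0

lemma rz_lin (c a : ℝ) (hc : c ≠ 0) (lam : ℂ) (h : (c : ℂ) + lam * a = 0) : lam.im = 0 := by
  have h1 := congrArg Complex.re h
  have h2 := congrArg Complex.im h
  simp at h1 h2
  rcases h2 with h2 | h2
  · exact h2
  · rw [h2] at h1; simp at h1; exact absurd h1 hc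

lemma rz_qq : RZ qq := by
  intro a lam h
  simp only [qq, map_add, map_sub, map_mul, map_one, map_ofNat, aeval_X, mul_eq_zero] at h
  rcases h with ((h | h) | h) | h
  · norm_num at h
  · exact rz_lin 1 (a (.inl 0) + a (.inr 0)) one_ne_zero lam (by push_cast; linear_combination h)
  · exact rz_lin 1 (4 * a (.inl 0)) one_ne_zero lam (by push_cast; linear_combination h)
  · exact rz_lin 3 (-4 * a (.inl 0)) (by norm_num) lam (by push_cast; linear_combination h)

lemma deg_pp : pp.totalDegree ≤ 3 := by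
  refine degP ?_ (by simp) (by simp) ?_ ?_ ?_
  · simpa using deg1 1 1 1 (Sum.inl 0 : Fin 1 ⊕ Fin 4) (.inr 2)
  · simpa [map_ofNat] using deg1 1 2 0 (Sum.inl 0 : Fin 1 ⊕ Fin 4) (.inr 2)
  · simpa [map_ofNat] using deg1 2 1 0 (Sum.inr 3 : Fin 1 ⊕ Fin 4) (.inr 2)
  · simpa [map_ofNat] using deg1 0 (-2) 0 (Sum.inl 0 : Fin 1 ⊕ Fin 4) (.inr 2)

lemma deg_qq : qq.totalDegree ≤ 3 := by
  have e : qq = (C 4 + C 4 * X (.inl 0) + C 4 * X (.inr 0)) *
      (C 1 + C 4 * X (.inl 0) + C 0 * X (.inr 0)) *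
      (C 3 + C (-4) * X (.inl 0) + C 0 * X (.inr 0)) := by
    simp only [qq, map_ofNat, map_neg, map_one, map_zero]; ring
  rw [e, ← mem_restrictTotalDegree]
  exact deg3 (deg1 ..) (deg1 ..) (deg1 ..)

lemma agree : (aeval (Sum.elim X fun _ => 0) pp : MvPolynomial (Fin 1) ℝ) =
    aeval (Sum.elim X fun _ => 0) qq := by
  simp only [pp, qq, map_P8, map_add, map_sub, map_mul, map_one, map_ofNat, map_neg, aeval_X,
    Sum.elim_inl, Sum.elim_inr]
  unfold P8; ring

/-- no amalgam of degree at most three, evaluation form -/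
theorem no_amalgam (r : MvPolynomial (Fin 1 ⊕ Fin 4 ⊕ Fin 1) ℝ) (hr : RZ r)
    (hd : r.totalDegree ≤ 3)
    (hp : ∀ (x : ℝ) (y : Fin 4 → ℝ), eval (Sum.elim (fun _ => x) (Sum.elim y fun _ => 0)) r =
      P8 (1 + x + y 2) (y 0) (y 1) (1 + 2 * x) (2 + y 3) (-2 * x))
    (hq : ∀ x z : ℝ, eval (Sum.elim (fun _ => x) (Sum.elim (fun _ => 0) fun _ => z)) r =
      4 * (1 + x + z) * (1 + 4 * x) * (3 - 4 * x)) : False := by
  obtain ⟨S, h, hS⟩ := exTri r hd
  let pt : ℝ → ℝ → (Fin 4 → ℝ) → ℝ → Option (Fin 1 ⊕ Fin 4 ⊕ Fin 1) → ℝ := fun s x y z o =>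
    o.elim s (Sum.elim (fun _ => x) (Sum.elim y fun _ => z))
  let g : Fin 7 → Option (Fin 1 ⊕ Fin 4 ⊕ Fin 1) → ℝ :=
    ![pt 0 0 ![0, 0, 1, 0] 0, pt 0 0 ![1, 0, 0, 0] 0, pt 0 0 ![0, 1, 0, 0] 0,
      pt 1 0 ![0, 0, -1, -2] 0, pt 0 0 ![0, 0, 0, 1] 0, pt 1 (-1 / 2) ![0, 0, -1 / 2, -2] 0,
      pt 0 0 ![0, 0, 0, 0] 1]
  have hv : ∀ m a b A B c z : ℝ, vec g m a b A B c z =
      pt (A + c) (-c / 2) ![a, b, m - A - c / 2, B - 2 * A - 2 * c] z := by
    intro m a b A B c z
    funext o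
    rcases o with _ | i | i | i
    · simp [vec, g, pt]
    · simp [vec, g, pt]; ring
    · fin_cases i <;> simp [vec, g, pt] <;> ring
    · simp [vec, g, pt]
  have he : vec g 1 0 0 1 2 0 0 = hat 0 := by
    rw [hv]
    funext o
    rcases o with _ | i | i | i
    · simp [pt, hat]
    · simp [pt, hat]
    · fin_cases i <;> simp [pt, hat]
    · simp [pt, hat]
  have hom : ∀ (F : ℝ → ℝ → ℝ) (v : Option (Fin 1 ⊕ Fin 4 ⊕ Fin 1) → ℝ) (k0 k1 k2 k3 : ℝ),
      (∀ t : ℝ, eval (fun i => t * v (some i)) r = k0 + k1 * t + k2 * t ^ 2 + k3 * t ^ 3) →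
      S v v v = k0 * v none ^ 3 + k1 * v none ^ 2 + k2 * v none + k3 := by
    intro _ v k0 k1 k2 k3 hk
    obtain ⟨w, hw⟩ : ∃ w, w = v + (-v none) • hat 0 := ⟨_, rfl⟩
    have hx : v = w + v none • hat 0 := by rw [hw]; module
    have a : ∀ t : ℝ, S (hat 0) (hat 0) (hat 0) + 3 * t * S w (hat 0) (hat 0) +
        3 * t ^ 2 * S w w (hat 0) + t ^ 3 * S w w w = k0 + k1 * t + k2 * t ^ 2 + k3 * t ^ 3 := by
      intro t
      rw [← hk, ← hS, hat_smul, ← hw, h.cube, h.s23 _ (hat 0) w, h.s12 (hat 0) w (hat 0),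
        h.s12 (hat 0) w w, h.s23 w (hat 0) w]
    have b0 := h.cube (v none) w (hat 0)
    rw [← hx] at b0
    have a0 := a 0
    have a1 := a 1
    have a2 := a (-1)
    have a3 := a 2
    have c0 : S (hat 0) (hat 0) (hat 0) = k0 := by linarith
    have c1 : S w (hat 0) (hat 0) = k1 / 3 := by linarith
    have c2 : S w w (hat 0) = k2 / 3 := by linarith
    have c3 : S w w w = k3 := by linarith
    rw [b0, c0, c1, c2, c3]; ring
  refine core h g (fun x => by rw [he]; exact newton r hr h hS x) ?_ ?_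
  · intro m a b A B c
    obtain ⟨m', rfl⟩ : ∃ m', m = m' + (A + c) := ⟨m - (A + c), by ring⟩
    obtain ⟨B', rfl⟩ : ∃ B', B = B' + 2 * (A + c) := ⟨B - 2 * (A + c), by ring⟩
    rw [hom (fun _ _ => 0) _ 12 (28 * m' - 8 * c) (-32 * m' * c + 12 * m' * B' - 8 * c * B'
      - 16 * c ^ 2 - 5 * B' ^ 2 - 16 * a ^ 2 - 7 * b ^ 2 - 8 * c ^ 2) (P8 m' a b (-c) B' c), hv]
    · simp only [pt, Option.elim, P8]; ring
    · intro t
      have := hp (t * (-c / 2)) ![t * a, t * b, t * (m' + c / 2), t * B']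
      simp only [Matrix.cons_val_zero, Matrix.cons_val_one, Matrix.cons_val] at this
      rw [hv]
      refine Eq.trans ?_ (this.trans (by unfold P8; ring))
      congr 2
      funext o
      rcases o with i | i | i
      · simp [pt]
      · fin_cases i <;> simp [pt] <;> left <;> ring
      · simp [pt]
  · intro s x z
    rw [hom (fun _ _ => 0) _ 12 (44 * x + 12 * z) (-32 * x ^ 2 + 32 * x * z)
      (-64 * x ^ 3 - 64 * x ^ 2 * z), hv]
    · simp only [pt, Option.elim]; ring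
    · intro t
      have := hq (t * x) (t * z)
      rw [hv]
      refine Eq.trans ?_ (this.trans (by ring))
      congr 2
      funext o
      rcases o with i | i | i
      · simp [pt]
      · fin_cases i <;> simp [pt] <;> right <;> ring
      · simp [pt]

/-- one shared variable, degree three -/
theorem cubic : ∃ (p : MvPolynomial (Fin 1 ⊕ Fin 4) ℝ) (q : MvPolynomial (Fin 1 ⊕ Fin 1) ℝ),
    RZ p ∧ RZ q ∧ p.totalDegree ≤ 3 ∧ q.totalDegree ≤ 3 ∧
    (aeval (Sum.elim X fun _ => 0) p : MvPolynomial (Fin 1) ℝ) =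
      aeval (Sum.elim X fun _ => 0) q ∧
    ¬ ∃ r : MvPolynomial (Fin 1 ⊕ Fin 4 ⊕ Fin 1) ℝ, RZ r ∧ r.totalDegree ≤ 3 ∧
      aeval (Sum.elim (fun i => X (.inl i)) (Sum.elim (fun j => X (.inr j)) fun _ => 0)) r = p ∧
      aeval (Sum.elim (fun i => X (.inl i)) (Sum.elim (fun _ => 0) fun k => X (.inr k))) r = q := by
  refine ⟨pp, qq, rz_pp, rz_qq, deg_pp, deg_qq, agree, ?_⟩
  rintro ⟨r, hr, hd, h1, h2⟩
  refine no_amalgam r hr hd (fun x y => ?_) fun x z => ?_
  · have := congrArg (aeval (R := ℝ) (Sum.elim (fun _ => x) y)) h1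
    rw [← AlgHom.comp_apply, comp_aeval] at this
    simp only [pp, map_P8, map_add, map_mul, map_one, map_ofNat, map_neg, aeval_X,
      Sum.elim_inl, Sum.elim_inr] at this
    rw [← this, ← coe_aeval_eq_eval]
    change aeval _ r = aeval _ r
    congr 2
    funext o
    rcases o with i | i | i <;> simp
  · have := congrArg (aeval (R := ℝ) (Sum.elim (fun _ => x) fun _ => z)) h2
    rw [← AlgHom.comp_apply, comp_aeval] at this
    simp only [qq, map_add, map_sub, map_mul, map_one, map_ofNat, aeval_X,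
      Sum.elim_inl, Sum.elim_inr] at this
    rw [← this, ← coe_aeval_eq_eval]
    change aeval _ r = aeval _ r
    congr 2
    funext o
    rcases o with i | i | i <;> simp

end Pool.Agent.Lib.MP_eea824_ag.Cub91
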