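import Mathlib

/-! Hyperbolicity cones of homogeneous polynomial functions: convexity and monotonicity. -/

namespace Pool.Agent.Lib.MP_eea824_ag.Gar

open Polynomial Complex

variable {σ : Type*} [Fintype σ]

/-- continuous, homogeneous of degree D, polynomial of degree at most D on complex lines -/
structure HP (Φ : (σ → ℂ) → ℂ) (D : ℕ) : Prop where
  cont : Continuous Φ
  hom : ∀ (s : ℂ) (x : σ → ℂ), Φ (s • x) = s ^ D * Φ x
  line : ∀ x v : σ → ℂ, ∃ f : ℂ[X], f.natDegree ≤ D ∧ ∀ s : ℂ, Φ (x + s • v) = f.eval s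

/-- a real vector as a complex vector -/
def cx (x : σ → ℝ) : σ → ℂ := fun i => (x i : ℂ)

/-- w is a hyperbolic direction -/
def Hy (Φ : (σ → ℂ) → ℂ) (w : σ → ℝ) : Prop :=
  ∀ (y : σ → ℝ) (z : ℂ), z.im ≠ 0 → Φ (z • cx w + cx y) ≠ 0

/-- open cone -/
def G (Φ : (σ → ℂ) → ℂ) (w : σ → ℝ) : Set (σ → ℝ) :=
  {v | ∀ t : ℝ, 0 ≤ t → Φ (cx (v + t • w)) ≠ 0}

/-- closed cone -/
def Cl (Φ : (σ → ℂ) → ℂ) (w : σ → ℝ) : Set (σ → ℝ) :=
  {v | ∀ t : ℝ, 0 < t → Φ (cx (v + t • w)) ≠ 0}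

lemma harn_prod (m : Multiset ℂ) {δ : ℝ} (hδ : 0 < δ) (hm : ∀ r ∈ m, δ ≤ ‖r‖) (t : ℂ) :
    ‖((m.map fun r => X - C r).prod).eval t‖ ≤
      (1 + ‖t‖ / δ) ^ Multiset.card m * ‖((m.map fun r => X - C r).prod).eval 0‖ := by
  induction m using Multiset.induction_on with
  | empty => simp
  | cons r m ih =>
    have h1 := ih (fun x hx => hm x (Multiset.mem_cons_of_mem hx))
    have hr := hm r (Multiset.mem_cons_self _ _)
    simp only [Multiset.map_cons, Multiset.prod_cons, eval_mul, eval_sub, eval_X, eval_C, norm_mul,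
      Multiset.card_cons, zero_sub, norm_neg, pow_succ]
    have h2 : ‖t - r‖ ≤ (1 + ‖t‖ / δ) * ‖r‖ := by
      have a : ‖t‖ ≤ ‖t‖ / δ * ‖r‖ := by
        rw [div_mul_eq_mul_div, le_div_iff₀ hδ]
        exact mul_le_mul_of_nonneg_left hr (norm_nonneg _)
      have b := norm_sub_le t r
      linarith
    calc _ ≤ ((1 + ‖t‖ / δ) * ‖r‖) * ((1 + ‖t‖ / δ) ^ Multiset.card m *
            ‖((m.map fun r => X - C r).prod).eval 0‖) :=
          mul_le_mul h2 h1 (norm_nonneg _) (by positivity)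
      _ = _ := by ring

lemma harn_poly (f : ℂ[X]) {D : ℕ} (hD : f.natDegree ≤ D) {δ : ℝ} (hδ : 0 < δ)
    (h : ∀ s : ℂ, ‖s‖ < δ → f.eval s ≠ 0) (t : ℂ) :
    ‖f.eval t‖ ≤ (1 + ‖t‖ / δ) ^ D * ‖f.eval 0‖ := by
  have hc : Multiset.card f.roots = f.natDegree := IsAlgClosed.card_roots_eq_natDegree
  have hf := C_leadingCoeff_mul_prod_multiset_X_sub_C hc
  have h1 := harn_prod f.roots hδ (fun r hr => by
    by_contra hh
    exact h r (not_le.mp hh) (isRoot_of_mem_roots hr)) t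
  set P := (f.roots.map fun r => X - C r).prod with hP
  have hK : (1 + ‖t‖ / δ) ^ Multiset.card f.roots ≤ (1 + ‖t‖ / δ) ^ D :=
    pow_le_pow_right₀ (le_add_of_nonneg_right (by positivity)) (hc ▸ hD)
  have e1 : ‖f.eval t‖ = ‖f.leadingCoeff‖ * ‖P.eval t‖ := by
    conv_lhs => rw [← hf]
    simp
  have e0 : ‖f.eval 0‖ = ‖f.leadingCoeff‖ * ‖P.eval 0‖ := by
    conv_lhs => rw [← hf]
    simp
  rw [e1, e0]
  calc _ ≤ ‖f.leadingCoeff‖ * ((1 + ‖t‖ / δ) ^ D * ‖P.eval 0‖) := by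
        apply mul_le_mul_of_nonneg_left _ (norm_nonneg _)
        exact h1.trans (mul_le_mul_of_nonneg_right hK (norm_nonneg _))
    _ = _ := by ring

variable {Φ : (σ → ℂ) → ℂ} {D : ℕ}

lemma harn (H : HP Φ D) (x v : σ → ℂ) {δ : ℝ} (hδ : 0 < δ)
    (h : ∀ s : ℂ, ‖s‖ < δ → Φ (x + s • v) ≠ 0) (t : ℂ) :
    ‖Φ (x + t • v)‖ ≤ (1 + ‖t‖ / δ) ^ D * ‖Φ x‖ := by
  obtain ⟨f, hf, he⟩ := H.line x v
  have := harn_poly f hf hδ (fun s hs => he s ▸ h s hs) t
  rw [← he, ← he] at this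
  simpa using this

lemma harn_re (H : HP Φ D) (x v : σ → ℂ) (h : ∀ s : ℂ, 0 < s.re → Φ (x + s • v) ≠ 0)
    (s0 : ℂ) (hs : 0 < s0.re) (t : ℂ) :
    ‖Φ (x + t • v)‖ ≤ (1 + ‖t - s0‖ / s0.re) ^ D * ‖Φ (x + s0 • v)‖ := by
  have := harn H (x + s0 • v) v hs (fun s hs' => by
    rw [add_assoc, ← add_smul]
    apply h
    have := abs_re_le_norm s
    have := neg_abs_le s.re
    simp only [add_re]
    linarith) (t - s0)
  rwa [add_assoc, ← add_smul, add_sub_cancel] at this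

/-- roots cannot cross the imaginary axis -/
lemma clopen (H : HP Φ D) (x : ℝ → σ → ℂ) (hx : Continuous x) (v : σ → ℂ) (hv : Φ v ≠ 0)
    (h0 : ∀ τ ∈ Set.Icc (0 : ℝ) 1, ∀ s : ℂ, s.re = 0 → Φ (x τ + s • v) ≠ 0)
    (h1 : ∀ s : ℂ, 0 < s.re → Φ (x 0 + s • v) ≠ 0) :
    ∀ s : ℂ, 0 ≤ s.re → Φ (x 1 + s • v) ≠ 0 := by
  have hc := H.cont
  set U : Set ℝ := {τ | ∀ s0 : ℂ, 0 < s0.re →
    ‖Φ (x τ + (0 : ℂ) • v)‖ ≤ (1 + ‖0 - s0‖ / s0.re) ^ D * ‖Φ (x τ + s0 • v)‖} with hU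
  set K : Set (ℝ × ℝ × ℂ) := (Set.Icc 0 1 ×ˢ (Set.Icc 0 1 ×ˢ Metric.closedBall 0 1)) ∩
    {p | p.2.1 + ‖p.2.2‖ = 1 ∧ 0 ≤ p.2.2.re ∧ Φ ((p.2.1 : ℂ) • x p.1 + p.2.2 • v) = 0} with hK
  have hUc : IsClosed U := by
    have : U = ⋂ s0 : ℂ, ⋂ _ : 0 < s0.re, {τ | ‖Φ (x τ + (0 : ℂ) • v)‖ ≤
        (1 + ‖0 - s0‖ / s0.re) ^ D * ‖Φ (x τ + s0 • v)‖} := by
      ext τ
      simp only [hU, Set.mem_ofPred_eq, Set.mem_iInter]
    rw [this]
    refine isClosed_iInter fun s0 => isClosed_iInter fun _ => isClosed_le ?_ ?_ <;> fun_prop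
  have hKc : IsCompact K := by
    apply IsCompact.inter_right
    · exact isCompact_Icc.prod (isCompact_Icc.prod (isCompact_closedBall _ _))
    · have a1 : IsClosed {p : ℝ × ℝ × ℂ | p.2.1 + ‖p.2.2‖ = 1} :=
        isClosed_eq (by fun_prop) (by fun_prop)
      have a2 : IsClosed {p : ℝ × ℝ × ℂ | 0 ≤ p.2.2.re} := isClosed_le (by fun_prop) (by fun_prop)
      have a3 : IsClosed {p : ℝ × ℝ × ℂ | Φ ((p.2.1 : ℂ) • x p.1 + p.2.2 • v) = 0} :=
        isClosed_eq (by fun_prop) (by fun_prop)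
      exact a1.inter (a2.inter a3)
  have hVc : IsClosed (Prod.fst '' K) := (hKc.image continuous_fst).isClosed
  have inV : ∀ τ ∈ Set.Icc (0 : ℝ) 1, ∀ s : ℂ, 0 ≤ s.re → Φ (x τ + s • v) = 0 →
      τ ∈ Prod.fst '' K := by
    intro τ hτ s hs he
    have hp : 0 < 1 + ‖s‖ := by positivity
    have hn : ‖(((1 + ‖s‖)⁻¹ : ℝ) : ℂ) * s‖ = (1 + ‖s‖)⁻¹ * ‖s‖ := by
      rw [norm_mul, Complex.norm_real, Real.norm_of_nonneg (by positivity)]
    have hsum : (1 + ‖s‖)⁻¹ + (1 + ‖s‖)⁻¹ * ‖s‖ = 1 := by field_simp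
    have a1 : 0 ≤ (1 + ‖s‖)⁻¹ := by positivity
    have a2 : 0 ≤ (1 + ‖s‖)⁻¹ * ‖s‖ := by positivity
    refine ⟨(τ, (1 + ‖s‖)⁻¹, (((1 + ‖s‖)⁻¹ : ℝ) : ℂ) * s), ⟨⟨hτ, ⟨a1, by linarith⟩, ?_⟩, ?_, ?_, ?_⟩,
      rfl⟩
    · simp only [mem_closedBall_zero_iff, hn]
      linarith
    · simp only [hn]
      exact hsum
    · simp only [re_ofReal_mul]
      positivity
    · simp only
      rw [mul_smul, ← smul_add, H.hom, he, mul_zero]
  have inU : ∀ τ : ℝ, (∀ s : ℂ, 0 < s.re → Φ (x τ + s • v) ≠ 0) → τ ∈ U :=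
    fun τ h s0 hs0 => harn_re H (x τ) v h s0 hs0 0
  intro s hs he
  have cover : Set.Icc (0 : ℝ) 1 ⊆ U ∪ Prod.fst '' K := by
    intro τ hτ
    by_cases h : ∀ s : ℂ, 0 < s.re → Φ (x τ + s • v) ≠ 0
    · exact Or.inl (inU τ h)
    · push Not at h
      obtain ⟨s, hs, he⟩ := h
      exact Or.inr (inV τ hτ s hs.le he)
  obtain ⟨τ, hτ, hτU, ⟨τ', a, u⟩, ⟨⟨-, ⟨ha, -⟩, -⟩, hsum, hre, hz⟩, rfl⟩ :=
    isPreconnected_closed_iff.mp (isPreconnected_Icc (a := (0 : ℝ)) (b := 1)) U _ hUc hVc cover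
      ⟨0, by simp, inU 0 h1⟩ ⟨1, by simp, inV 1 (by simp) s hs he⟩
  simp only at ha hsum hre hz hτ hτU
  rcases ha.eq_or_lt with ha | ha
  · subst ha
    have hu : u ≠ 0 := by
      intro h
      simp [h] at hsum
    simp only [ofReal_zero, zero_smul, zero_add] at hz
    rw [H.hom] at hz
    exact mul_ne_zero (pow_ne_zero _ hu) hv hz
  · have ha' : (a : ℂ) ≠ 0 := by exact_mod_cast ha.ne'
    have e : (a : ℂ) • x τ' + u • v = (a : ℂ) • (x τ' + (((a⁻¹ : ℝ) : ℂ) * u) • v) := by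
      rw [smul_add, smul_smul, ← mul_assoc]
      push_cast
      rw [mul_inv_cancel₀ ha', one_mul]
    rw [e, H.hom] at hz
    have hz' := (mul_eq_zero.mp hz).resolve_left (pow_ne_zero _ ha')
    have hre' : 0 ≤ (((a⁻¹ : ℝ) : ℂ) * u).re := by
      simp only [re_ofReal_mul]
      positivity
    rcases hre'.eq_or_lt with h | h
    · exact h0 τ' hτ _ h.symm hz'
    · have := hτU _ h
      rw [hz', norm_zero, mul_zero] at this
      exact h0 τ' hτ 0 (by simp) (norm_le_zero_iff.mp this)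

lemma Hy.rot (H : HP Φ D) {w : σ → ℝ} (hw : Hy Φ w) (y : σ → ℝ) (α : ℂ) (hα : α.re ≠ 0) :
    Φ (α • cx w + I • cx y) ≠ 0 := by
  have e : α • cx w + I • cx y = I • ((-I * α) • cx w + cx y) := by
    rw [smul_add, smul_smul]
    congr 2
    rw [← mul_assoc]
    simp
  rw [e, H.hom]
  exact mul_ne_zero (pow_ne_zero _ I_ne_zero) (hw y _ (by simpa using hα))

lemma Hy.ne (H : HP Φ D) {w : σ → ℝ} (hw : Hy Φ w) : Φ (cx w) ≠ 0 := by
  have := hw.rot H 0 1 (by simp)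
  have e : (1 : ℂ) • cx w + I • cx (0 : σ → ℝ) = cx w := by
    ext i
    simp [cx]
  rwa [e] at this

lemma G.ne {w v : σ → ℝ} (hv : v ∈ G Φ w) : Φ (cx v) ≠ 0 := by
  simpa using hv 0 le_rfl

lemma hom_real (H : HP Φ D) (a : ℝ) (x : σ → ℝ) : Φ (cx (a • x)) = (a : ℂ) ^ D * Φ (cx x) := by
  rw [← H.hom]
  congr 1
  ext i
  simp [cx]

lemma two (H : HP Φ D) {w v : σ → ℝ} (hw : Hy Φ w) (hv : v ∈ G Φ w) (y : σ → ℝ) (α : ℂ)
    (hα : 0 < α.re) (s : ℂ) (hs : 0 ≤ s.re) : Φ (α • cx w + I • cx y + s • cx v) ≠ 0 := by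
  have key := clopen H (fun τ => α • cx w + I • cx (τ • y)) (by
      unfold cx
      fun_prop) (cx v) (G.ne hv) (by
      intro τ _ s hs
      have e : α • cx w + I • cx (τ • y) + s • cx v = α • cx w + I • cx (τ • y + s.im • v) := by
        ext i
        apply Complex.ext <;> simp [cx, hs] <;> ring
      simp only [e]
      exact hw.rot H _ α hα.ne') (by
      intro s hs
      have hs0 : s ≠ 0 := by
        intro h
        simp [h] at hs
      have e : α • cx w + I • cx ((0 : ℝ) • y) + s • cx v = s • ((α / s) • cx w + cx v) := by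
        ext i
        simp [cx]
        field_simp
      simp only [e]
      rw [H.hom]
      refine mul_ne_zero (pow_ne_zero _ hs0) ?_
      by_cases him : (α / s).im = 0
      · obtain ⟨t, ht⟩ : ∃ t : ℝ, α / s = t := ⟨(α / s).re, Complex.ext rfl (by simpa using him)⟩
        have h2 : α = t * s := by
          rw [← ht]
          field_simp
        have h3 : 0 < t := by
          rw [h2, re_ofReal_mul] at hα
          exact (mul_pos_iff_of_pos_right hs).mp hα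
        have e2 : (α / s) • cx w + cx v = cx (v + t • w) := by
          ext i
          simp [cx, ht]
          ring
        rw [e2]
        exact hv t h3.le
      · exact hw v _ him) s hs
  simpa using key

lemma hy_of_mem (H : HP Φ D) {w v : σ → ℝ} (hw : Hy Φ w) (hv : v ∈ G Φ w) : Hy Φ v := by
  have hc := H.cont
  have key : ∀ (y : σ → ℝ) (s : ℂ), 0 < s.re → Φ (I • cx y + s • cx v) ≠ 0 := by
    intro y s hs he
    have all : ∀ t : ℂ, Φ (I • cx y + t • cx v) = 0 := by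
      intro t
      have cl : IsClosed {a : ℝ | ‖Φ ((a : ℂ) • cx w + I • cx y + t • cx v)‖ ≤
          (1 + ‖t - s‖ / s.re) ^ D * ‖Φ ((a : ℂ) • cx w + I • cx y + s • cx v)‖} :=
        isClosed_le (by fun_prop) (by fun_prop)
      have sub : Set.Ioi (0 : ℝ) ⊆ _ := fun a (ha : 0 < a) =>
        (show a ∈ {a : ℝ | ‖Φ ((a : ℂ) • cx w + I • cx y + t • cx v)‖ ≤
          (1 + ‖t - s‖ / s.re) ^ D * ‖Φ ((a : ℂ) • cx w + I • cx y + s • cx v)‖} from
          harn_re H _ _ (fun u hu => two H hw hv y a (by simpa using ha) u hu.le) s hs t)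
      have := cl.closure_subset_iff.mpr sub (show (0 : ℝ) ∈ closure (Set.Ioi 0) by simp)
      simp only [Set.mem_ofPred_eq, ofReal_zero, zero_smul, zero_add, he, norm_zero,
        mul_zero] at this
      exact norm_le_zero_iff.mp this
    have cl : IsClosed {a : ℝ | Φ ((a : ℂ) • (I • cx y) + cx v) = 0} :=
      isClosed_eq (by fun_prop) (by fun_prop)
    have sub : Set.Ioi (0 : ℝ) ⊆ {a : ℝ | Φ ((a : ℂ) • (I • cx y) + cx v) = 0} := by
      intro a (ha : 0 < a)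
      have ha' : (a : ℂ) ≠ 0 := by exact_mod_cast ha.ne'
      have e : (a : ℂ) • (I • cx y) + cx v = (a : ℂ) • (I • cx y + (a : ℂ)⁻¹ • cx v) := by
        rw [smul_add, smul_smul (a : ℂ) (a : ℂ)⁻¹, mul_inv_cancel₀ ha', one_smul]
      show Φ _ = 0
      rw [e, H.hom, all, mul_zero]
    have := cl.closure_subset_iff.mpr sub (show (0 : ℝ) ∈ closure (Set.Ioi 0) by simp)
    simp only [Set.mem_ofPred_eq, ofReal_zero, zero_smul, zero_add] at this
    exact G.ne hv this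
  intro y z hz he
  rcases lt_or_gt_of_ne hz with h | h
  · apply key y (I * z) (by simpa using h)
    have e : I • cx y + (I * z) • cx v = I • (z • cx v + cx y) := by
      rw [smul_add, smul_smul, add_comm]
    rw [e, H.hom, he, mul_zero]
  · apply key (-y) (-I * z) (by simpa using h)
    have e : I • cx (-y) + (-I * z) • cx v = (-I) • (z • cx v + cx y) := by
      ext i
      simp [cx]
      ring
    rw [e, H.hom, he, mul_zero]

lemma smul_mem (H : HP Φ D) {w v : σ → ℝ} (hv : v ∈ G Φ w) {a : ℝ} (ha : 0 < a) :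
    a • v ∈ G Φ w := by
  intro t ht
  have e : a • v + t • w = a • (v + (t / a) • w) := by
    rw [smul_add, smul_smul]
    congr 2
    field_simp
  rw [e, hom_real H]
  exact mul_ne_zero (pow_ne_zero _ (by exact_mod_cast ha.ne')) (hv _ (by positivity))

lemma zero_cl (H : HP Φ D) {w : σ → ℝ} (hw : Hy Φ w) : (0 : σ → ℝ) ∈ Cl Φ w := by
  intro t ht
  rw [zero_add, hom_real H]
  exact mul_ne_zero (pow_ne_zero _ (by exact_mod_cast ht.ne')) (hw.ne H)

lemma smul_cl (H : HP Φ D) {w v : σ → ℝ} (hw : Hy Φ w) (hv : v ∈ Cl Φ w) {a : ℝ} (ha : 0 ≤ a) :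
    a • v ∈ Cl Φ w := by
  rcases ha.eq_or_lt with ha | ha
  · subst ha
    simpa using zero_cl H hw
  intro t ht
  have e : a • v + t • w = a • (v + (t / a) • w) := by
    rw [smul_add, smul_smul]
    congr 2
    field_simp
  rw [e, hom_real H]
  exact mul_ne_zero (pow_ne_zero _ (by exact_mod_cast ha.ne')) (hv _ (by positivity))

lemma cl_of_mem {w v : σ → ℝ} (hv : v ∈ G Φ w) : v ∈ Cl Φ w := fun t ht => hv t ht.le

lemma shift {w v : σ → ℝ} (hv : v ∈ Cl Φ w) {t : ℝ} (ht : 0 < t) : v + t • w ∈ G Φ w := by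
  intro s hs
  rw [add_assoc, ← add_smul]
  exact hv _ (by linarith)

lemma self_mem (H : HP Φ D) {w : σ → ℝ} (hw : Hy Φ w) : w ∈ G Φ w := by
  simpa using shift (zero_cl H hw) one_pos

lemma add_ne (H : HP Φ D) {w v1 v2 : σ → ℝ} (hw : Hy Φ w) (h1 : v1 ∈ G Φ w) (h2 : v2 ∈ G Φ w)
    (s : ℂ) (hs : 0 ≤ s.re) : Φ (cx v2 + s • cx v1) ≠ 0 := by
  have key := clopen H (fun τ => cx ((1 - τ) • w + τ • v2)) (by
      unfold cx
      fun_prop) (cx v1) (G.ne h1) (by
      intro τ hτ s hs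
      by_cases him : s.im = 0
      · have : s = 0 := Complex.ext hs him
        subst this
        simp only [zero_smul, add_zero]
        rcases hτ.1.eq_or_lt with h | h
        · subst h
          simpa using hw.ne H
        · rw [add_comm]
          exact smul_mem H h2 h _ (by linarith [hτ.2])
      · rw [add_comm]
        exact hy_of_mem H hw h1 _ s him) (by
      intro s hs
      have := two H hw h1 0 1 (by simp) s hs.le
      have e : (1 : ℂ) • cx w + I • cx (0 : σ → ℝ) = cx ((1 - (0 : ℝ)) • w + (0 : ℝ) • v2) := by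
        ext i
        simp [cx]
      rwa [e] at this) s hs
  simpa using key

lemma add_mem (H : HP Φ D) {w v1 v2 : σ → ℝ} (hw : Hy Φ w) (h1 : v1 ∈ G Φ w) (h2 : v2 ∈ G Φ w) :
    v1 + v2 ∈ G Φ w := by
  intro t ht
  have h3 : v2 + t • w ∈ G Φ w := by
    intro s hs
    rw [add_assoc, ← add_smul]
    exact h2 _ (by linarith)
  have := add_ne H hw h1 h3 1 (by simp)
  have e : cx (v2 + t • w) + (1 : ℂ) • cx v1 = cx (v1 + v2 + t • w) := by
    ext i
    simp [cx]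
    ring
  rwa [e] at this

lemma room (H : HP Φ D) {w x : σ → ℝ} (hx : x ∈ G Φ w) :
    ∃ η : ℝ, 0 < η ∧ x - η • w ∈ G Φ w := by
  have hc := H.cont
  have c : Continuous fun t : ℝ => Φ (cx (x + t • w)) := by
    unfold cx
    fun_prop
  have := c.continuousAt (x := 0) |>.eventually_ne (hx 0 le_rfl)
  obtain ⟨ε, hε, h⟩ := Metric.eventually_nhds_iff.mp this
  refine ⟨ε / 2, by positivity, fun t ht => ?_⟩
  have e : x - (ε / 2) • w + t • w = x + (t - ε / 2) • w := by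
    rw [sub_smul]
    abel
  rw [e]
  by_cases h0 : 0 ≤ t - ε / 2
  · exact hx _ h0
  · apply h
    rw [Real.dist_eq, sub_zero, abs_lt]
    constructor <;> linarith

lemma add_cl (H : HP Φ D) {w x v : σ → ℝ} (hw : Hy Φ w) (hx : x ∈ G Φ w) (hv : v ∈ Cl Φ w) :
    x + v ∈ G Φ w := by
  obtain ⟨η, hη, h⟩ := room H hx
  have := add_mem H hw h (shift hv hη)
  rwa [show x - η • w + (v + η • w) = x + v by abel] at this

lemma cl_add (H : HP Φ D) {w u v : σ → ℝ} (hw : Hy Φ w) (hu : u ∈ Cl Φ w) (hv : v ∈ Cl Φ w) :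
    u + v ∈ Cl Φ w := by
  intro t ht
  have := G.ne (add_cl H hw (shift hu ht) hv)
  rwa [show u + t • w + v = u + v + t • w by abel] at this

lemma base_mem (H : HP Φ D) {w b : σ → ℝ} (hw : Hy Φ w) (hb : b ∈ G Φ w) : w ∈ G Φ b := by
  intro t ht
  have := add_ne H hw hb (self_mem H hw) t (by simpa using ht)
  have e : cx w + (t : ℂ) • cx b = cx (w + t • b) := by
    ext i
    simp [cx]
  rwa [e] at this

/-- the closed cone does not depend on the base point -/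
lemma cl_base (H : HP Φ D) {w b v : σ → ℝ} (hw : Hy Φ w) (hb : b ∈ G Φ w) (hv : v ∈ Cl Φ b) :
    v ∈ Cl Φ w := by
  intro t ht
  have := G.ne (add_cl H (hy_of_mem H hw hb) (smul_mem H (base_mem H hw hb) ht) hv)
  rwa [add_comm] at this

/-- the open cone does not depend on the base point -/
lemma sub_base (H : HP Φ D) {w b v : σ → ℝ} (hw : Hy Φ w) (hb : b ∈ G Φ w) (hv : v ∈ G Φ b) :
    v ∈ G Φ w := by
  intro t ht
  rcases ht.eq_or_lt with h | h
  · subst h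
    simpa using G.ne hv
  · exact cl_base H hw hb (cl_of_mem hv) t h

/-- monotonicity in the cone order, up to the factor 2 ^ D -/
theorem mono (H : HP Φ D) {w x x1 : σ → ℝ} (hw : Hy Φ w) (hx : x ∈ G Φ w) (h1 : x1 ∈ Cl Φ w)
    (h2 : x - x1 ∈ Cl Φ w) : ‖Φ (cx x1)‖ ≤ 2 ^ D * ‖Φ (cx x)‖ := by
  have := harn H (cx x) (cx (x1 - x)) one_pos (fun s hs => by
    have a1 := abs_re_le_norm s
    have a2 := abs_lt.mp (a1.trans_lt hs)
    have hu : x + s.re • (x1 - x) ∈ G Φ w := by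
      by_cases h : 0 ≤ s.re
      · have := add_cl H hw (smul_mem H hx (show 0 < 1 - s.re by linarith)) (smul_cl H hw h1 h)
        rwa [show (1 - s.re) • x + s.re • x1 = x + s.re • (x1 - x) by module] at this
      · have := add_cl H hw hx (smul_cl H hw h2 (show 0 ≤ -s.re by linarith))
        rwa [show x + (-s.re) • (x - x1) = x + s.re • (x1 - x) by module] at this
    have := (hy_of_mem H hw hu).rot H (s.im • (x1 - x)) 1 (by simp)
    have e : (1 : ℂ) • cx (x + s.re • (x1 - x)) + I • cx (s.im • (x1 - x)) =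
        cx x + s • cx (x1 - x) := by
      ext i
      apply Complex.ext <;> simp [cx]
    rwa [e] at this) 1
  have e : cx x + (1 : ℂ) • cx (x1 - x) = cx x1 := by
    ext i
    simp [cx]
  rw [e] at this
  norm_num at this
  exact this

end Pool.Agent.Lib.MP_eea824_ag.Gar
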