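import Pool.Agent.Lib.MP_eea824_ag.Defs
import Pool.Agent.Lib.MP_eea824_ag.Gar

/-! Homogenisation of real zero polynomials, degree collapse, factors from faces. -/

namespace Pool.Agent.Lib.MP_eea824_ag.Gar

open MvPolynomial

variable {σ τ : Type*}

lemma hom_scale (F : MvPolynomial σ ℝ) {D : ℕ} (hF : F.IsHomogeneous D) (c : ℂ) (z : σ → ℂ) :
    aeval (c • z) F = c ^ D * aeval z F := by
  conv_lhs => rw [F.as_sum]
  conv_rhs => rw [F.as_sum]
  rw [map_sum, map_sum, Finset.mul_sum]
  refine Finset.sum_congr rfl fun d hd => ?_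
  have h1 : d.degree = D := by
    have := hF (mem_support_iff.mp hd)
    rwa [Finsupp.degree_eq_weight_one]
  rw [aeval_monomial, aeval_monomial, Finsupp.prod, Finsupp.prod]
  simp only [Pi.smul_apply, smul_eq_mul, mul_pow, Finset.prod_mul_distrib,
    Finset.prod_pow_eq_pow_sum]
  rw [← h1, Finsupp.degree_apply]
  ring

lemma hp_of_hom [Fintype σ] (F : MvPolynomial σ ℝ) {D : ℕ} (hF : F.IsHomogeneous D) :
    HP (fun x : σ → ℂ => aeval x F) D where
  cont := by
    have : (fun x : σ → ℂ => aeval x F) = fun x => eval x (map (algebraMap ℝ ℂ) F) := by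
      ext x
      rw [aeval_def, eval₂_eq_eval_map]
    rw [this]
    exact continuous_eval _
  hom := fun s x => hom_scale F hF s x
  line := by
    intro x v
    refine ⟨∑ d ∈ F.support, Polynomial.C ((coeff d F : ℝ) : ℂ) *
      ∏ i ∈ d.support, (Polynomial.C (x i) + Polynomial.C (v i) * Polynomial.X) ^ d i, ?_, ?_⟩
    · refine Polynomial.natDegree_sum_le_of_forall_le _ _ fun d hd => ?_
      have h1 : d.degree = D := by
        have := hF (mem_support_iff.mp hd)
        rwa [Finsupp.degree_eq_weight_one]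
      refine (Polynomial.natDegree_C_mul_le _ _).trans ((Polynomial.natDegree_prod_le _ _).trans ?_)
      rw [← h1, Finsupp.degree_apply]
      refine Finset.sum_le_sum fun i _ => Polynomial.natDegree_pow_le.trans ?_
      have : (Polynomial.C (x i) + Polynomial.C (v i) * Polynomial.X).natDegree ≤ 1 := by
        compute_degree
      exact (Nat.mul_le_mul_left _ this).trans (by simp)
    · intro s
      rw [aeval_def, eval₂_eq]
      simp only [Polynomial.eval_finsetSum, Polynomial.eval_prod, Polynomial.eval_mul,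
        Polynomial.eval_C, Polynomial.eval_pow, Polynomial.eval_add, Polynomial.eval_X,
        Pi.add_apply, Pi.smul_apply, smul_eq_mul, mul_comm s]
      rfl

lemma aeval_cx (F : MvPolynomial σ ℝ) (x : σ → ℝ) : aeval (cx x) F = ((eval x F : ℝ) : ℂ) := by
  rw [aeval_def, eval₂_eq, eval_eq]
  simp [cx]

/-- homogenisation to degree D; the new variable is none -/
noncomputable def hg (r : MvPolynomial τ ℝ) (D : ℕ) : MvPolynomial (Option τ) ℝ :=
  ∑ j ∈ Finset.range (D + 1), X none ^ (D - j) * rename some (homogeneousComponent j r)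

lemma hg_hom (r : MvPolynomial τ ℝ) (D : ℕ) : (hg r D).IsHomogeneous D := by
  refine IsHomogeneous.sum _ _ _ fun j hj => ?_
  have := (isHomogeneous_X_pow (R := ℝ) (none : Option τ) (D - j)).mul
    ((homogeneousComponent_isHomogeneous j r).rename_isHomogeneous (f := some))
  rwa [Nat.sub_add_cancel (Nat.lt_succ_iff.mp (Finset.mem_range.mp hj))] at this

lemma hg_one (r : MvPolynomial τ ℝ) {D : ℕ} (hD : r.totalDegree ≤ D) (x : Option τ → ℂ)
    (hx : x none = 1) : aeval x (hg r D) = aeval (fun i => x (some i)) r := by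
  have e : ∑ j ∈ Finset.range (D + 1), homogeneousComponent j r = r := by
    conv_rhs => rw [← sum_homogeneousComponent r]
    symm
    refine Finset.sum_subset (Finset.range_subset_range.mpr (by omega)) fun j _ hj => ?_
    apply homogeneousComponent_eq_zero
    simpa using hj
  conv_rhs => rw [← e]
  simp only [hg, map_sum, map_mul, map_pow, aeval_X, hx, one_pow, one_mul, aeval_rename]
  rfl

lemma hg_zero (r : MvPolynomial τ ℝ) (D : ℕ) (x : Option τ → ℂ) (hx : x none = 0) :
    aeval x (hg r D) = aeval (fun i => x (some i)) (homogeneousComponent D r) := by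
  simp only [hg, map_sum, map_mul, map_pow, aeval_X, hx, aeval_rename]
  rw [Finset.sum_range_succ, Finset.sum_eq_zero]
  · simp only [Nat.sub_self, pow_zero, one_mul, zero_add]
    rfl
  · intro j hj
    rw [zero_pow (by have := Finset.mem_range.mp hj; omega), zero_mul]

lemma hg_div (r : MvPolynomial τ ℝ) {D : ℕ} (hD : r.totalDegree ≤ D) (x : Option τ → ℂ)
    (hx : x none ≠ 0) :
    aeval x (hg r D) = x none ^ D * aeval (fun i => (x none)⁻¹ * x (some i)) r := by
  have e : x = x none • ((x none)⁻¹ • x) := by rw [smul_smul, mul_inv_cancel₀ hx, one_smul]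
  conv_lhs => rw [e]
  rw [hom_scale _ (hg_hom r D), hg_one r hD _ (by simp [hx])]
  rfl

lemma hg_eval (r : MvPolynomial τ ℝ) {D : ℕ} (hD : r.totalDegree ≤ D) (x : Option τ → ℝ)
    (hx : x none ≠ 0) :
    eval x (hg r D) = x none ^ D * eval (fun i => (x none)⁻¹ * x (some i)) r := by
  have := hg_div r hD (cx x) (by simpa [cx] using hx)
  rw [aeval_cx] at this
  have e : (fun i => (cx x none)⁻¹ * cx x (some i)) = cx fun i => (x none)⁻¹ * x (some i) := by
    ext i
    simp [cx]
  rw [e, aeval_cx] at this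
  simp only [cx] at this
  exact_mod_cast this

lemma hg_ne (r : MvPolynomial τ ℝ) (hr : RZ r) {D : ℕ} (hD : r.totalDegree ≤ D)
    (x : Option τ → ℂ) (hx : (x none).im ≠ 0) (y : τ → ℝ) (hy : ∀ i, x (some i) = y i) :
    aeval x (hg r D) ≠ 0 := by
  have h0 : x none ≠ 0 := by
    intro h
    simp [h] at hx
  rw [hg_div r hD x h0]
  refine mul_ne_zero (pow_ne_zero _ h0) fun h => ?_
  simp only [hy] at h
  have := hr y _ h
  rw [Complex.inv_im] at this
  rcases div_eq_zero_iff.mp this with h | h
  · exact hx (by simpa using h)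
  · exact h0 (Complex.normSq_eq_zero.mp h)

/-- the base point (1, 0) -/
def o1 : Option τ → ℝ := fun o => o.elim 1 fun _ => 0

/-- the point at infinity (0, u) -/
def oi (u : τ → ℝ) : Option τ → ℝ := fun o => o.elim 0 u

lemma hy_hg (r : MvPolynomial τ ℝ) (hr : RZ r) {D : ℕ} (hD : r.totalDegree ≤ D) :
    Hy (fun x => aeval x (hg r D)) o1 := by
  intro y z hz
  exact hg_ne r hr hD _ (by simpa [cx, o1] using hz) (fun i => y (some i)) (by simp [cx, o1])

lemma mono' [Fintype σ] {Φ : (σ → ℂ) → ℂ} {D : ℕ} (H : HP Φ D) {w x1 x2 : σ → ℝ} (hw : Hy Φ w)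
    (h1 : x1 ∈ Cl Φ w) (h2 : x2 ∈ Cl Φ w) : ‖Φ (cx x1)‖ ≤ 2 ^ D * ‖Φ (cx (x1 + x2))‖ := by
  have hc := H.cont
  have cl : IsClosed {t : ℝ | ‖Φ (cx x1)‖ ≤ 2 ^ D * ‖Φ (cx (x1 + x2 + t • w))‖} := by
    refine isClosed_le (by fun_prop) ?_
    unfold cx
    fun_prop
  have sub : Set.Ioi (0 : ℝ) ⊆ {t : ℝ | ‖Φ (cx x1)‖ ≤ 2 ^ D * ‖Φ (cx (x1 + x2 + t • w))‖} := by
    intro t (ht : 0 < t)
    refine mono H hw (shift (cl_add H hw h1 h2) ht) h1 ?_
    rw [show x1 + x2 + t • w - x1 = x2 + t • w by abel]
    exact cl_of_mem (shift h2 ht)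
  simpa using cl.closure_subset_iff.mpr sub (show (0 : ℝ) ∈ closure (Set.Ioi 0) by simp)

lemma sum_cl [Fintype σ] {Φ : (σ → ℂ) → ℂ} {D : ℕ} (H : HP Φ D) {w : σ → ℝ} (hw : Hy Φ w)
    {ι : Type*} (s : Finset ι) (v : ι → σ → ℝ) (h : ∀ i ∈ s, v i ∈ Cl Φ w) :
    ∑ i ∈ s, v i ∈ Cl Φ w := by
  classical
  induction s using Finset.induction_on with
  | empty => simpa using zero_cl H hw
  | insert i s hi ih =>
    rw [Finset.sum_insert hi]
    exact cl_add H hw (h i (by simp)) (ih fun j hj => h j (by simp [hj]))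

/-- degree collapse: if the rays through u + e i and u - e i carry no zero of r and r grows like
t ^ d along u, then r has degree at most d -/
theorem collapse [Fintype τ] [DecidableEq τ] [Nonempty τ] (r : MvPolynomial τ ℝ) (hr : RZ r)
    (u : τ → ℝ) (d : ℕ)
    (hp : ∀ (i : τ) (t : ℝ), 0 < t → eval (t • (u + Pi.single i 1)) r ≠ 0)
    (hm : ∀ (i : τ) (t : ℝ), 0 < t → eval (t • (u - Pi.single i 1)) r ≠ 0)
    (K : ℝ) (hK : ∀ t : ℝ, 1 ≤ t → |eval (t • u) r| ≤ K * t ^ d) : r.totalDegree ≤ d := by
  by_contra hlt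
  push Not at hlt
  set D := r.totalDegree with hD
  have H := hp_of_hom _ (hg_hom r D)
  have hw := hy_hg r hr hD.ge
  have ray : ∀ v : τ → ℝ, (∀ t : ℝ, 0 < t → eval (t • v) r ≠ 0) →
      oi v ∈ Cl (fun x => aeval x (hg r D)) o1 := by
    intro v hv t ht
    simp only
    rw [aeval_cx, hg_eval r hD.ge _ (by simpa [oi, o1] using ht.ne')]
    have e : (fun i => ((oi v + t • o1 : Option τ → ℝ) none)⁻¹ *
        (oi v + t • o1 : Option τ → ℝ) (some i)) = t⁻¹ • v := by
      ext i
      simp [oi, o1]
    rw [e]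
    have := hv t⁻¹ (by positivity)
    have h2 : (oi v + t • o1 : Option τ → ℝ) none ≠ 0 := by simpa [oi, o1] using ht.ne'
    exact_mod_cast mul_ne_zero (pow_ne_zero _ h2) this
  obtain ⟨N, hN⟩ : ∃ N : ℝ, N = (Fintype.card τ : ℝ) := ⟨_, rfl⟩
  have hN1 : 1 ≤ N := by
    rw [hN]
    exact_mod_cast Fintype.card_pos
  have box : ∀ w : τ → ℝ, (∀ i, |w i| ≤ 1) →
      oi (N • u + w) ∈ Cl (fun x => aeval x (hg r D)) o1 := by
    intro w hw1
    have := sum_cl H hw Finset.univ (fun i => ((1 + w i) / 2) • oi (u + Pi.single i 1) +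
      ((1 - w i) / 2) • oi (u - Pi.single i 1)) (fun i _ => by
        have := abs_le.mp (hw1 i)
        exact cl_add H hw (smul_cl H hw (ray _ (hp i)) (by linarith))
          (smul_cl H hw (ray _ (hm i)) (by linarith)))
    convert this using 1
    ext o
    cases o with
    | none => simp [oi]
    | some j =>
      simp only [oi, Option.elim_some, Pi.add_apply, Pi.smul_apply, smul_eq_mul, Finset.sum_apply,
        Pi.sub_apply]
      have : ∀ i, (1 + w i) / 2 * (u j + (Pi.single i 1 : τ → ℝ) j) +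
          (1 - w i) / 2 * (u j - (Pi.single i 1 : τ → ℝ) j) =
          u j + w i * (Pi.single i 1 : τ → ℝ) j := fun i => by ring
      simp only [this, Finset.sum_add_distrib, Finset.sum_const, Finset.card_univ, nsmul_eq_mul]
      simp [Pi.single_apply, hN]
  have top : ∀ w : τ → ℝ, (∀ i, |w i| ≤ 1) →
      eval (N • u + w) (homogeneousComponent D r) = 0 := by
    intro w hw1
    have hc := H.cont
    have cl : IsClosed {a : ℝ | ‖aeval (cx (oi (N • u + w))) (hg r D)‖ ≤
        2 ^ D * (K * (2 * N) ^ d * a ^ (D - d))} := isClosed_le (by fun_prop) (by fun_prop)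
    have sub : Set.Ioo (0 : ℝ) 1 ⊆ {a : ℝ | ‖aeval (cx (oi (N • u + w))) (hg r D)‖ ≤
        2 ^ D * (K * (2 * N) ^ d * a ^ (D - d))} := by
      intro a ha
      have h1 := mono' H hw (box w hw1) (cl_add H hw (box (-w) (by simpa using hw1))
        (smul_cl H hw (cl_of_mem (self_mem H hw)) ha.1.le))
      refine h1.trans (mul_le_mul_of_nonneg_left ?_ (by positivity))
      have ha0 := ha.1
      rw [aeval_cx, hg_eval r hD.ge _ (by simpa [oi, o1] using ha.1.ne')]
      have e0 : (oi (N • u + w) + (oi (N • u + -w) + a • o1) : Option τ → ℝ) none = a := by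
        simp [oi, o1]
      have e : (fun i => ((oi (N • u + w) + (oi (N • u + -w) + a • o1) : Option τ → ℝ) none)⁻¹ *
          (oi (N • u + w) + (oi (N • u + -w) + a • o1) : Option τ → ℝ) (some i)) =
          (2 * N / a) • u := by
        ext i
        simp [oi, o1]
        ring
      rw [e, e0, Complex.norm_real, Real.norm_eq_abs, abs_mul, abs_of_pos (pow_pos ha.1 _)]
      have h2 := hK (2 * N / a) (by
        rw [le_div_iff₀ ha.1]
        linarith [ha.2])
      calc _ ≤ a ^ D * (K * (2 * N / a) ^ d) := mul_le_mul_of_nonneg_left h2 (by positivity)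
        _ = _ := by
          rw [div_pow, show a ^ D = a ^ (D - d) * a ^ d by rw [← pow_add, Nat.sub_add_cancel hlt.le]]
          field_simp
    have := cl.closure_subset_iff.mpr sub (show (0 : ℝ) ∈ closure (Set.Ioo 0 1) by simp)
    simp only [Set.mem_ofPred_eq] at this
    rw [zero_pow (by omega), mul_zero, mul_zero, hg_zero r D _ (by simp [cx, oi])] at this
    have e : (fun i => cx (oi (N • u + w)) (some i)) = cx (N • u + w) := by
      ext i
      simp [cx, oi]
    rw [e, aeval_cx] at this
    exact_mod_cast norm_le_zero_iff.mp this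
  have zero : homogeneousComponent D r = 0 := by
    refine funext_set (fun i => Set.Icc (N * u i - 1) (N * u i + 1))
      (fun i => Set.Icc_infinite (by linarith)) fun x hx => ?_
    have := top (x - N • u) (fun i => by
      have := hx i (Set.mem_univ _)
      simp only [Pi.sub_apply, Pi.smul_apply, smul_eq_mul]
      rw [abs_le]
      constructor <;> linarith [this.1, this.2])
    simpa using this
  have hr0 : r ≠ 0 := by
    intro h
    rw [h] at hD
    simp at hD
    omega
  obtain ⟨m, hm1, hm2⟩ := Finset.exists_mem_eq_sup r.support (support_nonempty.mpr hr0)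
    (fun s => s.sum fun _ e => e)
  have := congrArg (coeff m) zero
  rw [coeff_homogeneousComponent, if_pos (by rw [hD]; exact hm2.symm)] at this
  exact mem_support_iff.mp hm1 (by simpa using this)

/-- a polynomial vanishing on a face of the orthant has the variable as a factor -/
theorem face (P : MvPolynomial σ ℝ) (i : σ)
    (h : ∀ x : σ → ℝ, x i = 0 → (∀ j, j ≠ i → 0 < x j) → eval x P = 0) : X i ∣ P := by
  classical
  rw [X_dvd_iff_modMonomial_eq_zero]
  set R := P.modMonomial (Finsupp.single i 1) with hR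
  have e := divMonomial_add_modMonomial_single P i
  refine funext_set (fun _ => Set.Ioi (0 : ℝ)) (fun _ => Set.Ioi_infinite _) fun x hx => ?_
  have h1 := h (Function.update x i 0) (by simp) (fun j hj => by
    rw [Function.update_of_ne hj]
    exact hx j (Set.mem_univ _))
  rw [← e] at h1
  simp only [map_add, map_mul, eval_X, Function.update_self, zero_mul, zero_add] at h1
  rw [map_zero, ← h1, eval_eq, eval_eq]
  refine Finset.sum_congr rfl fun m hm => ?_
  congr 1
  refine Finset.prod_congr rfl fun j hj => ?_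
  have : j ≠ i := by
    rintro rfl
    apply mem_support_iff.mp hm
    apply coeff_modMonomial_of_le
    rw [Finsupp.single_le_iff]
    exact Nat.one_le_iff_ne_zero.mpr (Finsupp.mem_support_iff.mp hj)
  rw [Function.update_of_ne this]

lemma deg_quot {P Q : MvPolynomial σ ℝ} {i : σ} {n : ℕ} (e : P = X i * Q)
    (h : P.totalDegree ≤ n + 1) : Q.totalDegree ≤ n := by
  by_cases hQ : Q = 0
  · simp [hQ]
  · rw [e, totalDegree_mul_of_isDomain (X_ne_zero i) hQ, totalDegree_X] at h
    omega

end Pool.Agent.Lib.MP_eea824_ag.Gar
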