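import Pool.Agent.Lib.MP_eea824_ag.Cub91
import Pool.Agent.Lib.MP_eea824_ag.Hom

/-! The cubic pair in a chart where the shared direction is interior: no amalgam of any degree. -/

namespace Pool.Agent.Lib.MP_eea824_ag.Cub91

open MvPolynomial

/-- the first polynomial, variables x and y0..y3 -/
noncomputable def pb : MvPolynomial (Fin 1 ⊕ Fin 4) ℝ :=
  P8 (1 + 3 * X (.inl 0) + X (.inr 2)) (X (.inr 0)) (X (.inr 1)) (1 + 4 * X (.inl 0))
    (2 + 4 * X (.inl 0) + X (.inr 3)) (-2 * X (.inl 0))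

/-- the second polynomial, variables x and z -/
noncomputable def qb : MvPolynomial (Fin 1 ⊕ Fin 1) ℝ :=
  4 * (1 + 3 * X (.inl 0) + X (.inr 0)) * (1 + 6 * X (.inl 0)) * (3 + 2 * X (.inl 0))

lemma rz_pb : RZ pb := by
  intro a lam h
  by_cases h0 : lam = 0
  · simp [h0]
  simp only [pb, map_P8, map_add, map_mul, map_one, map_ofNat, map_neg, aeval_X] at h
  have := hyp (3 * a (.inl 0) + a (.inr 2)) (a (.inr 0)) (a (.inr 1)) (4 * a (.inl 0))
    (4 * a (.inl 0) + a (.inr 3)) (-2 * a (.inl 0)) lam⁻¹ (by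
      unfold P8 at h ⊢
      push_cast
      field_simp
      linear_combination h)
  rw [Complex.inv_im, div_eq_zero_iff] at this
  rcases this with a | a
  · simpa using a
  · exact absurd (Complex.normSq_eq_zero.1 a) h0

lemma rz_qb : RZ qb := by
  intro a lam h
  simp only [qb, map_add, map_mul, map_one, map_ofNat, aeval_X, mul_eq_zero] at h
  rcases h with ((h | h) | h) | h
  · norm_num at h
  · exact rz_lin 1 (3 * a (.inl 0) + a (.inr 0)) one_ne_zero lam
      (by push_cast; linear_combination h)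
  · exact rz_lin 1 (6 * a (.inl 0)) one_ne_zero lam (by push_cast; linear_combination h)
  · exact rz_lin 3 (2 * a (.inl 0)) (by norm_num) lam (by push_cast; linear_combination h)

lemma deg_pb : pb.totalDegree ≤ 3 := by
  refine degP ?_ (by simp) (by simp) ?_ ?_ ?_
  · simpa [map_ofNat] using deg1 1 3 1 (Sum.inl 0 : Fin 1 ⊕ Fin 4) (.inr 2)
  · simpa [map_ofNat] using deg1 1 4 0 (Sum.inl 0 : Fin 1 ⊕ Fin 4) (.inr 2)
  · simpa [map_ofNat] using deg1 2 4 1 (Sum.inl 0 : Fin 1 ⊕ Fin 4) (.inr 3)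
  · simpa [map_ofNat] using deg1 0 (-2) 0 (Sum.inl 0 : Fin 1 ⊕ Fin 4) (.inr 2)

lemma deg_qb : qb.totalDegree ≤ 3 := by
  have e : qb = (C 4 + C 12 * X (.inl 0) + C 4 * X (.inr 0)) *
      (C 1 + C 6 * X (.inl 0) + C 0 * X (.inr 0)) *
      (C 3 + C 2 * X (.inl 0) + C 0 * X (.inr 0)) := by
    simp only [qb, map_ofNat, map_one, map_zero]; ring
  rw [e, ← mem_restrictTotalDegree]
  exact deg3 (deg1 ..) (deg1 ..) (deg1 ..)

lemma agreeb : (aeval (Sum.elim X fun _ => 0) pb : MvPolynomial (Fin 1) ℝ) =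
    aeval (Sum.elim X fun _ => 0) qb := by
  simp only [pb, qb, map_P8, map_add, map_mul, map_one, map_ofNat, map_neg, aeval_X,
    Sum.elim_inl, Sum.elim_inr]
  unfold P8; ring

lemma homog {σ : Type*} (r : MvPolynomial σ ℝ)
    {S : (Option σ → ℝ) → (Option σ → ℝ) → (Option σ → ℝ) → ℝ} (h : Tri S)
    (hS : ∀ w, S (hat w) (hat w) (hat w) = eval w r) (v : Option σ → ℝ) (k0 k1 k2 k3 : ℝ)
    (hk : ∀ t : ℝ, eval (fun i => t * v (some i)) r = k0 + k1 * t + k2 * t ^ 2 + k3 * t ^ 3) :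
    S v v v = k0 * v none ^ 3 + k1 * v none ^ 2 + k2 * v none + k3 := by
  obtain ⟨w, hw⟩ : ∃ w, w = v + (-v none) • hat 0 := ⟨_, rfl⟩
  have hx : v = w + v none • hat 0 := by rw [hw]; module
  have a : ∀ t : ℝ, S (hat 0) (hat 0) (hat 0) + 3 * t * S w (hat 0) (hat 0) +
      3 * t ^ 2 * S w w (hat 0) + t ^ 3 * S w w w = k0 + k1 * t + k2 * t ^ 2 + k3 * t ^ 3 := by
    intro t
    rw [← hk, ← hS, hat_smul, ← hw, h.cube, h.s23 _ (hat 0) w, h.s12 (hat 0) w (hat 0),
      h.s12 (hat 0) w w, h.s23 w (hat 0) w]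
  have b0 := h.cube (v none) w (hat 0)
  rw [← hx] at b0
  have a0 := a 0
  have a1 := a 1
  have a2 := a (-1)
  have a3 := a 2
  have c0 : S (hat 0) (hat 0) (hat 0) = k0 := by linarith
  have c1 : S w (hat 0) (hat 0) = k1 / 3 := by linarith
  have c2 : S w w (hat 0) = k2 / 3 := by linarith
  have c3 : S w w w = k3 := by linarith
  rw [b0, c0, c1, c2, c3]; ring

theorem no_amalgam3 (r : MvPolynomial (Fin 1 ⊕ Fin 4 ⊕ Fin 1) ℝ) (hr : RZ r)
    (hd : r.totalDegree ≤ 3)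
    (hp : ∀ (x : ℝ) (y : Fin 4 → ℝ), eval (Sum.elim (fun _ => x) (Sum.elim y fun _ => 0)) r =
      P8 (1 + 3 * x + y 2) (y 0) (y 1) (1 + 4 * x) (2 + 4 * x + y 3) (-2 * x))
    (hq : ∀ x z : ℝ, eval (Sum.elim (fun _ => x) (Sum.elim (fun _ => 0) fun _ => z)) r =
      4 * (1 + 3 * x + z) * (1 + 6 * x) * (3 + 2 * x)) : False := by
  obtain ⟨S, h, hS⟩ := exTri r hd
  let pt : ℝ → ℝ → (Fin 4 → ℝ) → ℝ → Option (Fin 1 ⊕ Fin 4 ⊕ Fin 1) → ℝ := fun s x y z o =>
    o.elim s (Sum.elim (fun _ => x) (Sum.elim y fun _ => z))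
  let g : Fin 7 → Option (Fin 1 ⊕ Fin 4 ⊕ Fin 1) → ℝ :=
    ![pt 0 0 ![0, 0, 1, 0] 0, pt 0 0 ![1, 0, 0, 0] 0, pt 0 0 ![0, 1, 0, 0] 0,
      pt 1 0 ![0, 0, -1, -2] 0, pt 0 0 ![0, 0, 0, 1] 0, pt 2 (-1 / 2) ![0, 0, -1 / 2, -2] 0,
      pt 0 0 ![0, 0, 0, 0] 1]
  have hv : ∀ m a b A B c z : ℝ, vec g m a b A B c z =
      pt (A + 2 * c) (-c / 2) ![a, b, m - A - c / 2, B - 2 * A - 2 * c] z := by
    intro m a b A B c z
    funext o
    rcases o with _ | i | i | i
    · simp [vec, g, pt]; ring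
    · simp [vec, g, pt]; ring
    · fin_cases i <;> simp [vec, g, pt] <;> ring
    · simp [vec, g, pt]
  have he : vec g 1 0 0 1 2 0 0 = hat 0 := by
    rw [hv]
    funext o
    rcases o with _ | i | i | i
    · simp [pt, hat]
    · simp [pt, hat]
    · fin_cases i <;> simp [pt, hat]
    · simp [pt, hat]
  refine core h g (fun x => by rw [he]; exact newton r hr h hS x) ?_ ?_
  · intro m a b A B c
    obtain ⟨m', rfl⟩ : ∃ m', m = m' + (A + 2 * c) := ⟨m - (A + 2 * c), by ring⟩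
    obtain ⟨B', rfl⟩ : ∃ B', B = B' + 2 * (A + 2 * c) := ⟨B - 2 * (A + 2 * c), by ring⟩
    rw [homog r h hS _ 12 (28 * m' - 16 * c) (-64 * m' * c + 12 * m' * B' - 16 * c * B'
      - 64 * c ^ 2 - 5 * B' ^ 2 - 16 * a ^ 2 - 7 * b ^ 2 - 8 * c ^ 2)
      (P8 m' a b (-2 * c) B' c), hv]
    · simp only [pt, Option.elim, P8]; ring
    · intro t
      have := hp (t * (-c / 2)) ![t * a, t * b, t * (m' + 3 * c / 2), t * (B' + 2 * c)]
      simp only [Matrix.cons_val_zero, Matrix.cons_val_one, Matrix.cons_val] at this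
      rw [hv]
      refine Eq.trans ?_ (this.trans (by unfold P8; ring))
      congr 2
      funext o
      rcases o with i | i | i
      · simp [pt]
      · fin_cases i <;> simp [pt] <;> left <;> ring
      · simp [pt]
  · intro s x z
    obtain ⟨s', rfl⟩ : ∃ s', s = s' + 2 * x := ⟨s - 2 * x, by ring⟩
    rw [homog r h hS _ 12 (116 * x + 12 * z) (288 * x ^ 2 + 80 * x * z)
      (144 * x ^ 3 + 48 * x ^ 2 * z), hv]
    · simp only [pt, Option.elim]; ring
    · intro t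
      have := hq (t * x) (t * z)
      rw [hv]
      refine Eq.trans ?_ (this.trans (by ring))
      congr 2
      funext o
      rcases o with i | i | i
      · simp [pt]
      · fin_cases i <;> simp [pt] <;> right <;> ring
      · simp [pt]

lemma ppos (t x : ℝ) (y : Fin 4 → ℝ) (ht : 0 < t)
    (h : (x = 11 * t ∧ y = 0) ∨ (x = 9 * t ∧ y = 0) ∨ (x = 10 * t ∧ y = 0) ∨
      (x = 10 * t ∧ ∃ j, y = Pi.single j t ∨ y = Pi.single j (-t))) :
    0 < P8 (1 + 3 * x + y 2) (y 0) (y 1) (1 + 4 * x) (2 + 4 * x + y 3) (-2 * x) := by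
  have h2 : 0 < t ^ 2 := by positivity
  have h3 : 0 < t ^ 3 := by positivity
  rcases h with ⟨rfl, rfl⟩ | ⟨rfl, rfl⟩ | ⟨rfl, rfl⟩ | ⟨rfl, j, rfl | rfl⟩
  · simp only [P8, Pi.zero_apply]; nlinarith
  · simp only [P8, Pi.zero_apply]; nlinarith
  · simp only [P8, Pi.zero_apply]; nlinarith
  · fin_cases j <;> simp [P8] <;> nlinarith
  · fin_cases j <;> simp [P8] <;> nlinarith

/-- no amalgam of any degree, evaluation form -/
theorem no_amalgam_any (r : MvPolynomial (Fin 1 ⊕ Fin 4 ⊕ Fin 1) ℝ) (hr : RZ r)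
    (hp : ∀ (x : ℝ) (y : Fin 4 → ℝ), eval (Sum.elim (fun _ => x) (Sum.elim y fun _ => 0)) r =
      P8 (1 + 3 * x + y 2) (y 0) (y 1) (1 + 4 * x) (2 + 4 * x + y 3) (-2 * x))
    (hq : ∀ x z : ℝ, eval (Sum.elim (fun _ => x) (Sum.elim (fun _ => 0) fun _ => z)) r =
      4 * (1 + 3 * x + z) * (1 + 6 * x) * (3 + 2 * x)) : False := by
  refine no_amalgam3 r hr ?_ hp hq
  let u : Fin 1 ⊕ Fin 4 ⊕ Fin 1 → ℝ := Sum.elim (fun _ => 10) fun _ => 0
  have ev : ∀ v : Fin 1 ⊕ Fin 4 ⊕ Fin 1 → ℝ, v = Sum.elim (fun _ => v (.inl 0))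
      (Sum.elim (fun j => v (.inr (.inl j))) fun _ => v (.inr (.inr 0))) := by
    intro v
    funext o
    rcases o with i | i | i
    · rw [Subsingleton.elim i 0]; rfl
    · rfl
    · rw [Subsingleton.elim i 0]; rfl
  have k2 : ∀ v : Fin 1 ⊕ Fin 4 ⊕ Fin 1 → ℝ, (∀ j, v (.inr (.inl j)) = 0) → eval v r =
      4 * (1 + 3 * v (.inl 0) + v (.inr (.inr 0))) * (1 + 6 * v (.inl 0)) *
        (3 + 2 * v (.inl 0)) := by
    intro v hv
    have := hq (v (.inl 0)) (v (.inr (.inr 0)))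
    rw [← this]
    conv_lhs => rw [ev v]
    simp only [hv]
  refine Gar.collapse r hr u 3 ?_ ?_ 200000 ?_
  · rintro (i | i | i) t ht
    · rw [k2 _ (by simp [u]), Subsingleton.elim i 0]
      simp only [u, Pi.smul_apply, Pi.add_apply, smul_eq_mul]
      simp
      refine ⟨⟨?_, ?_⟩, ?_⟩ <;> positivity
    · have e : t • (u + Pi.single (.inr (.inl i)) 1) =
          Sum.elim (fun _ => 10 * t) (Sum.elim (Pi.single i t) fun _ => 0) := by
        funext o
        rcases o with j | j | j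
        · simp [u, mul_comm]
        · by_cases hj : j = i <;> simp [u, hj]
        · simp [u]
      rw [e, hp]
      exact (ppos t _ _ ht (Or.inr (Or.inr (Or.inr ⟨rfl, i, Or.inl rfl⟩)))).ne'
    · rw [k2 _ (by simp [u]), Subsingleton.elim i 0]
      simp only [u, Pi.smul_apply, Pi.add_apply, smul_eq_mul]
      simp
      refine ⟨⟨?_, ?_⟩, ?_⟩ <;> positivity
  · rintro (i | i | i) t ht
    · rw [k2 _ (by simp [u]), Subsingleton.elim i 0]
      simp only [u, Pi.smul_apply, Pi.sub_apply, smul_eq_mul]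
      simp
      refine ⟨⟨?_, ?_⟩, ?_⟩ <;> intro h <;> linarith
    · have e : t • (u - Pi.single (.inr (.inl i)) 1) =
          Sum.elim (fun _ => 10 * t) (Sum.elim (Pi.single i (-t)) fun _ => 0) := by
        funext o
        rcases o with j | j | j
        · simp [u, mul_comm]
        · by_cases hj : j = i <;> simp [u, hj]
        · simp [u]
      rw [e, hp]
      exact (ppos t _ _ ht (Or.inr (Or.inr (Or.inr ⟨rfl, i, Or.inr rfl⟩)))).ne'
    · rw [k2 _ (by simp [u]), Subsingleton.elim i 0]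
      simp only [u, Pi.smul_apply, Pi.sub_apply, smul_eq_mul]
      simp
      refine ⟨⟨?_, ?_⟩, ?_⟩ <;> intro h <;> linarith
  · intro t ht
    rw [k2 _ (by simp [u])]
    simp only [u, Pi.smul_apply, smul_eq_mul, Sum.elim_inl, Sum.elim_inr]
    rw [abs_of_nonneg (by positivity)]
    have h1 : t ≤ t ^ 2 := by nlinarith
    have h2 : t ^ 2 ≤ t ^ 3 := by nlinarith
    nlinarith

/-- one shared variable, degree three, no amalgam of any degree -/
theorem cubic_any :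
    ∃ (p : MvPolynomial (Fin 1 ⊕ Fin 4) ℝ) (q : MvPolynomial (Fin 1 ⊕ Fin 1) ℝ),
    RZ p ∧ RZ q ∧ p.totalDegree ≤ 3 ∧ q.totalDegree ≤ 3 ∧
    (aeval (Sum.elim X fun _ => 0) p : MvPolynomial (Fin 1) ℝ) =
      aeval (Sum.elim X fun _ => 0) q ∧
    ¬ ∃ r : MvPolynomial (Fin 1 ⊕ Fin 4 ⊕ Fin 1) ℝ, RZ r ∧
      aeval (Sum.elim (fun i => X (.inl i)) (Sum.elim (fun j => X (.inr j)) fun _ => 0)) r = p ∧
      aeval (Sum.elim (fun i => X (.inl i)) (Sum.elim (fun _ => 0) fun k => X (.inr k))) r = q := by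
  refine ⟨pb, qb, rz_pb, rz_qb, deg_pb, deg_qb, agreeb, ?_⟩
  rintro ⟨r, hr, h1, h2⟩
  refine no_amalgam_any r hr (fun x y => ?_) fun x z => ?_
  · have := congrArg (aeval (R := ℝ) (Sum.elim (fun _ => x) y)) h1
    rw [← AlgHom.comp_apply, comp_aeval] at this
    simp only [pb, map_P8, map_add, map_mul, map_one, map_ofNat, map_neg, aeval_X,
      Sum.elim_inl, Sum.elim_inr] at this
    rw [← this, ← coe_aeval_eq_eval]
    change aeval _ r = aeval _ r
    congr 2
    funext o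
    rcases o with i | i | i <;> simp
  · have := congrArg (aeval (R := ℝ) (Sum.elim (fun _ => x) fun _ => z)) h2
    rw [← AlgHom.comp_apply, comp_aeval] at this
    simp only [qb, map_add, map_mul, map_one, map_ofNat, aeval_X,
      Sum.elim_inl, Sum.elim_inr] at this
    rw [← this, ← coe_aeval_eq_eval]
    change aeval _ r = aeval _ r
    congr 2
    funext o
    rcases o with i | i | i <;> simp

end Pool.Agent.Lib.MP_eea824_ag.Cub91
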