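import Mathlib

namespace Pool.Agent.Lib.MP_eea824_ag

open MvPolynomial

/-- real zero polynomial: for every real vector a, all complex lam with f (lam a) = 0 are real -/
def RZ {σ : Type*} (f : MvPolynomial σ ℝ) : Prop :=
  ∀ (a : σ → ℝ) (lam : ℂ), aeval (fun i => lam * (a i : ℂ)) f = 0 → lam.im = 0

end Pool.Agent.Lib.MP_eea824_ag
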