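import Mathlib

/-! The specialised Vamos quartic is hyperbolic in direction (1,1,1,0). -/

namespace Pool.Agent.Lib.MP_eea824_ag.Vam

open Polynomial

/-- no root off the real axis -/
def RR (g : ℂ[X]) : Prop := ∀ z : ℂ, z.im ≠ 0 → g.eval z ≠ 0

lemma im_prod (s : Multiset ℂ) (hs : ∀ r ∈ s, r.im = 0) (z : ℂ) (hz : z.im ≠ 0) :
    z.im * ((derivative (s.map fun r => X - C r).prod).eval z *
        (starRingEnd ℂ) (((s.map fun r => X - C r).prod).eval z)).im ≤ 0 ∧ (s ≠ 0 → z.im * ((derivative (s.map fun r => X - C r).prod).eval z *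
        (starRingEnd ℂ) (((s.map fun r => X - C r).prod).eval z)).im < 0) ∧
      ((s.map fun r => X - C r).prod).eval z ≠ 0 := by
  induction s using Multiset.induction_on with
  | empty => simp
  | cons r s ih =>
    obtain ⟨h1, -, h3⟩ := ih (fun x hx => hs x (Multiset.mem_cons_of_mem hx))
    have hr : r.im = 0 := hs r (Multiset.mem_cons_self _ _)
    have hzr : z - r ≠ 0 := by
      intro h
      have := congrArg Complex.im h
      simp [hr] at this
      exact hz this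
    simp only [Multiset.map_cons, Multiset.prod_cons, derivative_mul, eval_add, eval_mul,
      derivative_sub, derivative_X, derivative_C, sub_zero, one_mul, eval_sub, eval_X,
      eval_C, map_mul]
    set Q := ((s.map fun r => X - C r).prod).eval z with hQ
    set Q' := (derivative (s.map fun r => X - C r).prod).eval z with hQ'
    have h1' : z.im * (Q' * (starRingEnd ℂ) Q).im ≤ 0 := by simpa using h1
    have hn : 0 < Complex.normSq Q := Complex.normSq_pos.mpr h3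
    have key : z.im * ((Q + (z - r) * Q') * ((starRingEnd ℂ) (z - r) * (starRingEnd ℂ) Q)).im =
        -(z.im ^ 2 * Complex.normSq Q) +
          Complex.normSq (z - r) * (z.im * (Q' * (starRingEnd ℂ) Q).im) := by
      simp [Complex.normSq_apply, hr]
      ring
    have hlt : z.im * ((Q + (z - r) * Q') * ((starRingEnd ℂ) (z - r) * (starRingEnd ℂ) Q)).im
        < 0 := by
      rw [key]
      have a1 : 0 < z.im ^ 2 * Complex.normSq Q := by positivity
      have a2 : Complex.normSq (z - r) * (z.im * (Q' * (starRingEnd ℂ) Q).im) ≤ 0 :=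
        mul_nonpos_of_nonneg_of_nonpos (Complex.normSq_nonneg _) h1'
      linarith
    exact ⟨hlt.le, fun _ => hlt, mul_ne_zero hzr h3⟩

lemma roots_real {g : ℂ[X]} (hg : RR g) : ∀ r ∈ g.roots, r.im = 0 := by
  intro r hr
  by_contra h
  exact hg r h (isRoot_of_mem_roots hr)

lemma im_ne {g : ℂ[X]} (hg : RR g) (hd : g.natDegree ≠ 0) (z : ℂ) (hz : z.im ≠ 0) :
    ((derivative g).eval z * (starRingEnd ℂ) (g.eval z)).im ≠ 0 := by
  have hc : Multiset.card g.roots = g.natDegree := IsAlgClosed.card_roots_eq_natDegree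
  have hf := C_leadingCoeff_mul_prod_multiset_X_sub_C hc
  have hs : g.roots ≠ 0 := by
    intro h
    rw [h] at hc
    exact hd (by simpa using hc.symm)
  have h2 := (im_prod g.roots (roots_real hg) z hz).2.1 hs
  have hl : g.leadingCoeff ≠ 0 := by
    intro h
    rw [leadingCoeff_eq_zero] at h
    exact hd (by simp [h])
  set P := (g.roots.map fun r => X - C r).prod with hP
  rw [← hf]
  have e : ((derivative (C g.leadingCoeff * P)).eval z *
      (starRingEnd ℂ) ((C g.leadingCoeff * P).eval z)) =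
      (Complex.normSq g.leadingCoeff : ℂ) * ((derivative P).eval z * (starRingEnd ℂ) (P.eval z)) := by
    rw [Complex.normSq_eq_conj_mul_self]
    simp
    ring
  rw [e]
  have hn : 0 < Complex.normSq g.leadingCoeff := Complex.normSq_pos.mpr hl
  simp only [Complex.mul_im, Complex.ofReal_re, Complex.ofReal_im, zero_mul, add_zero] at h2 ⊢
  intro h
  rcases mul_eq_zero.mp h with h | h
  · exact hn.ne' h
  · rw [h] at h2
    simp at h2

lemma step {g : ℂ[X]} (hg : RR g) (hd : g.natDegree ≠ 0) (s t : ℝ) (h : s ≠ 0 ∨ t ≠ 0) :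
    RR (C (s : ℂ) * g + C (t : ℂ) * derivative g) := by
  intro z hz h0
  simp only [eval_add, eval_mul, eval_C] at h0
  have h1 := im_ne hg hd z hz
  have h2 : ((s : ℂ) * g.eval z + (t : ℂ) * (derivative g).eval z) *
      (starRingEnd ℂ) (g.eval z) = 0 := by rw [h0, zero_mul]
  have h3 : t * ((derivative g).eval z * (starRingEnd ℂ) (g.eval z)).im = 0 := by
    have := congrArg Complex.im h2
    simp at this ⊢
    have h4 : t * ((eval z (derivative g)).im * (eval z g).re -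
      (eval z (derivative g)).re * (eval z g).im) = 0 := by linarith
    rcases mul_eq_zero.mp h4 with h5 | h5
    · exact Or.inl h5
    · right; linarith
  have ht : t = 0 := by
    rcases mul_eq_zero.mp h3 with h4 | h4
    · exact h4
    · exact absurd h4 h1
  have hs : s ≠ 0 := by
    rcases h with h | h
    · exact h
    · exact absurd ht h
  rw [ht] at h0
  simp [hs] at h0
  exact hg z hz h0

/-- polynomial with given real coefficients -/
noncomputable def pl (c0 c1 c2 c3 c4 c5 c6 : ℝ) : ℂ[X] :=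
  C (c0 : ℂ) + C (c1 : ℂ) * X + C (c2 : ℂ) * X ^ 2 + C (c3 : ℂ) * X ^ 3 + C (c4 : ℂ) * X ^ 4 +
    C (c5 : ℂ) * X ^ 5 + C (c6 : ℂ) * X ^ 6

lemma pl_eval (c0 c1 c2 c3 c4 c5 c6 : ℝ) (z : ℂ) : (pl c0 c1 c2 c3 c4 c5 c6).eval z =
    c0 + c1 * z + c2 * z ^ 2 + c3 * z ^ 3 + c4 * z ^ 4 + c5 * z ^ 5 + c6 * z ^ 6 := by
  simp [pl]

lemma pl_der (c0 c1 c2 c3 c4 c5 c6 : ℝ) (z : ℂ) :
    (derivative (pl c0 c1 c2 c3 c4 c5 c6)).eval z =
    c1 + 2 * c2 * z + 3 * c3 * z ^ 2 + 4 * c4 * z ^ 3 + 5 * c5 * z ^ 4 + 6 * c6 * z ^ 5 := by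
  simp [pl]
  ring

lemma pl_deg (c0 c1 c2 c3 c4 c5 c6 : ℝ) (h : c4 ≠ 0 ∨ c5 ≠ 0 ∨ c6 ≠ 0) :
    (pl c0 c1 c2 c3 c4 c5 c6).natDegree ≠ 0 := by
  intro h0
  have e := eq_C_of_natDegree_eq_zero h0
  have h4 := congrArg (fun p => coeff p 4) e
  have h5 := congrArg (fun p => coeff p 5) e
  have h6 := congrArg (fun p => coeff p 6) e
  simp [pl, coeff_X, coeff_C, coeff_X_pow] at h4 h5 h6
  tauto

lemma pl_step {c0 c1 c2 c3 c4 c5 c6 : ℝ} (hg : RR (pl c0 c1 c2 c3 c4 c5 c6))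
    (h : c4 ≠ 0 ∨ c5 ≠ 0 ∨ c6 ≠ 0) (s t : ℝ) (hst : s ≠ 0 ∨ t ≠ 0) :
    RR (pl (s * c0 + t * c1) (s * c1 + 2 * t * c2) (s * c2 + 3 * t * c3) (s * c3 + 4 * t * c4)
      (s * c4 + 5 * t * c5) (s * c5 + 6 * t * c6) (s * c6)) := by
  intro z hz h0
  apply step hg (pl_deg _ _ _ _ _ _ _ h) s t hst z hz
  rw [pl_eval] at h0
  simp only [eval_add, eval_mul, eval_C, pl_eval, pl_der]
  rw [← h0]
  push_cast
  ring

/-- a real rooted quartic with negative middle coefficient has roots on both sides of 0 -/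
lemma two_roots {c0 c1 c2 c3 c4 : ℝ} (hg : RR (pl c0 c1 c2 c3 c4 0 0)) (h4 : 0 < c4)
    (h2 : c2 < 0) :
    ∃ u v : ℝ, u < 0 ∧ 0 < v ∧ c0 + c1 * u + c2 * u ^ 2 + c3 * u ^ 3 + c4 * u ^ 4 = 0 ∧
      c0 + c1 * v + c2 * v ^ 2 + c3 * v ^ 3 + c4 * v ^ 4 = 0 := by
  set g := pl c0 c1 c2 c3 c4 0 0 with hgd
  have hdeg : g.natDegree = 4 := by
    rw [hgd, pl]
    simp only [Complex.ofReal_zero, map_zero, zero_mul, add_zero]
    compute_degree!
    exact h4.ne'
  have hlc : g.leadingCoeff = c4 := by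
    rw [leadingCoeff, hdeg, hgd]
    simp [pl, coeff_X_pow]
  have hc : Multiset.card g.roots = g.natDegree := IsAlgClosed.card_roots_eq_natDegree
  have hf := C_leadingCoeff_mul_prod_multiset_X_sub_C hc
  have hre := roots_real hg
  rw [hdeg] at hc
  obtain ⟨x, y, z, w, hr⟩ := Multiset.card_eq_four.mp hc
  rw [hr] at hf hre
  obtain ⟨x, rfl⟩ : ∃ t : ℝ, x = t := ⟨x.re, Complex.ext rfl (by simpa using hre x (by simp))⟩
  obtain ⟨y, rfl⟩ : ∃ t : ℝ, y = t := ⟨y.re, Complex.ext rfl (by simpa using hre y (by simp))⟩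
  obtain ⟨z, rfl⟩ : ∃ t : ℝ, z = t := ⟨z.re, Complex.ext rfl (by simpa using hre z (by simp))⟩
  obtain ⟨w, rfl⟩ : ∃ t : ℝ, w = t := ⟨w.re, Complex.ext rfl (by simpa using hre w (by simp))⟩
  have ev : ∀ t : ℝ, c0 + c1 * t + c2 * t ^ 2 + c3 * t ^ 3 + c4 * t ^ 4 =
      c4 * ((t - x) * ((t - y) * ((t - z) * (t - w)))) := by
    intro t
    have := congrArg (eval (t : ℂ)) hf
    rw [hlc, hgd, pl_eval] at this
    simp at this
    exact_mod_cast this.symm
  have e2 : c2 = c4 * (x * y + x * z + x * w + y * z + y * w + z * w) := by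
    have a := ev 1
    have b := ev (-1)
    have c := ev 0
    linarith
  have neg : x < 0 ∨ y < 0 ∨ z < 0 ∨ w < 0 := by
    by_contra hh
    push Not at hh
    obtain ⟨a, b, c, d⟩ := hh
    have : 0 ≤ c4 * (x * y + x * z + x * w + y * z + y * w + z * w) := by positivity
    linarith
  have pos : 0 < x ∨ 0 < y ∨ 0 < z ∨ 0 < w := by
    by_contra hh
    push Not at hh
    obtain ⟨a, b, c, d⟩ := hh
    have : 0 ≤ x * y + x * z + x * w + y * z + y * w + z * w := by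
      have := mul_nonneg_of_nonpos_of_nonpos a b
      have := mul_nonneg_of_nonpos_of_nonpos a c
      have := mul_nonneg_of_nonpos_of_nonpos a d
      have := mul_nonneg_of_nonpos_of_nonpos b c
      have := mul_nonneg_of_nonpos_of_nonpos b d
      have := mul_nonneg_of_nonpos_of_nonpos c d
      linarith
    have : 0 ≤ c4 * (x * y + x * z + x * w + y * z + y * w + z * w) := by positivity
    linarith
  have hu : ∃ u : ℝ, u < 0 ∧ c0 + c1 * u + c2 * u ^ 2 + c3 * u ^ 3 + c4 * u ^ 4 = 0 := by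
    rcases neg with h | h | h | h
    exacts [⟨x, h, by rw [ev]; ring⟩, ⟨y, h, by rw [ev]; ring⟩, ⟨z, h, by rw [ev]; ring⟩,
      ⟨w, h, by rw [ev]; ring⟩]
  have hv : ∃ u : ℝ, 0 < u ∧ c0 + c1 * u + c2 * u ^ 2 + c3 * u ^ 3 + c4 * u ^ 4 = 0 := by
    rcases pos with h | h | h | h
    exacts [⟨x, h, by rw [ev]; ring⟩, ⟨y, h, by rw [ev]; ring⟩, ⟨z, h, by rw [ev]; ring⟩,
      ⟨w, h, by rw [ev]; ring⟩]
  obtain ⟨u, hu, hu'⟩ := hu
  obtain ⟨v, hv, hv'⟩ := hv
  exact ⟨u, v, hu, hv, hu', hv'⟩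

/-- weak sign pattern minus, plus, minus forces a quartic to be real rooted -/
lemma quartic {h0 h1 h2 h3 h4 u v : ℝ} (p4 : 0 < h4) (hu : u < 0) (hv : 0 < v) (p0 : 0 ≤ h0)
    (pu : h0 + h1 * u + h2 * u ^ 2 + h3 * u ^ 3 + h4 * u ^ 4 ≤ 0)
    (pv : h0 + h1 * v + h2 * v ^ 2 + h3 * v ^ 3 + h4 * v ^ 4 ≤ 0) (z : ℂ) (hz : z.im ≠ 0) :
    (h0 : ℂ) + h1 * z + h2 * z ^ 2 + h3 * z ^ 3 + h4 * z ^ 4 ≠ 0 := by
  intro e
  set x := z.re with hx
  set y := z.im with hy
  set N := x ^ 2 + y ^ 2 with hN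
  set p := h3 + 2 * x * h4 with hp
  set q := h2 + 2 * x * p - h4 * N with hq
  set r1 := h1 + 2 * x * q - N * p with hr1
  set r0 := h0 - N * q with hr0
  have hz0 : z ^ 2 - 2 * x * z + N = 0 := by
    apply Complex.ext <;> simp [hN, pow_two, ← hx, ← hy] <;> ring
  have hr : (r1 : ℂ) * z + r0 = 0 := by
    have : (r1 : ℂ) * z + r0 = ((h0 : ℂ) + h1 * z + h2 * z ^ 2 + h3 * z ^ 3 + h4 * z ^ 4) -
        (z ^ 2 - 2 * x * z + N) * (h4 * z ^ 2 + p * z + q) := by
      simp only [hr1, hr0, hq, hp]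
      push_cast
      ring
    rw [this, e, hz0]
    ring
  have e1 : r1 = 0 := by
    have := congrArg Complex.im hr
    simp [← hy] at this
    tauto
  have e0 : r0 = 0 := by
    have := congrArg Complex.re hr
    simpa [e1] using this
  have fac : ∀ t : ℝ, h0 + h1 * t + h2 * t ^ 2 + h3 * t ^ 3 + h4 * t ^ 4 =
      ((t - x) ^ 2 + y ^ 2) * (h4 * t ^ 2 + p * t + q) := by
    intro t
    have : h0 + h1 * t + h2 * t ^ 2 + h3 * t ^ 3 + h4 * t ^ 4 =
      ((t - x) ^ 2 + y ^ 2) * (h4 * t ^ 2 + p * t + q) + r1 * t + r0 := by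
      simp only [hr1, hr0, hq, hp, hN]
      ring
    rw [this, e1, e0]
    ring
  have hy2 : 0 < y ^ 2 := by positivity
  have ku : h4 * u ^ 2 + p * u + q ≤ 0 := by
    rw [fac] at pu
    by_contra hh
    push Not at hh
    have : 0 < ((u - x) ^ 2 + y ^ 2) * (h4 * u ^ 2 + p * u + q) := by positivity
    linarith
  have kv : h4 * v ^ 2 + p * v + q ≤ 0 := by
    rw [fac] at pv
    by_contra hh
    push Not at hh
    have : 0 < ((v - x) ^ 2 + y ^ 2) * (h4 * v ^ 2 + p * v + q) := by positivity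
    linarith
  have k0 : 0 ≤ q := by
    have f0 := fac 0
    by_contra hh
    push Not at hh
    have : 0 < ((0 - x) ^ 2 + y ^ 2) * (-q) := by
      apply mul_pos
      · positivity
      · linarith
    nlinarith
  have a1 := mul_nonneg hv.le (neg_nonneg.mpr ku)
  have a2 := mul_nonneg (neg_nonneg.mpr hu.le) (neg_nonneg.mpr kv)
  have a3 : 0 < h4 * (-u) * v * (v - u) := by
    have : 0 < -u := by linarith
    have : 0 < v - u := by linarith
    positivity
  have a4 := mul_nonneg k0 (show 0 ≤ v - u by linarith)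
  nlinarith

lemma hyp0 (a c d e : ℝ) (hs : a + c + d + e = 0) (he : e ≠ 0) (z : ℂ) (hz : z.im ≠ 0) :
    (z + a) ^ 2 * e ^ 2 + 4 * ((z + a) + (z + c) + (z + d) + e) *
      ((z + a) * (z + c) * (z + d) +
        ((z + a) * (z + c) + (z + a) * (z + d) + (z + c) * (z + d)) * e) ≠ 0 := by
  obtain ⟨s2, hs2⟩ : ∃ s, s = a * c + a * d + c * d := ⟨_, rfl⟩
  obtain ⟨s3, hs3⟩ : ∃ s, s = a * c * d := ⟨_, rfl⟩
  obtain rfl : e = -(a + c + d) := by linarith
  obtain ⟨s1, hs1⟩ : ∃ s, s = a + c + d := ⟨_, rfl⟩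
  have ne : ∀ (t : ℝ) (w : ℂ), w.im ≠ 0 → w + t ≠ 0 := by
    intro t w hw h
    have := congrArg Complex.im h
    simp at this
    exact hw this
  have r0 : RR (pl (s3 ^ 2) (2 * s2 * s3) (s2 ^ 2 + 2 * s1 * s3) (2 * s3 + 2 * s1 * s2)
      (s1 ^ 2 + 2 * s2) (2 * s1) 1) := by
    intro w hw h
    rw [pl_eval] at h
    have : ((w + a) * (w + c) * (w + d)) ^ 2 = 0 := by
      rw [← h, hs1, hs2, hs3]
      push_cast
      ring
    exact pow_ne_zero 2 (mul_ne_zero (mul_ne_zero (ne a w hw) (ne c w hw)) (ne d w hw)) this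
  have r1 := pl_step r0 (by simp) 0 1 (by simp)
  have r2 := pl_step r1 (by norm_num) 0 1 (by simp)
  have r3 := pl_step r2 (by norm_num) 1 (-s1 / 6) (by simp)
  have r4 := pl_step r3 (by norm_num) 1 (-s1 / 2) (by simp)
  have hs1' : s1 ≠ 0 := by
    intro h
    apply he
    rw [← hs1, h, neg_zero]
  have hq : 0 < s1 ^ 2 := by positivity
  have h23 : 3 * s2 ≤ s1 ^ 2 := by
    rw [hs1, hs2]
    nlinarith [sq_nonneg (a - c), sq_nonneg (a - d), sq_nonneg (c - d)]
  have r5 : RR (pl (2 * s2 ^ 2 - 4 * s1 * s3 - 4 * s1 ^ 2 * s2 + 2 * s1 ^ 4)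
      (12 * s3 - 20 * s1 * s2 + 4 * s1 ^ 3) (24 * s2 - 38 * s1 ^ 2) (-40 * s1) 30 0 0) := by
    convert r4 using 2 <;> ring
  obtain ⟨u, v, hu, hv, pu, pv⟩ := two_roots r5 (by norm_num) (by linarith)
  have cmp : ∀ t : ℝ, a ^ 2 * s1 ^ 2 + (12 * (s3 - s1 * s2) + 2 * a * s1 ^ 2) * t +
      (12 * s2 - 23 * s1 ^ 2) * t ^ 2 + (-24 * s1) * t ^ 3 + 12 * t ^ 4 =
      ((2 * s2 ^ 2 - 4 * s1 * s3 - 4 * s1 ^ 2 * s2 + 2 * s1 ^ 4) +
      (12 * s3 - 20 * s1 * s2 + 4 * s1 ^ 3) * t + (24 * s2 - 38 * s1 ^ 2) * t ^ 2 +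
        (-40 * s1) * t ^ 3 + 30 * t ^ 4) / 2 -
      (((t + a) * (t + c)) ^ 2 + ((t + a) * (t + d)) ^ 2 + ((t + c) * (t + d)) ^ 2 +
        ((t + c) * s1) ^ 2 + ((t + d) * s1) ^ 2) := by
    intro t
    rw [hs1, hs2, hs3]
    ring
  have key := quartic (h0 := a ^ 2 * s1 ^ 2) (h1 := 12 * (s3 - s1 * s2) + 2 * a * s1 ^ 2)
    (h2 := 12 * s2 - 23 * s1 ^ 2) (h3 := -24 * s1) (h4 := 12) (by norm_num) hu hv (by positivity)
    (by rw [cmp, pu]; simp only [zero_div, zero_sub, neg_nonpos]; positivity)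
    (by rw [cmp, pv]; simp only [zero_div, zero_sub, neg_nonpos]; positivity) z hz
  intro h
  apply key
  rw [← h, hs1, hs2, hs3]
  push_cast
  ring

/-- h(z+a, z+c, z+d, e) has no zero off the real axis -/
theorem hyp (a c d e : ℝ) (z : ℂ) (hz : z.im ≠ 0) :
    (z + a) ^ 2 * e ^ 2 + 4 * ((z + a) + (z + c) + (z + d) + e) *
      ((z + a) * (z + c) * (z + d) +
        ((z + a) * (z + c) + (z + a) * (z + d) + (z + c) * (z + d)) * e) ≠ 0 := by
  have ne : ∀ (t : ℝ) (w : ℂ), w.im ≠ 0 → w + t ≠ 0 := by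
    intro t w hw h
    have := congrArg Complex.im h
    simp at this
    exact hw this
  by_cases he : e = 0
  · subst he
    have h3 : (z + a) + (z + c) + (z + d) ≠ 0 := by
      intro h
      have := congrArg Complex.im h
      simp at this
      exact hz (by linarith)
    simpa using ⟨h3, ⟨ne a z hz, ne c z hz⟩, ne d z hz⟩
  · have key := hyp0 (a - (a + c + d + e) / 3) (c - (a + c + d + e) / 3)
      (d - (a + c + d + e) / 3) e (by ring) he (z + (((a + c + d + e) / 3 : ℝ) : ℂ))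
      (by simpa using hz)
    intro h
    apply key
    rw [← h]
    push_cast
    ring

end Pool.Agent.Lib.MP_eea824_ag.Vam
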