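import Pool.Agent.Lib.MP_eea824_ag.Core
import Pool.Agent.Lib.MP_eea824_ag.Vam

/-! No real zero amalgam over one shared variable, degree four. -/

namespace Pool.Agent.Lib.MP_eea824_ag.Gar

open MvPolynomial

theorem noam (r : MvPolynomial (Fin 4) ℝ) (hr : RZ r)
    (hp : ∀ x y w : ℝ, eval ![x, y, w, 0] r = hv (1 + x) (1 + 2 * x + y) (1 + 2 * x) w)
    (hq : ∀ x z : ℝ, eval ![x, 0, 0, z] r = 4 * (1 + x) * (1 + 2 * x) ^ 2 * (3 + 5 * x + z)) :
    False := by
  have hd : r.totalDegree ≤ 4 := by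
    refine collapse r hr ![3, 0, 0, 0] 4 (fun i t ht => ?_) (fun i t ht => ?_)
      (4 * 4 * 7 ^ 2 * 18) (fun t ht => ?_)
    · have E : ∀ (i : Fin 4) (x y w z : ℝ), eval ![x, y, w, z] r ≠ 0 →
          t • (![3, 0, 0, 0] + Pi.single i 1) = ![x, y, w, z] →
          eval (t • (![3, 0, 0, 0] + Pi.single i 1)) r ≠ 0 := fun i x y w z h e => e ▸ h
      fin_cases i
      · exact E _ (4 * t) 0 0 0 (by rw [hq]; positivity)
          (by ext j; fin_cases j <;> simp [Matrix.vecHead, Matrix.vecTail] <;> ring)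
      · exact E _ (3 * t) t 0 0 (by rw [hp, hv]; positivity)
          (by ext j; fin_cases j <;> simp [Matrix.vecHead, Matrix.vecTail] <;> ring)
      · exact E _ (3 * t) 0 t 0 (by rw [hp, hv]; positivity)
          (by ext j; fin_cases j <;> simp [Matrix.vecHead, Matrix.vecTail] <;> ring)
      · exact E _ (3 * t) 0 0 t (by rw [hq]; positivity)
          (by ext j; fin_cases j <;> simp [Matrix.vecHead, Matrix.vecTail] <;> ring)
    · have E : ∀ (i : Fin 4) (x y w z : ℝ), eval ![x, y, w, z] r ≠ 0 →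
          t • (![3, 0, 0, 0] - Pi.single i 1) = ![x, y, w, z] →
          eval (t • (![3, 0, 0, 0] - Pi.single i 1)) r ≠ 0 := fun i x y w z h e => e ▸ h
      fin_cases i
      · exact E _ (2 * t) 0 0 0 (by rw [hq]; positivity)
          (by ext j; fin_cases j <;> simp [Matrix.vecHead, Matrix.vecTail] <;> ring)
      · exact E _ (3 * t) (-t) 0 0 (by
          rw [hp, show 1 + 2 * (3 * t) + -t = 1 + 5 * t by ring, hv]; positivity)
          (by ext j; fin_cases j <;> simp [Matrix.vecHead, Matrix.vecTail] <;> ring)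
      · exact E _ (3 * t) 0 (-t) 0 (by
          rw [hp, show hv (1 + 3 * t) (1 + 2 * (3 * t) + 0) (1 + 2 * (3 * t)) (-t) =
            (1 + 3 * t) ^ 2 * t ^ 2 + 4 * (3 + 14 * t) * (1 + 6 * t) * (1 + 6 * t + 6 * t ^ 2) by
              unfold hv; ring]
          positivity)
          (by ext j; fin_cases j <;> simp [Matrix.vecHead, Matrix.vecTail] <;> ring)
      · exact E _ (3 * t) 0 0 (-t) (by
          rw [hq, show 3 + 5 * (3 * t) + -t = 3 + 14 * t by ring]; positivity)
          (by ext j; fin_cases j <;> simp [Matrix.vecHead, Matrix.vecTail] <;> ring)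
    · rw [v4 (t • _)]
      simp only [Pi.smul_apply, smul_eq_mul, Matrix.cons_val_zero, Matrix.cons_val_one,
        Matrix.cons_val, mul_zero, hq]
      rw [abs_of_nonneg (by positivity)]
      calc _ ≤ 4 * (4 * t) * (7 * t) ^ 2 * (18 * t) := by gcongr <;> linarith
        _ = _ := by ring
  set g : Option (Fin 4) → MvPolynomial (Fin 5) ℝ :=
    fun o => o.elim (C 2 * X 0 - X 2) ![X 2 - X 0, X 1 - X 2, X 3, X 4] with hgd
  have hX : ∀ i : Fin 5, (X i : MvPolynomial (Fin 5) ℝ).IsHomogeneous 1 :=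
    fun i => isHomogeneous_X ℝ i
  have hg1 : ∀ o, (g o).IsHomogeneous 1 := by
    intro o
    cases o with
    | none => exact ((hX 0).C_mul 2).sub (hX 2)
    | some i => fin_cases i <;> first | exact hX _ | exact (hX _).sub (hX _)
  have ev : ∀ a c d e z : ℝ, 2 * a - d ≠ 0 → eval ![a, c, d, e, z] (aeval g (hg r 4)) =
      (2 * a - d) ^ 4 * eval ![(2 * a - d)⁻¹ * (d - a), (2 * a - d)⁻¹ * (c - d),
        (2 * a - d)⁻¹ * e, (2 * a - d)⁻¹ * z] r := by
    intro a c d e z h
    rw [eval_aeval, hg_eval r hd _ (by simpa [hgd] using h)]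
    congr 1
    · simp [hgd]
    · congr 2
      ext i
      fin_cases i <;> simp [hgd]
  have dens : ∀ (c d e z : ℝ) (f : ℝ → ℝ), Continuous f →
      (∀ a, 2 * a - d ≠ 0 → eval ![a, c, d, e, z] (aeval g (hg r 4)) = f a) →
      ∀ a, eval ![a, c, d, e, z] (aeval g (hg r 4)) = f a := by
    intro c d e z f hf h a
    have hc := continuous_eval (aeval g (hg r 4))
    have hu : Continuous fun a : ℝ => (![a, c, d, e, z] : Fin 5 → ℝ) := by fun_prop
    exact congrFun (Continuous.ext_on (dense_compl_singleton (d / 2)) (hc.comp hu) hf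
      fun a ha => h a fun h0 => ha (by simp only [Set.mem_singleton_iff]; linarith)) a
  refine core (aeval g (hg r 4)) ((hg_hom r 4).aeval g hg1) ?_ ?_ ?_
  · intro y z hz
    simp only
    rw [aeval_aeval]
    refine hg_ne r hr hd _ ?_ ![y 2 - y 0, y 1 - y 2, y 3, y 4] fun i => ?_
    · simp [hgd, cx]
      intro h
      exact hz (by linarith)
    · fin_cases i <;> simp [hgd, cx]
  · intro a c d e
    refine dens c d e 0 (fun a => hv a c d e) (by unfold hv; fun_prop) (fun a h => ?_) a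
    rw [ev _ _ _ _ _ h, mul_zero, hp]
    unfold hv
    field_simp
    ring
  · intro u v z
    refine dens v v 0 z (fun u => 4 * u * v ^ 2 * (u + 2 * v + z)) (by fun_prop) (fun a h => ?_) u
    rw [ev _ _ _ _ _ h, sub_self, mul_zero, hq]
    field_simp
    ring

/-- the Vamos quartic in a commutative ring -/
def hR {A : Type*} [CommRing A] (a c d e : A) : A :=
  a ^ 2 * e ^ 2 + 4 * (a + c + d + e) * (a * c * d + (a * c + a * d + c * d) * e)

lemma deg_hR {σ : Type*} (a c d e : MvPolynomial σ ℝ) (ha : a.totalDegree ≤ 1)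
    (hc : c.totalDegree ≤ 1) (hd : d.totalDegree ≤ 1) (he : e.totalDegree ≤ 1) :
    (hR a c d e).totalDegree ≤ 4 := by
  have A : ∀ {p q : MvPolynomial σ ℝ} {n : ℕ}, p.totalDegree ≤ n → q.totalDegree ≤ n →
      (p + q).totalDegree ≤ n := fun h1 h2 => (totalDegree_add _ _).trans (max_le h1 h2)
  have M : ∀ {p q : MvPolynomial σ ℝ} {m n : ℕ}, p.totalDegree ≤ m → q.totalDegree ≤ n →
      (p * q).totalDegree ≤ m + n := fun h1 h2 => (totalDegree_mul _ _).trans (add_le_add h1 h2)
  have h4 : (4 : MvPolynomial σ ℝ).totalDegree ≤ 0 := (totalDegree_C (4 : ℝ)).le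
  unfold hR
  rw [pow_two, pow_two]
  exact A (M (M ha ha) (M he he))
    (M (M h4 (A (A (A ha hc) hd) he)) (A (M (M ha hc) hd) (M (A (A (M ha hc) (M ha hd)) (M hc hd)) he)))

lemma rz_hR (x y w : ℝ) (lam : ℂ)
    (h : hR (1 + lam * x) (1 + 2 * (lam * x) + lam * y) (1 + 2 * (lam * x)) (lam * w) = 0) :
    lam.im = 0 := by
  by_contra him
  have h0 : lam ≠ 0 := by
    intro h
    simp [h] at him
  have hi : (lam⁻¹).im ≠ 0 := by
    rw [Complex.inv_im]
    exact div_ne_zero (by simpa using him) (by simpa using h0)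
  apply Vam.hyp x (2 * x + y) (2 * x) w lam⁻¹ hi
  have e : ∀ a c d e : ℂ, hR (lam * a) (lam * c) (lam * d) (lam * e) = lam ^ 4 * hR a c d e := by
    intros
    unfold hR
    ring
  have e2 := e (lam⁻¹ + x) (lam⁻¹ + (2 * x + y)) (lam⁻¹ + 2 * x) w
  rw [show lam * (lam⁻¹ + x) = 1 + lam * x by field_simp,
    show lam * (lam⁻¹ + (2 * x + y)) = 1 + 2 * (lam * x) + lam * y by field_simp; ring,
    show lam * (lam⁻¹ + 2 * x) = 1 + 2 * (lam * x) by field_simp, h] at e2
  have := (mul_eq_zero.mp e2.symm).resolve_left (pow_ne_zero _ h0)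
  unfold hR at this
  push_cast
  exact this

lemma lin_real (a b : ℝ) (ha : a ≠ 0) (lam : ℂ) (h : (a : ℂ) + lam * b = 0) : lam.im = 0 := by
  have h1 := congrArg Complex.im h
  have h2 := congrArg Complex.re h
  simp at h1 h2
  rcases h1 with h1 | h1
  · exact h1
  · simp [h1] at h2
    exact absurd h2 ha

theorem quart (l m n : ℕ) (hl : 1 ≤ l) (hm : 2 ≤ m) (hn : 1 ≤ n) :
    ∃ (p : MvPolynomial (Fin l ⊕ Fin m) ℝ) (q : MvPolynomial (Fin l ⊕ Fin n) ℝ),
      RZ p ∧ RZ q ∧ p.totalDegree ≤ 4 ∧ q.totalDegree ≤ 4 ∧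
      aeval (Sum.elim X fun _ => 0) p =
        (aeval (Sum.elim X fun _ => 0) q : MvPolynomial (Fin l) ℝ) ∧
      ¬ ∃ r : MvPolynomial (Fin l ⊕ Fin m ⊕ Fin n) ℝ, RZ r ∧
        aeval (Sum.elim (fun i => X (Sum.inl i))
          (Sum.elim (fun j => X (Sum.inr j)) fun _ => 0)) r = p ∧
        aeval (Sum.elim (fun i => X (Sum.inl i))
          (Sum.elim (fun _ => 0) fun k => X (Sum.inr k))) r = q := by
  obtain ⟨l, rfl⟩ : ∃ k, l = k + 1 := ⟨l - 1, by omega⟩
  obtain ⟨m, rfl⟩ : ∃ k, m = k + 2 := ⟨m - 2, by omega⟩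
  obtain ⟨n, rfl⟩ : ∃ k, n = k + 1 := ⟨n - 1, by omega⟩
  have A : ∀ {σ : Type} {p q : MvPolynomial σ ℝ} {n : ℕ}, p.totalDegree ≤ n → q.totalDegree ≤ n →
      (p + q).totalDegree ≤ n := fun h1 h2 => (totalDegree_add _ _).trans (max_le h1 h2)
  have M : ∀ {σ : Type} {p q : MvPolynomial σ ℝ} {m n : ℕ}, p.totalDegree ≤ m →
      q.totalDegree ≤ n → (p * q).totalDegree ≤ m + n :=
    fun h1 h2 => (totalDegree_mul _ _).trans (add_le_add h1 h2)
  have K : ∀ {σ : Type} (a : ℝ) (k : ℕ), (C a : MvPolynomial σ ℝ).totalDegree ≤ k :=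
    fun a k => (totalDegree_C a).le.trans (Nat.zero_le _)
  have V : ∀ {σ : Type} (i : σ), (X i : MvPolynomial σ ℝ).totalDegree ≤ 1 :=
    fun i => (totalDegree_X i).le
  refine ⟨hR (C 1 + X (Sum.inl 0)) (C 1 + C 2 * X (Sum.inl 0) + X (Sum.inr 0))
      (C 1 + C 2 * X (Sum.inl 0)) (X (Sum.inr 1)),
    C 4 * (C 1 + X (Sum.inl 0)) * ((C 1 + C 2 * X (Sum.inl 0)) * (C 1 + C 2 * X (Sum.inl 0))) *
      (C 3 + C 5 * X (Sum.inl 0) + X (Sum.inr 0)), ?_, ?_, ?_, ?_, ?_, ?_⟩
  · intro a lam h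
    apply rz_hR (a (Sum.inl 0)) (a (Sum.inr 0)) (a (Sum.inr 1)) lam
    rw [← h]
    simp [hR]
  · intro a lam h
    simp only [map_mul, map_add, aeval_C, aeval_X, mul_eq_zero, or_self, Complex.coe_algebraMap]
      at h
    rcases h with ((h | h) | h) | h
    · norm_num at h
    · exact lin_real 1 _ one_ne_zero lam h
    · refine lin_real 1 (2 * a (Sum.inl 0)) one_ne_zero lam ?_
      rw [← h]
      push_cast
      ring
    · refine lin_real 3 (5 * a (Sum.inl 0) + a (Sum.inr 0)) three_ne_zero lam ?_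
      rw [← h]
      push_cast
      ring
  · exact deg_hR _ _ _ _ (A (K _ _) (V _)) (A (A (K _ _) (M (K _ 0) (V _))) (V _))
      (A (K _ _) (M (K _ 0) (V _))) (V _)
  · exact M (M (M (K _ 0) (A (K _ _) (V _))) (M (A (K _ _) (M (K _ 0) (V _)))
      (A (K _ _) (M (K _ 0) (V _))))) (A (A (K _ _) (M (K _ 0) (V _))) (V _))
  · apply MvPolynomial.funext
    intro x
    simp [hR, map_ofNat]
    ring
  · rintro ⟨r, hr, e1, e2⟩
    set g : Fin (l + 1) ⊕ Fin (m + 2) ⊕ Fin (n + 1) → MvPolynomial (Fin 4) ℝ :=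
      Sum.elim (Fin.cons (X 0) fun _ => 0)
        (Sum.elim (Fin.cons (X 1) (Fin.cons (X 2) fun _ => 0)) (Fin.cons (X 3) fun _ => 0))
      with hg
    refine noam (aeval g r) (fun a lam h => ?_) (fun x y w => ?_) (fun x z => ?_)
    · rw [aeval_aeval] at h
      refine hr (fun i => eval a (g i)) lam ?_
      rw [← h]
      congr 2
      ext i
      rcases i with i | i | i
      · refine Fin.cases ?_ (fun i => ?_) i <;> simp [hg]
      · refine Fin.cases ?_ (fun i => Fin.cases ?_ (fun i => ?_) i) i <;> simp [hg]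
      · refine Fin.cases ?_ (fun i => ?_) i <;> simp [hg]
    · have := congrArg (eval (Sum.elim (Fin.cons x fun _ => 0)
        (Fin.cons y (Fin.cons w fun _ => 0)) : Fin (l + 1) ⊕ Fin (m + 2) → ℝ)) e1
      rw [eval_aeval] at this
      rw [eval_aeval]
      convert this using 3
      · ext i
        rcases i with i | i | i
        · refine Fin.cases ?_ (fun i => ?_) i <;> simp [hg]
        · refine Fin.cases ?_ (fun i => Fin.cases ?_ (fun i => ?_) i) i <;> simp [hg]
        · refine Fin.cases ?_ (fun i => ?_) i <;> simp [hg]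
      · simp [hR, hv]
    · have := congrArg (eval (Sum.elim (Fin.cons x fun _ => 0)
        (Fin.cons z fun _ => 0) : Fin (l + 1) ⊕ Fin (n + 1) → ℝ)) e2
      rw [eval_aeval] at this
      rw [eval_aeval]
      convert this using 3
      · ext i
        rcases i with i | i | i
        · refine Fin.cases ?_ (fun i => ?_) i <;> simp [hg]
        · refine Fin.cases ?_ (fun i => Fin.cases ?_ (fun i => ?_) i) i <;> simp [hg]
        · refine Fin.cases ?_ (fun i => ?_) i <;> simp [hg]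
      all_goals simp [pow_two]

end Pool.Agent.Lib.MP_eea824_ag.Gar
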